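import Pool.Agent.Helper66.QK.Logs

/-!
# Block BORSUK: a logarithm of `(z - p) / (z - q)` on `F` means that `F` does not separate `p` and `q`

Proof. Let `V` be the component of `Fᶜ` containing `p` and suppose `q ∉ V`. `V` is open and bounded, `frontier V ⊆ F`. Extend
`lam` from `frontier V` to a continuous function `mu : ℂ → ℂ` (Tietze, real and imaginary parts). The function equal to
`exp (mu z) * (z - q)` on `closure V` and to `z - p` outside `V` is continuous and nowhere zero on `ℂ`, and it is `z - p` for
large `‖z‖`. `sqrt_disc` (file QJ/Sep) gives a continuous square root on a large closed disk; dividing by a square root of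
`1 - p / z` on the circle one contradicts `no_sqrt_id` (file QJ/Sep).
-/

set_option autoImplicit false

open Set Topology Metric Bornology Filter

namespace Pool.Agent.Helper66.QJ

theorem borsuk {F : Set ℂ} (hF : IsClosed F) (hb : IsBounded Fᶜ) {p q : ℂ} (hp : p ∉ F) (hq : q ∉ F) {lam : ℂ → ℂ}
    (hl : ContinuousOn lam F) (he : ∀ z ∈ F, Complex.exp (lam z) = (z - p) / (z - q)) :
    q ∈ connectedComponentIn Fᶜ p := by
  classical
  by_contra hqV
  set V : Set ℂ := connectedComponentIn Fᶜ p with hV
  have hpV : p ∈ V := mem_connectedComponentIn hp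
  have hVo : IsOpen V := hF.isOpen_compl.connectedComponentIn
  have hVF : V ⊆ Fᶜ := connectedComponentIn_subset _ _
  have hfr : frontier V ⊆ F := by
    intro x hx
    by_contra hxF
    have hxo : IsOpen (connectedComponentIn Fᶜ x) := hF.isOpen_compl.connectedComponentIn
    have hxc : x ∈ closure V := frontier_subset_closure hx
    obtain ⟨y, hy1, hy2⟩ := mem_closure_iff.1 hxc _ hxo (mem_connectedComponentIn hxF)
    have h1 : connectedComponentIn Fᶜ x = connectedComponentIn Fᶜ y := connectedComponentIn_eq hy1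
    have h2 : V = connectedComponentIn Fᶜ y := connectedComponentIn_eq hy2
    have h3 : x ∈ V := by
      rw [h2, ← h1]
      exact mem_connectedComponentIn hxF
    rw [hVo.frontier_eq] at hx
    exact hx.2 h3
  have hclV : closure V ⊆ V ∪ F := by
    intro x hx
    by_cases hxV : x ∈ V
    · exact Or.inl hxV
    · refine Or.inr (hfr ?_)
      rw [hVo.frontier_eq]
      exact ⟨hx, hxV⟩
  have hqcl : q ∉ closure V := fun h => (hclV h).elim hqV hq
  -- extension of `lam`
  obtain ⟨mu, hmu⟩ := ContinuousMap.exists_restrict_eq hF (⟨F.domRestrict lam, hl.domRestrict⟩ : C(F, ℂ))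
  have hmu2 : ∀ z ∈ F, mu z = lam z := by
    intro z hz
    have := congrArg (fun g : C(F, ℂ) => g ⟨z, hz⟩) hmu
    exact this
  -- the function
  let Φ : ℂ → ℂ := (closure V).piecewise (fun z => Complex.exp (mu z) * (z - q)) (fun z => z - p)
  have hΦc : Continuous Φ := by
    refine Continuous.piecewise ?_ ?_ ?_
    · intro z hz
      have hzF : z ∈ F := hfr (frontier_closure_subset hz)
      have hzq : z - q ≠ 0 := fun h => hq (by rw [← sub_eq_zero.1 h]; exact hzF)
      show Complex.exp (mu z) * (z - q) = z - p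
      rw [hmu2 z hzF, he z hzF, div_mul_cancel₀ _ hzq]
    · exact (Complex.continuous_exp.comp mu.continuous).mul (continuous_id.sub continuous_const)
    · exact continuous_id.sub continuous_const
  have hΦ0 : ∀ z, Φ z ≠ 0 := by
    intro z
    by_cases hz : z ∈ closure V
    · rw [show Φ z = Complex.exp (mu z) * (z - q) from piecewise_eq_of_mem _ _ _ hz]
      refine mul_ne_zero (Complex.exp_ne_zero _) fun h => hqcl ?_
      rw [← sub_eq_zero.1 h]
      exact hz
    · rw [show Φ z = z - p from piecewise_eq_of_notMem _ _ _ hz]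
      intro h
      apply hz
      rw [sub_eq_zero.1 h]
      exact subset_closure hpV
  -- a large circle
  obtain ⟨ρ0, hρ0⟩ := (hb.subset hVF).closure.subset_closedBall 0
  set ρ : ℝ := max ρ0 ‖p‖ + 1 with hρ
  have hρp : ‖p‖ < ρ := by
    have := le_max_right ρ0 ‖p‖
    linarith
  have hρ1 : ρ0 < ρ := by
    have := le_max_left ρ0 ‖p‖
    linarith
  have hρpos : 0 < ρ := (norm_nonneg p).trans_lt hρp
  obtain ⟨g, hg, hg2⟩ := sqrt_disc hρpos (hΦc.continuousOn (s := closedBall 0 ρ)) (fun z _ => hΦ0 z)
  have hsph : ∀ z ∈ sphere (0 : ℂ) ρ, Φ z = z - p := by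
    intro z hz
    refine piecewise_eq_of_notMem _ _ _ fun hz2 => ?_
    have h1 := hρ0 hz2
    rw [mem_closedBall_zero_iff] at h1
    rw [mem_sphere_zero_iff_norm] at hz
    linarith
  have hz0 : ∀ z ∈ sphere (0 : ℂ) ρ, z ≠ 0 := fun z hz h0 => by
    rw [h0, mem_sphere_zero_iff_norm, norm_zero] at hz
    exact hρpos.ne hz
  have hslit : ∀ z ∈ sphere (0 : ℂ) ρ, 1 + -p / z ∈ Complex.slitPlane := fun z hz => by
    apply Complex.mem_slitPlane_of_norm_lt_one
    rw [norm_div, norm_neg, mem_sphere_zero_iff_norm.1 hz, div_lt_one hρpos]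
    exact hρp
  have hsc : ContinuousOn (fun z : ℂ => Complex.exp (Complex.log (1 + -p / z) / 2)) (sphere 0 ρ) := by
    refine Complex.continuous_exp.comp_continuousOn (ContinuousOn.div_const ?_ _)
    refine ContinuousOn.clog ?_ hslit
    exact continuousOn_const.add (continuousOn_const.div continuousOn_id hz0)
  have hs2 : ∀ z ∈ sphere (0 : ℂ) ρ, Complex.exp (Complex.log (1 + -p / z) / 2) ^ 2 = 1 + -p / z := by
    intro z hz
    rw [← Complex.exp_nat_mul, Nat.cast_ofNat, mul_div_cancel₀ _ (two_ne_zero' ℂ),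
      Complex.exp_log (Complex.slitPlane_ne_zero (hslit z hz))]
  refine no_sqrt_id (k := fun z => g z / Complex.exp (Complex.log (1 + -p / z) / 2)) hρpos
    ((hg.mono sphere_subset_closedBall).div hsc fun z _ => Complex.exp_ne_zero _) ?_
  intro z hz
  have hzne := hz0 z hz
  have h1 : 1 + -p / z ≠ 0 := Complex.slitPlane_ne_zero (hslit z hz)
  show (g z / Complex.exp (Complex.log (1 + -p / z) / 2)) ^ 2 = z
  rw [div_pow, hs2 z hz, hg2 z (sphere_subset_closedBall hz), hsph z hz, div_eq_iff h1]
  field_simp
  ring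

end Pool.Agent.Helper66.QJ
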