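import Pool.Agent.Helper66.QK.Defs

/-!
# Block BOTH: if `J` is indecomposable then both halves of the curves come near every point

Proof. Suppose not: `x ∈ J`, `δ`, `N` such that for every `n ≥ N` the half `C n [0,1/2]` or its negative misses `ball x δ`.
Choose a sign `σ n` such that `σ n * C n θ` (`θ ∈ [0,1/2]`) misses `ball x δ` for `n ≥ N`. Let `Js` be the set of `y` such that
for all `ε > 0` and `N'` there are `n ≥ N'` and `θ ∈ [0,1/2]` with `‖σ n * C n θ - y‖ < ε`. `Js` is closed, contained in `J`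
(`Ext.lim`, `neg_mem_J`), misses `ball x δ`, and `Js ∪ -Js = J` (`Ext.near`, `Ext.half`: every `θ` can be moved into
`[0, 1]` by periodicity `C n (θ + 1) = C n θ`). Connected: every half contains points near `b` (namely `C n 0` or
`-C n (1/2) = C n 0`), so if `Js ⊆ U ∪ V` with `U`, `V` open disjoint, `b ∈ U`, then for large `n` the half is in `U ∪ V`
(compactness of a large ball; the halves are bounded), connected and meets `U`, so it is in `U`, and `Js ∩ V` is empty.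
So `J = Js ∪ -Js` is decomposable.
-/

set_option autoImplicit false

open Set Topology Metric Bornology Filter

namespace Pool.Agent.Helper66.QJ

variable {c b : ℂ} {R : Set ℂ} {C : ℕ → ℝ → ℂ}

/-- limit points of the half curves -/
private def Ls86 (D : ℕ → ℝ → ℂ) : Set ℂ :=
  {y | ∀ ε : ℝ, 0 < ε → ∀ N' : ℕ, ∃ n, N' ≤ n ∧ ∃ θ ∈ Icc (0 : ℝ) (1 / 2), ‖D n θ - y‖ < ε}

private theorem isClosed_Ls86 (D : ℕ → ℝ → ℂ) : IsClosed (Ls86 D) := by
  apply isClosed_of_closure_subset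
  intro y hy ε hε N'
  obtain ⟨z, hz, hyz⟩ := Metric.mem_closure_iff.1 hy (ε / 2) (half_pos hε)
  obtain ⟨n, hn, θ, hθ, h1⟩ := hz (ε / 2) (half_pos hε) N'
  refine ⟨n, hn, θ, hθ, ?_⟩
  rw [dist_comm, dist_eq_norm] at hyz
  calc ‖D n θ - y‖ = ‖(D n θ - z) + (z - y)‖ := by rw [sub_add_sub_cancel]
    _ ≤ ‖D n θ - z‖ + ‖z - y‖ := norm_add_le _ _
    _ < ε := by linarith

/-- a compact set without limit points is left by the half curves -/
private theorem leave86 {D : ℕ → ℝ → ℂ} {F : Set ℂ} (hF : IsCompact F) (hd : Disjoint F (Ls86 D)) :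
    ∃ N1 : ℕ, ∀ n, N1 ≤ n → ∀ θ ∈ Icc (0 : ℝ) (1 / 2), D n θ ∉ F := by
  refine hF.induction_on (p := fun S => ∃ N1 : ℕ, ∀ n, N1 ≤ n → ∀ θ ∈ Icc (0 : ℝ) (1 / 2), D n θ ∉ S)
    ⟨0, fun _ _ _ _ h => h⟩ ?_ ?_ ?_
  · rintro s t hst ⟨N1, h⟩
    exact ⟨N1, fun n hn θ hθ hs => h n hn θ hθ (hst hs)⟩
  · rintro s t ⟨N1, h1⟩ ⟨N2, h2⟩
    refine ⟨max N1 N2, fun n hn θ hθ hs => ?_⟩
    rcases hs with hs | hs
    · exact h1 n ((le_max_left _ _).trans hn) θ hθ hs
    · exact h2 n ((le_max_right _ _).trans hn) θ hθ hs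
  · intro z hz
    have h1 : z ∉ Ls86 D := fun h => Set.disjoint_left.1 hd hz h
    simp only [Ls86, mem_ofPred_eq] at h1
    push Not at h1
    obtain ⟨ε, hε, N', h2⟩ := h1
    refine ⟨ball z ε, mem_nhdsWithin_of_mem_nhds (ball_mem_nhds z hε), N', fun n hn θ hθ hs => ?_⟩
    rw [mem_ball, dist_eq_norm] at hs
    exact absurd hs (not_lt.2 (h2 n hn θ hθ))

private theorem conn_Ls86 {D : ℕ → ℝ → ℂ} (hD : ∀ n, Continuous (D n)) (hbd : IsBounded (Ls86 D))
    (hb : ∀ δ : ℝ, 0 < δ → ∃ N : ℕ, ∀ n, N ≤ n → ∃ θ ∈ Icc (0 : ℝ) (1 / 2), ‖D n θ - b‖ < δ) :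
    b ∈ Ls86 D ∧ IsPreconnected (Ls86 D) := by
  have hbL : b ∈ Ls86 D := by
    intro ε hε N'
    obtain ⟨N, h⟩ := hb ε hε
    obtain ⟨θ, hθ, h1⟩ := h (max N N') (le_max_left _ _)
    exact ⟨max N N', le_max_right _ _, θ, hθ, h1⟩
  refine ⟨hbL, ?_⟩
  have hcl := isClosed_Ls86 D
  -- the main case
  have main : ∀ u v : Set ℂ, IsClosed u → IsClosed v → Ls86 D ⊆ u ∪ v → Disjoint u v → b ∈ u → Ls86 D ⊆ u := by
    intro u v hu hv huv hd hbu y hy
    by_contra hyu
    have hyv : y ∈ v := (huv hy).resolve_left hyu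
    have hK1 : IsCompact (Ls86 D ∩ u) := Metric.isCompact_of_isClosed_isBounded (hcl.inter hu)
      (hbd.subset inter_subset_left)
    have hK2 : IsCompact (Ls86 D ∩ v) := Metric.isCompact_of_isClosed_isBounded (hcl.inter hv)
      (hbd.subset inter_subset_left)
    have hdK : Disjoint (Ls86 D ∩ u) (Ls86 D ∩ v) :=
      Set.disjoint_of_subset inter_subset_right inter_subset_right hd
    obtain ⟨δ, hδ, hdis⟩ := hdK.exists_thickenings hK1 hK2.isClosed
    have hUo : IsOpen (thickening δ (Ls86 D ∩ u)) := isOpen_thickening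
    have hVo : IsOpen (thickening δ (Ls86 D ∩ v)) := isOpen_thickening
    have hUb : IsBounded (thickening δ (Ls86 D ∩ u)) := hK1.isBounded.thickening
    have hFc : IsCompact (frontier (thickening δ (Ls86 D ∩ u))) :=
      Metric.isCompact_of_isClosed_isBounded isClosed_frontier
        (hUb.closure.subset frontier_subset_closure)
    have hFd : Disjoint (frontier (thickening δ (Ls86 D ∩ u))) (Ls86 D) := by
      rw [Set.disjoint_left]
      intro z hz hzL
      rcases huv hzL with h | h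
      · have h1 : z ∈ thickening δ (Ls86 D ∩ u) := self_subset_thickening hδ _ ⟨hzL, h⟩
        rw [frontier, hUo.interior_eq] at hz
        exact hz.2 h1
      · have h1 : z ∈ thickening δ (Ls86 D ∩ v) := self_subset_thickening hδ _ ⟨hzL, h⟩
        have h2 : Disjoint (closure (thickening δ (Ls86 D ∩ u))) (thickening δ (Ls86 D ∩ v)) :=
          hdis.closure_left hVo
        exact Set.disjoint_left.1 h2 (frontier_subset_closure hz) h1
    obtain ⟨N1, hN1⟩ := leave86 hFc hFd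
    obtain ⟨N2, hN2⟩ := hb δ hδ
    obtain ⟨n, hn, θ, hθ, hyn⟩ := hy δ hδ (max N1 N2)
    obtain ⟨θ0, hθ0, h0⟩ := hN2 n ((le_max_right _ _).trans hn)
    have hS : IsPreconnected (D n '' Icc (0 : ℝ) (1 / 2)) := isPreconnected_Icc.image _ (hD n).continuousOn
    have hSU : D n '' Icc (0 : ℝ) (1 / 2) ⊆ thickening δ (Ls86 D ∩ u) := by
      refine IsPreconnected.subset_left_of_subset_union hUo
        (isClosed_closure (s := thickening δ (Ls86 D ∩ u))).isOpen_compl ?_ ?_ ?_ hS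
      · exact Set.disjoint_left.2 fun z hz h => h (subset_closure hz)
      · rintro _ ⟨t, ht, rfl⟩
        by_cases h : D n t ∈ thickening δ (Ls86 D ∩ u)
        · exact Or.inl h
        · refine Or.inr fun hc => ?_
          refine hN1 n ((le_max_left _ _).trans hn) t ht ?_
          rw [frontier, hUo.interior_eq]
          exact ⟨hc, h⟩
      · refine ⟨D n θ0, ⟨θ0, hθ0, rfl⟩, ?_⟩
        rw [mem_thickening_iff]
        exact ⟨b, ⟨hbL, hbu⟩, by rw [dist_eq_norm]; exact h0⟩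
    have h1 : D n θ ∈ thickening δ (Ls86 D ∩ u) := hSU ⟨θ, hθ, rfl⟩
    have h2 : D n θ ∈ thickening δ (Ls86 D ∩ v) := by
      rw [mem_thickening_iff]
      exact ⟨y, ⟨hy, hyv⟩, by rw [dist_eq_norm]; exact hyn⟩
    exact Set.disjoint_left.1 hdis h1 h2
  rw [isPreconnected_iff_subset_of_fully_disjoint_closed hcl]
  intro u v hu hv huv hd
  rcases huv hbL with h | h
  · exact Or.inl (main u v hu hv huv hd h)
  · exact Or.inr (main v u hv hu (by rwa [union_comm]) hd.symm h)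

theorem both_sides (h : Ext c b R C) (hnd : ¬ Dec (J c)) {x : ℂ} (hx : x ∈ J c) {δ : ℝ} (hδ : 0 < δ) (N : ℕ) :
    ∃ n, N ≤ n ∧ (∃ θ ∈ Icc (0 : ℝ) (1 / 2), ‖C n θ - x‖ < δ) ∧ ∃ θ ∈ Icc (0 : ℝ) (1 / 2), ‖-C n θ - x‖ < δ := by
  by_contra hcon
  push Not at hcon
  classical
  -- the chosen halves
  obtain ⟨D, hD1, hD2⟩ : ∃ D : ℕ → ℝ → ℂ, (∀ n, (∀ θ, D n θ = C n θ) ∨ ∀ θ, D n θ = -C n θ) ∧
      ∀ n, N ≤ n → ∀ θ ∈ Icc (0 : ℝ) (1 / 2), δ ≤ ‖D n θ - x‖ := by
    refine ⟨fun n θ => if ∃ θ ∈ Icc (0 : ℝ) (1 / 2), ‖C n θ - x‖ < δ then -C n θ else C n θ, ?_, ?_⟩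
    · intro n
      by_cases h1 : ∃ θ ∈ Icc (0 : ℝ) (1 / 2), ‖C n θ - x‖ < δ
      · exact Or.inr fun θ => if_pos h1
      · exact Or.inl fun θ => if_neg h1
    · intro n hn θ hθ
      by_cases h1 : ∃ θ ∈ Icc (0 : ℝ) (1 / 2), ‖C n θ - x‖ < δ
      · simp only [if_pos h1]
        exact hcon n hn h1 θ hθ
      · simp only [if_neg h1]
        by_contra h2
        exact h1 ⟨θ, hθ, not_le.1 h2⟩
  have hDc : ∀ n, Continuous (D n) := by
    intro n
    rcases hD1 n with h1 | h1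
    · exact (h.cont n).congr fun θ => (h1 θ).symm
    · exact (h.cont n).neg.congr fun θ => (h1 θ).symm
  -- the set of the limit points
  have hLJ : Ls86 D ⊆ J c := by
    intro y hy
    refine h.lim y fun ε hε N' => ?_
    obtain ⟨n, hn, θ, -, h1⟩ := hy ε hε N'
    rcases hD1 n with h2 | h2
    · exact ⟨n, hn, θ, by rw [← h2]; exact h1⟩
    · exact ⟨n, hn, θ + 1 / 2, by rw [h.half, ← h2]; exact h1⟩
  have hxL : x ∉ Ls86 D := by
    intro hxL
    obtain ⟨n, hn, θ, hθ, h1⟩ := hxL δ hδ N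
    exact absurd h1 (not_lt.2 (hD2 n hn θ hθ))
  have hb : ∀ δ : ℝ, 0 < δ → ∃ N : ℕ, ∀ n, N ≤ n → ∃ θ ∈ Icc (0 : ℝ) (1 / 2), ‖D n θ - b‖ < δ := by
    intro ε hε
    obtain ⟨N', h1⟩ := h.toB ε hε
    refine ⟨N', fun n hn => ?_⟩
    rcases hD1 n with h2 | h2
    · exact ⟨0, ⟨le_refl _, by norm_num⟩, by rw [h2]; exact h1 n hn⟩
    · refine ⟨1 / 2, ⟨by norm_num, le_refl _⟩, ?_⟩
      have h3 := h.half n 0
      rw [zero_add] at h3
      rw [h2, h3, neg_neg]
      exact h1 n hn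
  obtain ⟨hbL, hconn⟩ := conn_Ls86 hDc ((isCompact_J c).isBounded.subset hLJ) hb
  have hcl := isClosed_Ls86 D
  have hcomp : IsCompact (Ls86 D) := (isCompact_J c).of_isClosed_subset hcl hLJ
  -- every angle can be moved
  have hmove : ∀ (n : ℕ) (θ : ℝ), ∃ θ' ∈ Icc (0 : ℝ) (1 / 2), D n θ' = C n θ ∨ D n θ' = -C n θ := by
    intro n θ
    have key : ∀ m : ℕ, ∀ θ : ℝ, C n (θ + m * (1 / 2)) = C n θ ∨ C n (θ + m * (1 / 2)) = -C n θ := by
      intro m
      induction m with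
      | zero => intro θ; left; simp
      | succ m ih =>
        intro θ
        have h1 : θ + ((m + 1 : ℕ) : ℝ) * (1 / 2) = (θ + m * (1 / 2)) + 1 / 2 := by push_cast; ring
        rw [h1, h.half]
        rcases ih θ with h2 | h2
        · right; rw [h2]
        · left; rw [h2, neg_neg]
    have hfl := Int.floor_le (θ * 2)
    have hfl2 := Int.lt_floor_add_one (θ * 2)
    have hθ' : θ - (⌊θ * 2⌋ : ℝ) * (1 / 2) ∈ Icc (0 : ℝ) (1 / 2) := ⟨by linarith, by linarith⟩
    have hC : C n (θ - (⌊θ * 2⌋ : ℝ) * (1 / 2)) = C n θ ∨ C n (θ - (⌊θ * 2⌋ : ℝ) * (1 / 2)) = -C n θ := by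
      rcases Int.eq_nat_or_neg ⌊θ * 2⌋ with ⟨m, hm | hm⟩
      · have h1 := key m (θ - (⌊θ * 2⌋ : ℝ) * (1 / 2))
        rw [hm, Int.cast_natCast, sub_add_cancel] at h1
        rw [hm, Int.cast_natCast]
        rcases h1 with h1 | h1
        · exact Or.inl h1.symm
        · right; rw [h1, neg_neg]
      · have h1 := key m θ
        rw [hm, Int.cast_neg, Int.cast_natCast, neg_mul, sub_neg_eq_add]
        exact h1
    refine ⟨_, hθ', ?_⟩
    rcases hD1 n with h2 | h2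
    · rw [h2]
      exact hC
    · rw [h2]
      rcases hC with h3 | h3
      · right; rw [h3]
      · left; rw [h3, neg_neg]
  have hcov : Ls86 D ∪ -Ls86 D = J c := by
    apply Set.Subset.antisymm
    · rintro y (hy | hy)
      · exact hLJ hy
      · have h1 := neg_mem_J (hLJ hy)
        rwa [neg_neg] at h1
    · intro y hy
      by_contra hcon2
      rw [mem_union, not_or, Set.mem_neg] at hcon2
      obtain ⟨h1, h2⟩ := hcon2
      simp only [Ls86, mem_ofPred_eq] at h1 h2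
      push Not at h1 h2
      obtain ⟨ε1, hε1, N1, h1⟩ := h1
      obtain ⟨ε2, hε2, N2, h2⟩ := h2
      obtain ⟨N3, h3⟩ := h.near y hy (min ε1 ε2) (lt_min hε1 hε2)
      obtain ⟨θ, hθ⟩ := h3 (max N3 (max N1 N2)) (le_max_left _ _)
      obtain ⟨θ', hθ', h4⟩ := hmove (max N3 (max N1 N2)) θ
      have hn1 : N1 ≤ max N3 (max N1 N2) := (le_max_left _ _).trans (le_max_right _ _)
      have hn2 : N2 ≤ max N3 (max N1 N2) := (le_max_right _ _).trans (le_max_right _ _)
      rcases h4 with h4 | h4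
      · have h5 := h1 _ hn1 θ' hθ'
        rw [h4] at h5
        exact absurd (hθ.trans_le (min_le_left _ _)) (not_lt.2 h5)
      · have h5 := h2 _ hn2 θ' hθ'
        rw [h4, ← norm_neg, neg_sub, sub_neg_eq_add, neg_add_eq_sub, norm_sub_rev] at h5
        rw [norm_sub_rev] at hθ
        exact absurd (hθ.trans_le (min_le_right _ _)) (not_lt.2 h5)
  have hneg : -Ls86 D = (fun z : ℂ => -z) '' Ls86 D := (Set.image_neg_eq_neg).symm
  have hne1 : Ls86 D ≠ J c := fun he => hxL (by rw [he]; exact hx)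
  have hne2 : -Ls86 D ≠ J c := by
    intro he
    apply hxL
    have h1 : -x ∈ -Ls86 D := by rw [he]; exact neg_mem_J hx
    rwa [Set.mem_neg, neg_neg] at h1
  refine hnd ⟨Ls86 D, -Ls86 D, hLJ, ?_, hne1, hne2, hcomp, ⟨⟨b, hbL⟩, hconn⟩, ?_, ⟨⟨-b, ?_⟩, ?_⟩, hcov⟩
  · rw [← hcov]
    exact subset_union_right
  · rw [hneg]
    exact hcomp.image continuous_neg
  · rw [Set.mem_neg, neg_neg]
    exact hbL
  · rw [hneg]
    exact hconn.image _ continuous_neg.continuousOn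

end Pool.Agent.Helper66.QJ
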