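import Pool.Agent.Helper66.QJ.Internal

/-!
# Definitions for the theorem on invariant continua (MP_a03adf_an)

`Ext`: the closed connected set `R` joining the fixed point `b` to infinity outside `K`, and the closed curves `C n`
(preimages of a circle under the iterates), cut by `R` and `-R` into two halves. `Ruler`: a full invariant continuum `Xh`
and a segment landing at a point `a` of it outside the preimage of `Xh`.
-/

set_option autoImplicit false

open Set Topology Metric Bornology Filter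

namespace Pool.Agent.Helper66.QJ

/-- the external data -/
structure Ext (c b : ℂ) (R : Set ℂ) (C : ℕ → ℝ → ℂ) : Prop where
  fix : f c b = b
  memJ : b ∈ J c
  clR : IsClosed R
  connR : IsPreconnected R
  unbR : ¬ IsBounded R
  bR : b ∈ R
  RK : R ∩ K c ⊆ {b}
  cont : ∀ n, Continuous (C n)
  half : ∀ n θ, C n (θ + 1 / 2) = -C n θ
  out : ∀ n θ, C n θ ∉ Bn c n
  near : ∀ x ∈ J c, ∀ δ : ℝ, 0 < δ → ∃ N : ℕ, ∀ n, N ≤ n → ∃ θ, ‖C n θ - x‖ < δ
  lim : ∀ x, (∀ δ : ℝ, 0 < δ → ∀ N : ℕ, ∃ n, N ≤ n ∧ ∃ θ, ‖C n θ - x‖ < δ) → x ∈ J c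
  disj : ∀ n, ∀ θ ∈ Ioo (0 : ℝ) (1 / 2), C n θ ∉ R ∧ -C n θ ∉ R
  zeroR : ∀ n, C n 0 ∈ R
  toB : ∀ δ : ℝ, 0 < δ → ∃ N : ℕ, ∀ n, N ≤ n → ‖C n 0 - b‖ < δ

/-- a full forward invariant continuum `Xh` in `K` which contains the critical value, and a segment from `v` outside `K`
to a point `a` of `Xh`, which is otherwise outside the preimage of `Xh` -/
structure Ruler (c : ℂ) (Xh : Set ℂ) (a v : ℂ) : Prop where
  comp : IsCompact Xh
  conn : IsPreconnected Xh
  compl : IsPreconnected Xhᶜ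
  subK : Xh ⊆ K c
  cX : c ∈ Xh
  maps : ∀ z ∈ Xh, f c z ∈ Xh
  complW : IsPreconnected (f c ⁻¹' Xh)ᶜ
  aX : a ∈ Xh
  afix : f c a ≠ a
  ac : a ≠ c
  vK : v ∉ K c
  seg : ∀ s ∈ Ioc (0 : ℝ) 1, f c (a + s * (v - a)) ∉ Xh

end Pool.Agent.Helper66.QJ
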