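import Pool.Agent.Helper66.QK.Good
import Pool.Agent.Helper66.QK.Defs

/-!
# Block BOUND: `arg (f z - a) - 2 arg (z - a)` is bounded outside the preimage of `Xh`

`exists_Q`. Let `W = f⁻¹ Xh` (compact, connected by `preimage_conn0`, contains `0`, `a`, `± a'` where `f a' = a`). On compact
subsets of `Wᶜ` the function `u z = (z - a) ^ 2 / (f c z - a) = (z - a)/(z - a') * (z - a)/(z + a')` has a continuous
logarithm (`log_ratio` with `T = W`), so by `log_glue` it has one on the connected open set `Wᶜ`. `u` tends to `1` at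
infinity, so on `{‖z‖ ≥ r}` (connected) the logarithm is `Complex.log (u z)` plus a constant multiple of `2 π I`, which we
subtract.

`bound_Q`. Let `F, P, B` be as in `good` for `v` and `y0` in the complement of `K c` (open, connected), `‖y0‖` large. Let
`P0 z = log ((z - a)/(z - v)) + P z`, a logarithm of `(z - a)/(z - y0)` outside `F0 = segment a v ∪ F`, `|im| ≤ π + B`. On
`V = {z ∉ W, ‖z‖ < r2, z ∉ F0, f c z ∉ F0}` the function `Ψ z = 2 P0 z - P0 (f c z) - log w(z) + log (-y0)`, with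
`w z = (f c z - y0) / (z - y0) ^ 2 * (-y0)` close to `1` for `‖z‖ ≤ r2`, is a logarithm of `u` with bounded imaginary part.
So `Q - Ψ` is locally constant on `V`. It is bounded near the points of `F0` and `f⁻¹ F0` outside `W` and near `‖z‖ = r2`,
because `im Q` is bounded there: on the compact subset `F ∪ f⁻¹ F` of `Wᶜ` by continuity; on `a + s (v - a)`, `0 < s ≤ 1`:
`u = s ^ 2 (v-a)^2 / (f(a + s(v-a)) - a)` where the function `(v-a)^2/(f(a + s(v-a)) - a)` is continuous and nonzero on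
`[0,1]` (`f a ≠ a`; for `s > 0` the point is outside `W`), so it has a bounded logarithm (`log_path`) and
`Q = 2 log s + this + constant` on `(0,1]`; on the two curves `± ζ s` with `ζ s ^ 2 = a + s (v - a) - c` (continuous square
root on `[0,1]` by `log_path`, as `a ≠ c` and `c ∈ Xh`): `u = (± ζ s - a) ^ 2 / (s (v - a))`, `± ζ s - a ≠ 0` on `[0,1]`, the
same argument. The set of `z ∈ V` with `|Q z - Ψ z|` larger than a suitable constant is therefore open and closed in `Wᶜ`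
and not everything, so it is empty.
-/

set_option autoImplicit false

open Set Topology Metric Bornology Filter

namespace Pool.Agent.Helper66.QJ

variable {c a v : ℂ} {Xh : Set ℂ}


/-- points far away form a connected set -/
theorem isPreconnected_far (r : ℝ) : IsPreconnected {z : ℂ | r < ‖z‖} := by
  have h1 : {z : ℂ | r < ‖z‖} = (fun p : ℝ × ℝ => (p.1 : ℂ) * Complex.exp (p.2 * Complex.I)) ''
      ((Ioi r ∩ Ici 0) ×ˢ univ) := by
    ext z
    constructor
    · intro hz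
      exact ⟨(‖z‖, Complex.arg z), ⟨⟨hz, norm_nonneg z⟩, mem_univ _⟩, Complex.norm_mul_exp_arg_mul_I z⟩
    · rintro ⟨⟨t, s⟩, ⟨⟨ht, ht0⟩, -⟩, rfl⟩
      show r < ‖(t : ℂ) * Complex.exp (s * Complex.I)‖
      rw [norm_mul, Complex.norm_exp_ofReal_mul_I, mul_one, Complex.norm_real]
      exact lt_of_lt_of_le ht (le_abs_self t)
  rw [h1]
  exact (((ordConnected_Ioi.inter ordConnected_Ici).isPreconnected).prod isPreconnected_univ).image _ (by fun_prop)

/-- a compact set disjoint from a closed set has a positive distance from it -/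
theorem exists_dist {A T : Set ℂ} (hA : IsCompact A) (hT : IsClosed T) (h : Disjoint A T) :
    ∃ δ : ℝ, 0 < δ ∧ ∀ z ∈ A, ∀ t ∈ T, δ < ‖z - t‖ := by
  obtain ⟨r, hr, h1⟩ := Metric.exists_pos_forall_lt_edist hA hT h
  refine ⟨r, hr, fun z hz t ht => ?_⟩
  have h2 := h1 z hz t ht
  rw [edist_dist, ← ENNReal.ofReal_coe_nnreal] at h2
  have h3 := (ENNReal.ofReal_lt_ofReal_iff_of_nonneg r.2).1 h2
  rwa [dist_eq_norm] at h3

theorem isClosed_W (hX : IsCompact Xh) : IsClosed (f c ⁻¹' Xh) := hX.isClosed.preimage (continuous_f c)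

theorem W_sub_K (h : Ruler c Xh a v) {z : ℂ} (hz : f c z ∈ Xh) : z ∈ K c := f_mem_K_iff.1 (h.subK hz)

/-- the function `u` tends to `1` at infinity -/
theorem u_near_one (c a : ℂ) : ∀ ε : ℝ, 0 < ε → ∃ r : ℝ, ∀ z : ℂ, r ≤ ‖z‖ → ‖(z - a) ^ 2 / (f c z - a) - 1‖ < ε := by
  intro ε hε
  set M : ℝ := ‖a ^ 2 - c + a‖ + 2 * ‖a‖ + 1 with hM
  have hM1 : 1 ≤ M := by
    rw [hM]
    linarith [norm_nonneg (a ^ 2 - c + a), norm_nonneg a]
  set N : ℝ := ‖c - a‖ with hN
  have hN0 : 0 ≤ N := norm_nonneg _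
  refine ⟨2 * M / ε + N + 2, fun z hz => ?_⟩
  have hz1 : N + 2 ≤ ‖z‖ := by
    have : 0 < 2 * M / ε := by positivity
    linarith
  have hz2 : 2 * M < ε * ‖z‖ := by
    have h1 : 2 * M / ε < ‖z‖ := by linarith
    rw [div_lt_iff₀ hε] at h1
    linarith
  have hd : ‖z‖ ^ 2 / 2 ≤ ‖f c z - a‖ := by
    have h1 : f c z - a = z ^ 2 + (c - a) := by
      unfold f
      ring
    have h2 := norm_sub_norm_le (z ^ 2) (-(c - a))
    rw [norm_neg, norm_pow, sub_neg_eq_add, ← h1, ← hN] at h2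
    nlinarith
  have hzp : 0 < ‖z‖ := by linarith
  have hdp : 0 < ‖f c z - a‖ := lt_of_lt_of_le (by positivity) hd
  have hne : f c z - a ≠ 0 := norm_pos_iff.1 hdp
  have h3 : (z - a) ^ 2 / (f c z - a) - 1 = ((a ^ 2 - c + a) - 2 * a * z) / (f c z - a) := by
    field_simp
    unfold f
    ring
  rw [h3, norm_div, div_lt_iff₀ hdp]
  have h4 : ‖(a ^ 2 - c + a) - 2 * a * z‖ ≤ M * ‖z‖ := by
    have h5 := norm_sub_le (a ^ 2 - c + a) (2 * a * z)
    have h6 : ‖2 * a * z‖ = 2 * ‖a‖ * ‖z‖ := by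
      rw [norm_mul, norm_mul]
      simp
    rw [h6] at h5
    have h7 : ‖a ^ 2 - c + a‖ ≤ ‖a ^ 2 - c + a‖ * ‖z‖ := by
      have : (1 : ℝ) ≤ ‖z‖ := by linarith
      nlinarith [norm_nonneg (a ^ 2 - c + a)]
    rw [hM]
    nlinarith
  calc ‖(a ^ 2 - c + a) - 2 * a * z‖ ≤ M * ‖z‖ := h4
    _ < ε * (‖z‖ ^ 2 / 2) := by nlinarith
    _ ≤ ε * ‖f c z - a‖ := by
      apply mul_le_mul_of_nonneg_left hd hε.le

theorem exists_Q (h : Ruler c Xh a v) : ∃ Q : ℂ → ℂ, ContinuousOn Q (f c ⁻¹' Xh)ᶜ ∧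
    (∀ z, f c z ∉ Xh → Complex.exp (Q z) = (z - a) ^ 2 / (f c z - a)) ∧
    ∀ ε : ℝ, 0 < ε → ∃ r : ℝ, ∀ z : ℂ, r ≤ ‖z‖ → ‖Q z‖ < ε := by
  have hWcl := isClosed_W (c := c) h.comp
  obtain ⟨a', ha'⟩ := surj_f c a
  have haW : a ∈ f c ⁻¹' Xh := h.maps a h.aX
  have ha'W : a' ∈ f c ⁻¹' Xh := by
    show f c a' ∈ Xh
    rw [ha']
    exact h.aX
  have ha''W : -a' ∈ f c ⁻¹' Xh := by
    show f c (-a') ∈ Xh
    rw [f_neg, ha']
    exact h.aX
  have hWc : IsPreconnected (f c ⁻¹' Xh) := preimage_conn0 h.conn h.cX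
  have hfac : ∀ z, f c z - a = (z - a') * (z - -a') := by
    intro z
    rw [← ha']
    unfold f
    ring
  obtain ⟨r, hr, hre⟩ := log_glue (u := fun z => (z - a) ^ 2 / (f c z - a)) hWcl.isOpen_compl h.complW (by
    intro A hA hAs
    obtain ⟨δ, hδ, hd⟩ := exists_dist hA hWcl (Set.disjoint_left.2 fun z hz hz' => hAs hz hz')
    obtain ⟨r1, hr1, he1⟩ := log_ratio hWc haW ha'W hδ hd
    obtain ⟨r2, hr2, he2⟩ := log_ratio hWc haW ha''W hδ hd
    refine ⟨fun z => r1 z + r2 z, hr1.add hr2, fun z hz => ?_⟩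
    rw [Complex.exp_add, he1 z hz, he2 z hz, hfac, div_mul_div_comm, sq])
  -- near infinity
  obtain ⟨r0, hr0⟩ := u_near_one c a 1 one_pos
  set ρ : ℝ := max r0 (R0 c) with hρ
  have hfar : ∀ z : ℂ, ρ < ‖z‖ → f c z ∉ Xh := by
    intro z hz hz'
    have h1 := norm_le_of_mem_K (W_sub_K h hz')
    exact absurd (lt_of_le_of_lt (le_max_right _ _) hz) (not_lt.2 h1)
  have hslit : ∀ z : ℂ, ρ < ‖z‖ → (z - a) ^ 2 / (f c z - a) ∈ Complex.slitPlane := by
    intro z hz
    have h1 := hr0 z (le_trans (le_max_left _ _) hz.le)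
    exact Complex.mem_slitPlane_of_norm_lt_one h1 |> fun h => by simpa using h
  have hne : ∀ z : ℂ, f c z ∉ Xh → f c z - a ≠ 0 := by
    intro z hz h0
    apply hz
    rw [sub_eq_zero.1 h0]
    exact h.aX
  have hcontlog : ContinuousOn (fun z => Complex.log ((z - a) ^ 2 / (f c z - a))) {z : ℂ | ρ < ‖z‖} := by
    intro z hz
    apply ContinuousAt.continuousWithinAt
    have h1 : ContinuousAt (fun z => (z - a) ^ 2 / (f c z - a)) z :=
      (Continuous.continuousAt (by fun_prop : Continuous fun z : ℂ => (z - a) ^ 2)).div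
        ((continuous_f c).sub continuous_const).continuousAt (hne z (hfar z hz))
    exact ContinuousAt.clog h1 (hslit z hz)
  have hexplog : ∀ z : ℂ, ρ < ‖z‖ → Complex.exp (Complex.log ((z - a) ^ 2 / (f c z - a))) = (z - a) ^ 2 / (f c z - a) :=
    fun z hz => Complex.exp_log (Complex.slitPlane_ne_zero (hslit z hz))
  set z0 : ℂ := ((|ρ| + 1 : ℝ) : ℂ) with hz0
  have hz0n : ρ < ‖z0‖ := by
    rw [hz0, Complex.norm_real, Real.norm_of_nonneg (by positivity)]
    linarith [le_abs_self ρ]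
  set C : ℂ := r z0 - Complex.log ((z0 - a) ^ 2 / (f c z0 - a)) with hC
  have hCz : ∀ z : ℂ, ρ < ‖z‖ → r z - C = Complex.log ((z - a) ^ 2 / (f c z - a)) := by
    intro z hz
    have h1 := log_unique (isPreconnected_far ρ) (hr.mono fun z hz => hfar z hz) hcontlog
      (fun z hz => by rw [hre z (hfar z hz), hexplog z hz]) (x := z) (y := z0) hz hz0n
    rw [hC, ← h1]
    ring
  have hC1 : Complex.exp C = 1 := by
    rw [hC, Complex.exp_sub, hre z0 (hfar z0 hz0n), hexplog z0 hz0n]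
    apply div_self
    exact Complex.slitPlane_ne_zero (hslit z0 hz0n)
  refine ⟨fun z => r z - C, hr.sub continuousOn_const, fun z hz => ?_, fun ε hε => ?_⟩
  · rw [Complex.exp_sub, hC1, div_one]
    exact hre z hz
  · have h1 : ContinuousAt Complex.log 1 := continuousAt_clog (by simp)
    rw [Metric.continuousAt_iff] at h1
    obtain ⟨δ, hδ, h2⟩ := h1 ε hε
    obtain ⟨r1, hr1⟩ := u_near_one c a δ hδ
    refine ⟨max r1 (ρ + 1), fun z hz => ?_⟩
    have h3 : ρ < ‖z‖ := by linarith [le_max_right r1 (ρ + 1)]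
    show ‖r z - C‖ < ε
    rw [hCz z h3]
    have h4 := h2 (x := (z - a) ^ 2 / (f c z - a)) (by
      rw [dist_eq_norm]
      exact hr1 z (le_trans (le_max_left _ _) hz))
    rwa [Complex.log_one, dist_zero_right] at h4

/-- the imaginary part of a logarithm of `s ^ k * H s` is bounded on `(0,1]` -/
theorem bdd_path {q H : ℝ → ℂ} (k : ℤ) (hq : ContinuousOn q (Ioc 0 1)) (hH : ContinuousOn H (Icc 0 1))
    (hH0 : ∀ s ∈ Icc (0 : ℝ) 1, H s ≠ 0)
    (he : ∀ s ∈ Ioc (0 : ℝ) 1, Complex.exp (q s) = (s : ℂ) ^ k * H s) :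
    ∃ B : ℝ, ∀ s ∈ Ioc (0 : ℝ) 1, |(q s).im| ≤ B := by
  obtain ⟨r, hr, hre⟩ := log_path hH hH0
  obtain ⟨B, hB⟩ := isCompact_Icc.exists_bound_of_continuousOn hr
  have h1 : ContinuousOn (fun s : ℝ => r s + k * Complex.log (s : ℂ)) (Ioc 0 1) := by
    refine (hr.mono Ioc_subset_Icc_self).add (continuousOn_const.mul ?_)
    intro s hs
    apply ContinuousAt.continuousWithinAt
    exact (Complex.continuous_ofReal.continuousAt).clog (Or.inl (by simpa using hs.1))
  have h2 : ∀ s ∈ Ioc (0 : ℝ) 1, Complex.exp (q s) = Complex.exp (r s + k * Complex.log (s : ℂ)) := by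
    intro s hs
    have h0 : (s : ℂ) ≠ 0 := by exact_mod_cast hs.1.ne'
    rw [Complex.exp_add, hre s (Ioc_subset_Icc_self hs), he s hs, Complex.exp_int_mul, Complex.exp_log h0, mul_comm]
  have h3 : (1 : ℝ) ∈ Ioc (0 : ℝ) 1 := ⟨one_pos, le_refl _⟩
  set D : ℂ := q 1 - (r 1 + k * Complex.log ((1 : ℝ) : ℂ)) with hD
  refine ⟨B + ‖D‖, fun s hs => ?_⟩
  have h4 : q s - (r s + k * Complex.log (s : ℂ)) = D := log_unique isPreconnected_Ioc hq h1 h2 hs h3
  have h5 : (q s).im = (r s).im + D.im := by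
    have h6 : (Complex.log (s : ℂ)).im = 0 := by
      rw [Complex.log_im, Complex.arg_ofReal_of_nonneg hs.1.le]
    rw [← h4]
    simp [h6]
  rw [h5]
  refine (abs_add_le _ _).trans (add_le_add ?_ (Complex.abs_im_le_norm _))
  exact (Complex.abs_im_le_norm _).trans (hB s (Ioc_subset_Icc_self hs))

/-- `Q` on the segment -/
theorem bdd_seg (h : Ruler c Xh a v) {Q : ℂ → ℂ} (hQ : ContinuousOn Q (f c ⁻¹' Xh)ᶜ)
    (hQe : ∀ z, f c z ∉ Xh → Complex.exp (Q z) = (z - a) ^ 2 / (f c z - a)) :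
    ∃ B : ℝ, ∀ s ∈ Ioc (0 : ℝ) 1, |(Q (a + s * (v - a))).im| ≤ B := by
  have hva : v - a ≠ 0 := by
    intro h0
    rw [sub_eq_zero] at h0
    exact h.vK (h0 ▸ h.subK h.aX)
  have hc1 : Continuous fun s : ℝ => f c (a + s * (v - a)) - a := by
    unfold f
    fun_prop
  have hne : ∀ s ∈ Icc (0 : ℝ) 1, f c (a + s * (v - a)) - a ≠ 0 := by
    intro s hs h0
    rw [sub_eq_zero] at h0
    rcases hs.1.eq_or_lt with h1 | h1
    · rw [← h1] at h0
      apply h.afix
      simpa using h0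
    · refine h.seg s ⟨h1, hs.2⟩ ?_
      rw [h0]
      exact h.aX
  refine bdd_path (H := fun s : ℝ => (v - a) ^ 2 / (f c (a + s * (v - a)) - a)) 2 ?_ ?_ ?_ ?_
  · refine hQ.comp (Continuous.continuousOn (by fun_prop)) fun s hs => h.seg s hs
  · exact ContinuousOn.div continuousOn_const hc1.continuousOn hne
  · intro s hs
    exact div_ne_zero (pow_ne_zero 2 hva) (hne s hs)
  · intro s hs
    have h1 := hne s ⟨hs.1.le, hs.2⟩
    rw [hQe _ (h.seg s hs)]
    rw [add_sub_cancel_left, mul_pow]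
    norm_cast
    rw [mul_div_assoc]

/-- `Q` on the preimage of the segment -/
theorem bdd_seg' (h : Ruler c Xh a v) {Q : ℂ → ℂ} (hQ : ContinuousOn Q (f c ⁻¹' Xh)ᶜ)
    (hQe : ∀ z, f c z ∉ Xh → Complex.exp (Q z) = (z - a) ^ 2 / (f c z - a)) :
    ∃ B : ℝ, ∀ z : ℂ, ∀ s ∈ Ioc (0 : ℝ) 1, f c z = a + s * (v - a) → |(Q z).im| ≤ B := by
  have hva : v - a ≠ 0 := by
    intro h0
    rw [sub_eq_zero] at h0
    exact h.vK (h0 ▸ h.subK h.aX)
  have hout : ∀ s ∈ Ioc (0 : ℝ) 1, a + s * (v - a) ∉ Xh := fun s hs h1 => h.seg s hs (h.maps _ h1)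
  obtain ⟨l, hl, hle⟩ := log_path (u := fun s : ℝ => a + s * (v - a) - c) (Continuous.continuousOn (by fun_prop)) (by
    intro s hs h0
    rw [sub_eq_zero] at h0
    rcases hs.1.eq_or_lt with h1 | h1
    · rw [← h1] at h0
      apply h.ac
      simpa using h0
    · refine hout s ⟨h1, hs.2⟩ ?_
      rw [h0]
      exact h.cX)
  have hz2 : ∀ s ∈ Icc (0 : ℝ) 1, ∀ σ : ℂ, σ ^ 2 = 1 → f c (σ * Complex.exp (l s / 2)) = a + s * (v - a) := by
    intro s hs σ hσ
    unfold f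
    rw [mul_pow, hσ, ← Complex.exp_nat_mul]
    have h1 : ((2 : ℕ) : ℂ) * (l s / 2) = l s := by
      push_cast
      ring
    rw [h1, hle s hs]
    ring
  have key : ∀ σ : ℂ, σ ^ 2 = 1 → ∃ B : ℝ, ∀ s ∈ Ioc (0 : ℝ) 1, |(Q (σ * Complex.exp (l s / 2))).im| ≤ B := by
    intro σ hσ
    have hc1 : ContinuousOn (fun s : ℝ => σ * Complex.exp (l s / 2)) (Icc 0 1) :=
      continuousOn_const.mul ((hl.div_const 2).cexp)
    have hne : ∀ s ∈ Icc (0 : ℝ) 1, σ * Complex.exp (l s / 2) - a ≠ 0 := by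
      intro s hs h0
      rw [sub_eq_zero] at h0
      have h2 := hz2 s hs σ hσ
      rw [h0] at h2
      rcases hs.1.eq_or_lt with h1 | h1
      · rw [← h1] at h2
        apply h.afix
        simpa using h2
      · exact hout s ⟨h1, hs.2⟩ (h2 ▸ h.maps a h.aX)
    refine bdd_path (H := fun s : ℝ => (σ * Complex.exp (l s / 2) - a) ^ 2 / (v - a)) (-1) ?_ ?_ ?_ ?_
    · refine hQ.comp (hc1.mono Ioc_subset_Icc_self) fun s hs => ?_
      show f c _ ∉ Xh
      rw [hz2 s ⟨hs.1.le, hs.2⟩ σ hσ]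
      exact hout s hs
    · exact ((hc1.sub continuousOn_const).pow 2).div_const _
    · intro s hs
      exact div_ne_zero (pow_ne_zero 2 (hne s hs)) hva
    · intro s hs
      have h0 : (s : ℂ) ≠ 0 := by exact_mod_cast hs.1.ne'
      have h2 := hz2 s ⟨hs.1.le, hs.2⟩ σ hσ
      rw [hQe _ (by rw [h2]; exact hout s hs), h2, add_sub_cancel_left, zpow_neg_one]
      field_simp
  obtain ⟨B1, hB1⟩ := key 1 (by norm_num)
  obtain ⟨B2, hB2⟩ := key (-1) (by norm_num)
  refine ⟨max B1 B2, fun z s hs hz => ?_⟩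
  have h1 : f c z = f c (1 * Complex.exp (l s / 2)) := by
    rw [hz, hz2 s ⟨hs.1.le, hs.2⟩ 1 (by norm_num)]
  rcases f_eq_iff.1 h1 with h2 | h2
  · rw [h2]
    exact (hB1 s hs).trans (le_max_left _ _)
  · have h3 : z = -1 * Complex.exp (l s / 2) := by
      rw [h2]
      ring
    rw [h3]
    exact (hB2 s hs).trans (le_max_right _ _)

/-- the factor `w` is near `1` -/
theorem w_slit (c : ℂ) {r y : ℝ} (hr : 0 ≤ r) (hy : 8 * (2 * r ^ 2 + ‖c‖ + 2 * r) + 2 * r + 1 ≤ y) {z : ℂ} (hz : ‖z‖ < r) :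
    (f c z - y) * (-y) / (z - y) ^ 2 ∈ Complex.slitPlane := by
  have hc0 := norm_nonneg c
  have hy1 : 1 ≤ y := by nlinarith [sq_nonneg r]
  have hyn : ‖(y : ℂ)‖ = y := by
    rw [Complex.norm_real, Real.norm_of_nonneg (by linarith)]
  have hd : y / 2 ≤ ‖z - y‖ := by
    have h1 := norm_sub_norm_le (y : ℂ) z
    rw [hyn, norm_sub_rev] at h1
    nlinarith [sq_nonneg r]
  have hdp : 0 < ‖z - y‖ := by linarith
  have hne : z - y ≠ 0 := norm_pos_iff.1 hdp
  have h1 : (f c z - y) * (-y) / (z - y) ^ 2 - 1 = (2 * z * y - z ^ 2 - y * z ^ 2 - y * c) / (z - y) ^ 2 := by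
    unfold f
    field_simp
    ring
  have h2 : ‖2 * z * y - z ^ 2 - y * z ^ 2 - y * c‖ ≤ 2 * r * y + r ^ 2 + y * r ^ 2 + y * ‖c‖ := by
    have h3 : ‖2 * z * y‖ ≤ 2 * r * y := by
      rw [norm_mul, norm_mul, hyn]
      have : ‖(2 : ℂ)‖ = 2 := by simp
      rw [this]
      nlinarith [norm_nonneg z]
    have h4 : ‖z ^ 2‖ ≤ r ^ 2 := by
      rw [norm_pow]
      nlinarith [norm_nonneg z]
    have h5 : ‖y * z ^ 2‖ ≤ y * r ^ 2 := by
      rw [norm_mul, hyn]
      nlinarith [norm_nonneg (z ^ 2)]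
    have h6 : ‖y * c‖ = y * ‖c‖ := by
      rw [norm_mul, hyn]
    calc ‖2 * z * y - z ^ 2 - y * z ^ 2 - y * c‖ ≤ ‖2 * z * y‖ + ‖z ^ 2‖ + ‖y * z ^ 2‖ + ‖y * c‖ := by
          refine (norm_sub_le _ _).trans ?_
          gcongr
          refine (norm_sub_le _ _).trans ?_
          gcongr
          exact norm_sub_le _ _
      _ ≤ _ := by linarith
  have h3 : ‖(f c z - y) * (-y) / (z - y) ^ 2 - 1‖ < 1 := by
    rw [h1, norm_div, norm_pow, div_lt_one (by positivity)]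
    have h4 : y ^ 2 / 4 ≤ ‖z - y‖ ^ 2 := by nlinarith
    have h5 : 2 * r * y + r ^ 2 + y * r ^ 2 + y * ‖c‖ < y ^ 2 / 4 := by
      have h6 : r ^ 2 ≤ y * r ^ 2 := by nlinarith [sq_nonneg r]
      nlinarith [sq_nonneg r]
    linarith
  have h4 := Complex.mem_slitPlane_of_norm_lt_one h3
  simpa using h4

theorem bound_Q (h : Ruler c Xh a v) {Q : ℂ → ℂ} (hQ : ContinuousOn Q (f c ⁻¹' Xh)ᶜ)
    (hQe : ∀ z, f c z ∉ Xh → Complex.exp (Q z) = (z - a) ^ 2 / (f c z - a))
    (hQi : ∀ ε : ℝ, 0 < ε → ∃ r : ℝ, ∀ z : ℂ, r ≤ ‖z‖ → ‖Q z‖ < ε) :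
    ∃ B : ℝ, ∀ z, f c z ∉ Xh → |(Q z).im| ≤ B := by
  have hWo : IsOpen (f c ⁻¹' Xh)ᶜ := (isClosed_W (c := c) h.comp).isOpen_compl
  have hWK : ∀ z, z ∉ K c → f c z ∉ Xh := fun z hz hz' => hz (W_sub_K h hz')
  -- far away
  obtain ⟨r1, hr1⟩ := hQi 1 one_pos
  set r2 : ℝ := max r1 (R0 c) + 1 with hr2
  have hR0 := R0_pos c
  have hr2p : 0 < r2 := by linarith [le_max_right r1 (R0 c)]
  have hQfar : ∀ z, r2 ≤ ‖z‖ → |(Q z).im| ≤ 1 := fun z hz =>
    (Complex.abs_im_le_norm _).trans (hr1 z (by linarith [le_max_left r1 (R0 c)])).le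
  have hKfar : ∀ z : ℂ, r2 ≤ ‖z‖ → z ∉ K c := fun z hz => not_mem_K_of_lt (by linarith [le_max_right r1 (R0 c)])
  set y : ℝ := 8 * (2 * r2 ^ 2 + ‖c‖ + 2 * r2) + 2 * r2 + 1 with hy
  have hyr : r2 ≤ y := by nlinarith [norm_nonneg c, sq_nonneg r2]
  have hyK : (y : ℂ) ∉ K c := by
    apply hKfar
    rw [Complex.norm_real]
    exact hyr.trans (le_abs_self y)
  obtain ⟨F, P, B, hF, -, hFK, hvF, hyF, hP, hPe, hPB⟩ :=
    good (isClosed_K c).isOpen_compl (isPreconnected_compl_K c) (x := v) (y := (y : ℂ)) h.vK hyK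
  set F0 : Set ℂ := segment ℝ a v ∪ F with hF0d
  have hsegc : IsClosed (segment ℝ a v) := by
    rw [segment_eq_image]
    exact (isCompact_Icc.image (by fun_prop)).isClosed
  have hF0 : IsClosed F0 := hsegc.union hF.isClosed
  have haF0 : a ∈ F0 := Or.inl (left_mem_segment ℝ a v)
  have hvF0 : v ∈ F0 := Or.inr hvF
  have hyF0 : (y : ℂ) ∈ F0 := Or.inr hyF
  have hneF : ∀ {z w : ℂ}, w ∈ F0 → z ∉ F0 → z - w ≠ 0 := fun hw hz h0 => hz (sub_eq_zero.1 h0 ▸ hw)
  -- the logarithm `P0`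
  set P0 : ℂ → ℂ := fun z => Complex.log ((z - a) / (z - v)) + P z with hP0d
  have hP0 : ContinuousOn P0 F0ᶜ :=
    ((good_segment a v).mono (compl_subset_compl.2 subset_union_left)).add
      (hP.mono (compl_subset_compl.2 subset_union_right))
  have hP0e : ∀ z ∉ F0, Complex.exp (P0 z) = (z - a) / (z - y) := by
    intro z hz
    have h1 := hneF haF0 hz
    have h2 := hneF hvF0 hz
    have h3 := hneF hyF0 hz
    rw [hP0d]
    simp only
    rw [Complex.exp_add, Complex.exp_log (div_ne_zero h1 h2), hPe z fun h => hz (Or.inr h)]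
    field_simp
  have hP0B : ∀ z ∉ F0, |(P0 z).im| ≤ Real.pi + B := by
    intro z hz
    rw [hP0d]
    simp only [Complex.add_im]
    refine (abs_add_le _ _).trans (add_le_add ?_ (hPB z fun h => hz (Or.inr h)))
    rw [Complex.log_im]
    exact Complex.abs_arg_le_pi _
  -- the logarithm `Ψ`
  set w : ℂ → ℂ := fun z => (f c z - y) * (-y) / (z - y) ^ 2 with hwd
  have hw : ∀ z : ℂ, ‖z‖ < r2 → w z ∈ Complex.slitPlane := fun z hz => w_slit c hr2p.le (le_refl _) hz
  have hy0 : (y : ℂ) ≠ 0 := by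
    have : 0 < y := by linarith
    exact_mod_cast this.ne'
  set Ψ : ℂ → ℂ := fun z => 2 * P0 z - P0 (f c z) - Complex.log (w z) + Complex.log (-y) with hΨd
  set V : Set ℂ := {z | f c z ∉ Xh ∧ ‖z‖ < r2 ∧ z ∉ F0 ∧ f c z ∉ F0} with hVd
  have hV : IsOpen V := by
    have h1 : IsOpen {z : ℂ | ‖z‖ < r2} := isOpen_lt continuous_norm continuous_const
    have h2 : IsOpen {z : ℂ | f c z ∉ F0} := (hF0.preimage (continuous_f c)).isOpen_compl
    exact hWo.inter (h1.inter (hF0.isOpen_compl.inter h2))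
  have hΨ : ContinuousOn Ψ V := by
    have h1 : ContinuousOn (fun z => P0 (f c z)) V :=
      hP0.comp (continuous_f c).continuousOn fun z hz => hz.2.2.2
    have h2 : ContinuousOn w V := by
      apply ContinuousOn.div
      · have := continuous_f c
        fun_prop
      · fun_prop
      · intro z hz
        exact pow_ne_zero 2 (hneF hyF0 hz.2.2.1)
    have h3 : ContinuousOn (fun z => Complex.log (w z)) V := h2.clog fun z hz => hw z hz.2.1
    exact (((continuousOn_const.mul (hP0.mono fun z hz => hz.2.2.1)).sub h1).sub h3).add continuousOn_const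
  have hΨe : ∀ z ∈ V, Complex.exp (Ψ z) = (z - a) ^ 2 / (f c z - a) := by
    intro z hz
    have h1 := hneF haF0 hz.2.2.1
    have h2 := hneF hyF0 hz.2.2.1
    have h3 := hneF haF0 hz.2.2.2
    have h4 := hneF hyF0 hz.2.2.2
    rw [hΨd]
    simp only
    have h5 : Complex.exp (2 * P0 z) = Complex.exp (P0 z) ^ 2 := by
      rw [← Complex.exp_nat_mul]
      norm_num
    rw [Complex.exp_add, Complex.exp_sub, Complex.exp_sub, h5, Complex.exp_log (neg_ne_zero.2 hy0),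
      Complex.exp_log (Complex.slitPlane_ne_zero (hw z hz.2.1)), hP0e z hz.2.2.1, hP0e _ hz.2.2.2, hwd]
    simp only
    field_simp
  set B1 : ℝ := 3 * (Real.pi + B) + Real.pi + Real.pi with hB1
  have hΨB : ∀ z ∈ V, |(Ψ z).im| ≤ B1 := by
    intro z hz
    have h1 := abs_le.1 (hP0B z hz.2.2.1)
    have h2 := abs_le.1 (hP0B _ hz.2.2.2)
    have h3 := abs_le.1 (Complex.abs_arg_le_pi (w z))
    have h4 := abs_le.1 (Complex.abs_arg_le_pi (-y : ℂ))
    have h5 : (Ψ z).im = 2 * (P0 z).im - (P0 (f c z)).im - Complex.arg (w z) + Complex.arg (-y : ℂ) := by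
      rw [hΨd]
      simp [Complex.log_im]
    rw [h5, hB1, abs_le]
    constructor <;> linarith [h1.1, h1.2, h2.1, h2.2, h3.1, h3.2, h4.1, h4.2]
  -- the bound on the boundary
  obtain ⟨b1, hb1⟩ := hF.exists_bound_of_continuousOn (hQ.mono fun z hz => hWK z (hFK hz))
  have hpre : IsCompact (f c ⁻¹' F) := by
    obtain ⟨M, hM⟩ := hF.isBounded.subset_closedBall 0
    refine (isCompact_closedBall (0 : ℂ) (max (R0 c) M)).of_isClosed_subset (hF.isClosed.preimage (continuous_f c)) ?_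
    intro z hz
    rw [mem_closedBall_zero_iff]
    by_contra hcon
    have h1 : R0 c ≤ ‖z‖ := (le_max_left _ _).trans (not_le.1 hcon).le
    have h2 := norm_f_ge h1
    have h3 := mem_closedBall_zero_iff.1 (hM hz)
    have h4 : M < ‖z‖ := lt_of_le_of_lt (le_max_right _ _) (not_le.1 hcon)
    linarith [norm_nonneg z]
  obtain ⟨b2, hb2⟩ := hpre.exists_bound_of_continuousOn (hQ.mono fun z hz =>
    hWK z fun hK => hFK hz (f_mem_K_iff.2 hK))
  obtain ⟨b3, hb3⟩ := bdd_seg h hQ hQe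
  obtain ⟨b4, hb4⟩ := bdd_seg' h hQ hQe
  set M1 : ℝ := max 1 (max (max b1 b2) (max b3 b4)) with hM1
  have e1 : 1 ≤ M1 := le_max_left _ _
  have e2 : b1 ≤ M1 := (le_max_left _ _).trans ((le_max_left _ _).trans (le_max_right _ _))
  have e3 : b2 ≤ M1 := (le_max_right _ _).trans ((le_max_left _ _).trans (le_max_right _ _))
  have e4 : b3 ≤ M1 := (le_max_left _ _).trans ((le_max_right _ _).trans (le_max_right _ _))
  have e5 : b4 ≤ M1 := (le_max_right _ _).trans ((le_max_right _ _).trans (le_max_right _ _))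
  have hsegp : ∀ z ∈ segment ℝ a v, z ∉ Xh → ∃ s ∈ Ioc (0 : ℝ) 1, z = a + s * (v - a) := by
    intro z hz hzX
    rw [segment_eq_image] at hz
    obtain ⟨s, hs, rfl⟩ := hz
    have h1 : (1 - s) • a + s • v = a + s * (v - a) := by
      rw [Complex.real_smul, Complex.real_smul]
      push_cast
      ring
    refine ⟨s, ⟨lt_of_le_of_ne hs.1 ?_, hs.2⟩, h1⟩
    intro h0
    apply hzX
    show (1 - s) • a + s • v ∈ Xh
    rw [h1, ← h0]
    simpa using h.aX
  have hbd : ∀ z, f c z ∉ Xh → z ∉ V → |(Q z).im| ≤ M1 := by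
    intro z hz hzV
    by_cases h1 : ‖z‖ < r2
    · by_cases h2 : z ∈ F0
      · rcases h2 with h2 | h2
        · obtain ⟨s, hs, rfl⟩ := hsegp z h2 fun h3 => hz (h.maps z h3)
          exact (hb3 s hs).trans e4
        · exact (Complex.abs_im_le_norm _).trans ((hb1 z h2).trans e2)
      · by_cases h3 : f c z ∈ F0
        · rcases h3 with h3 | h3
          · obtain ⟨s, hs, h4⟩ := hsegp _ h3 hz
            exact (hb4 z s hs h4).trans e5
          · exact (Complex.abs_im_le_norm _).trans ((hb2 z h3).trans e3)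
        · exact absurd ⟨hz, h1, h2, h3⟩ hzV
    · exact (hQfar z (not_lt.1 h1)).trans e1
  -- the difference is locally constant
  have hloc : ∀ z ∈ V, ∃ ε : ℝ, 0 < ε ∧ ball z ε ⊆ V ∧ ∀ x ∈ ball z ε, Q x - Ψ x = Q z - Ψ z := by
    intro z hz
    obtain ⟨ε, hε, hs⟩ := Metric.isOpen_iff.1 hV z hz
    refine ⟨ε, hε, hs, fun x hx => ?_⟩
    exact log_unique (convex_ball z ε).isPreconnected (hQ.mono fun t ht => (hs ht).1) (hΨ.mono hs)
      (fun t ht => by rw [hQe t (hs ht).1, hΨe t (hs ht)]) hx (mem_ball_self hε)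
  set M2 : ℝ := M1 + 1 + B1 with hM2
  set A : Set ℂ := {z | z ∈ V ∧ M2 < |(Q z - Ψ z).im|} with hA
  have hAo : IsOpen A := by
    rw [Metric.isOpen_iff]
    rintro z ⟨hz, hz2⟩
    obtain ⟨ε, hε, hs, hc⟩ := hloc z hz
    exact ⟨ε, hε, fun x hx => ⟨hs hx, by rw [hc x hx]; exact hz2⟩⟩
  have hA'o : IsOpen ((f c ⁻¹' Xh)ᶜ \ A) := by
    rw [Metric.isOpen_iff]
    rintro z ⟨hz, hzA⟩
    by_cases hzV : z ∈ V
    · obtain ⟨ε, hε, hs, hc⟩ := hloc z hzV
      refine ⟨ε, hε, fun x hx => ⟨(hs hx).1, fun hxA => hzA ⟨hzV, ?_⟩⟩⟩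
      rw [← hc x hx]
      exact hxA.2
    · have h1 := hbd z hz hzV
      have h2 : ContinuousAt Q z := hQ.continuousAt (hWo.mem_nhds hz)
      obtain ⟨ε, hε, hs⟩ := Metric.continuousAt_iff.1 h2 1 one_pos
      obtain ⟨ε', hε', hs'⟩ := Metric.isOpen_iff.1 hWo z hz
      refine ⟨min ε ε', lt_min hε hε', fun x hx => ⟨hs' (ball_subset_ball (min_le_right _ _) hx), fun hxA => ?_⟩⟩
      have h3 := hs (ball_subset_ball (min_le_left _ _) hx)
      have h4 : |(Q x).im| ≤ M1 + 1 := by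
        have h5 : |(Q x - Q z).im| ≤ 1 := by
          rw [dist_eq_norm] at h3
          exact (Complex.abs_im_le_norm _).trans h3.le
        rw [Complex.sub_im] at h5
        have h6 := abs_le.1 h5
        have h7 := abs_le.1 h1
        rw [abs_le]
        constructor <;> linarith [h6.1, h6.2, h7.1, h7.2]
      have h8 := hΨB x hxA.1
      have h9 : |(Q x - Ψ x).im| ≤ M2 := by
        rw [Complex.sub_im]
        refine (abs_sub _ _).trans ?_
        rw [hM2]
        linarith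
      exact absurd hxA.2 (not_lt.2 h9)
  have hAe : ∀ z ∈ V, |(Q z - Ψ z).im| ≤ M2 := by
    intro z hz
    by_contra hcon
    have hzA : z ∈ A := ⟨hz, not_le.1 hcon⟩
    have hyV : (y : ℂ) ∉ V := by
      intro hyV
      have h1 := hyV.2.1
      rw [Complex.norm_real] at h1
      exact absurd (h1.trans_le (hyr.trans (le_abs_self y))) (lt_irrefl _)
    obtain ⟨x, -, hx1, hx2⟩ := h.complW A ((f c ⁻¹' Xh)ᶜ \ A) hAo hA'o
      (fun x hx => by
        by_cases hxA : x ∈ A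
        · exact Or.inl hxA
        · exact Or.inr ⟨hx, hxA⟩)
      ⟨z, hz.1, hzA⟩ ⟨y, hWK _ hyK, hWK _ hyK, fun hyA => hyV hyA.1⟩
    exact hx2.2 hx1
  refine ⟨max M1 (M2 + B1), fun z hz => ?_⟩
  by_cases hzV : z ∈ V
  · refine le_trans ?_ (le_max_right _ _)
    have h1 := abs_le.1 (hAe z hzV)
    have h2 := abs_le.1 (hΨB z hzV)
    rw [Complex.sub_im] at h1
    rw [abs_le]
    constructor <;> linarith [h1.1, h1.2, h2.1, h2.2]
  · exact (hbd z hz hzV).trans (le_max_left _ _)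

end Pool.Agent.Helper66.QJ
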