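import Pool.Agent.Helper66.QK.Defs

/-!
# Block CHAIN2: chains of inverse branches with a set `L` that only meets the closure of the basin

Proof. `Qc = cthickening δ L` compact, disjoint from `T`. `g 0 = id`; given `g k` continuous on `Qc` with
`(f c)^[k] (g k x) = x`, `exists_sqrt_iter` (file QJ/Branch) gives a continuous square root `r` of `z - c` on
`(f c)^[k]⁻¹ Qc`; put `g (k+1) x = ± r (g k x)`, with the sign such that `g (k+1) x0 = g k q0` (this is a preimage of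
`g k x0`: for `k = 0` because `f q0 = x0`, for `k ≥ 1` because `g k x0 = g (k-1) q0`). This gives a `Chain c L Qc g q` with
`q k = g k q0`. Contraction: as in `contraction` (file QJ/Contract) with `N = thickening δ L` (open, connected): a limit `l` of a
subsequence of `g n` on `N` which is not constant on `L` is not locally constant near any point of the connected open set
`N` (identity theorem), in particular not near a point `x1 ∈ L ∩ Bas c`; the rest of the proof of `contraction` applies to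
`x1`. Then `fixed_limit` goes through: `b` is a limit of `g n x1 ∈ Bas c`.
-/

set_option autoImplicit false

open Set Topology Metric Bornology Filter

namespace Pool.Agent.Helper66.QJ

variable {c : ℂ}

private theorem contraction75 {L Q : Set ℂ} {g : ℕ → ℂ → ℂ} {q : ℕ → ℂ} (h : Chain c L Q g q) {N : Set ℂ} (hN : IsOpen N)
    (hNc : IsPreconnected N) (hNQ : N ⊆ Q) (hLN : L ⊆ N) (hQ : IsCompact Q)
    (hc : ∀ k, (f c)^[k] c ∉ N) (hL : IsCompact L) {x1 : ℂ} (hx1 : x1 ∈ L) (hx1B : x1 ∈ Bas c) {ε : ℝ} (hε : 0 < ε) :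
    ∀ᶠ n in atTop, ∀ x ∈ L, ∀ y ∈ L, ‖g n x - g n y‖ < ε := by
  classical
  by_contra hcon
  rw [not_eventually] at hcon
  obtain ⟨φ, hφ, hφ2⟩ := extraction_of_frequently_atTop hcon
  obtain ⟨M, hM⟩ := hQ.isBounded.exists_norm_le
  have hM0 : 0 ≤ max (R0 c) M := (R0_pos c).le.trans (le_max_left _ _)
  let G : ℕ → ℂ → ℂ := fun j z => if z ∈ N then g (φ j) z else 0
  have hG : ∀ j, ∀ z ∈ N, G j z = g (φ j) z := fun j z hz => if_pos hz
  have hGb : ∀ j z, ‖G j z‖ ≤ max (R0 c) M := by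
    intro j z
    by_cases hz : z ∈ N
    · rw [hG j z hz]
      exact h.bound hM _ (hNQ hz)
    · show ‖if z ∈ N then g (φ j) z else 0‖ ≤ _
      rw [if_neg hz, norm_zero]
      exact hM0
  have hGd : ∀ j, DifferentiableOn ℂ (G j) N := fun j => (h.diff hN hNQ hc (φ j)).congr (hG j)
  obtain ⟨l, k, hk, hl⟩ := Helper39.exists_subseq_tendstoLocallyUniformlyOn hN hGb (fun z hz => by
    obtain ⟨r, hr, hrN⟩ := Metric.isOpen_iff.1 hN z hz
    refine ⟨r / 2, by positivity, 2 * max (R0 c) M / (r / 2), Eventually.of_forall fun j => ?_⟩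
    refine Helper39.lipschitz_of_bounded (by positivity) ((hGd j).mono ?_) fun w _ => hGb j w
    rwa [show 2 * (r / 2) = r by ring])
  have hld : DifferentiableOn ℂ l N := hl.differentiableOn (Eventually.of_forall fun j => hGd (k j)) hN
  have hunif := (tendstoLocallyUniformlyOn_iff_forall_isCompact hN).1 hl
  -- the limit is not locally constant near `x1`
  have hx1f : ∃ᶠ z in 𝓝 x1, l z ≠ l x1 := by
    by_contra hno
    rw [not_frequently] at hno
    have hno' : l =ᶠ[𝓝 x1] fun _ => l x1 := hno.mono fun z hz => not_not.1 hz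
    have hEq : EqOn l (fun _ => l x1) N :=
      (hld.analyticOnNhd hN).eqOn_of_preconnected_of_eventuallyEq analyticOnNhd_const hNc (hLN hx1) hno'
    have hconst : ∀ x ∈ L, ∀ y ∈ L, l x = l y := fun x hx y hy => (hEq (hLN hx)).trans (hEq (hLN hy)).symm
    have h1 := Metric.tendstoUniformlyOn_iff.1 (hunif L hLN hL) (ε / 2) (by positivity)
    obtain ⟨j, hj⟩ := h1.exists
    apply hφ2 (k j)
    intro x hx y hy
    have h2 := hj x hx
    have h3 := hj y hy
    rw [hG _ x (hLN hx), dist_comm, dist_eq_norm] at h2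
    rw [hG _ y (hLN hy), dist_eq_norm] at h3
    calc ‖g (φ (k j)) x - g (φ (k j)) y‖ = ‖(g (φ (k j)) x - l x) + (l y - g (φ (k j)) y)‖ := by
          rw [hconst x hx y hy]
          congr 1
          ring
      _ ≤ ‖g (φ (k j)) x - l x‖ + ‖l y - g (φ (k j)) y‖ := norm_add_le _ _
      _ < ε := by linarith
  have hx1N : x1 ∈ N := hLN hx1
  have han : AnalyticAt ℂ l x1 := hld.analyticAt (hN.mem_nhds hx1N)
  have hiso : ∀ᶠ z in 𝓝[≠] x1, l z ≠ l x1 := by
    rcases han.eventually_eq_or_eventually_ne (g := fun _ => l x1) analyticAt_const with h1 | h1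
    · exact absurd hx1f (by
        rw [not_frequently]
        filter_upwards [h1] with z hz
        exact not_not.2 hz)
    · exact h1
  obtain ⟨r1, hr1, hr1N⟩ := Metric.isOpen_iff.1 hN x1 hx1N
  obtain ⟨r2, hr2, hr2l⟩ := Metric.mem_nhdsWithin_iff.1 hiso
  obtain ⟨r, hr, hrr1, hrr2⟩ : ∃ r : ℝ, 0 < r ∧ r < r1 ∧ r < r2 :=
    ⟨min r1 r2 / 2, by positivity, by linarith [min_le_left r1 r2, lt_min hr1 hr2], by
      linarith [min_le_right r1 r2, lt_min hr1 hr2]⟩
  have hcb : closedBall x1 r ⊆ N := (closedBall_subset_ball hrr1).trans hr1N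
  have hsph : ∀ z ∈ sphere x1 r, l z ≠ l x1 := fun z hz => hr2l
    ⟨mem_ball.2 ((mem_sphere.1 hz).trans_lt hrr2), fun h => by
      rw [mem_singleton_iff.1 h, mem_sphere, dist_self] at hz
      exact hr.ne hz⟩
  obtain ⟨m, hm, hml⟩ : ∃ m : ℝ, 0 < m ∧ ∀ z ∈ sphere x1 r, m ≤ ‖l z - l x1‖ := by
    have hcont : ContinuousOn (fun z => ‖l z - l x1‖) (sphere x1 r) :=
      ((hld.continuousOn.mono (sphere_subset_closedBall.trans hcb)).sub continuousOn_const).norm
    obtain ⟨z0, hz0, hmin⟩ := (isCompact_sphere x1 r).exists_isMinOn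
      (NormedSpace.sphere_nonempty.2 hr.le) hcont
    exact ⟨‖l z0 - l x1‖, norm_pos_iff.2 (sub_ne_zero.2 (hsph z0 hz0)), fun z hz => hmin hz⟩
  have hu := Metric.tendstoUniformlyOn_iff.1 (hunif _ hcb (isCompact_closedBall x1 r)) (m / 8) (by positivity)
  have hlB : l x1 ∈ Bas c := by
    refine isClosed_closure.mem_of_tendsto ((hunif _ hcb (isCompact_closedBall x1 r)).tendsto_at
      (mem_closedBall_self hr.le)) (Eventually.of_forall fun j => ?_)
    rw [hG _ x1 hx1N]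
    exact (h.mem_Bas _ (hNQ hx1N)).2 hx1B
  obtain ⟨a, ha, hal⟩ := Metric.mem_closure_iff.1 hlB (m / 8) (by positivity)
  obtain ⟨N0, hN0⟩ := escape (c := c) ha M
  have hN0' := hN0.self_of_nhds
  have hlarge : ∀ᶠ j in atTop, N0 ≤ φ (k j) := (hφ.comp hk).tendsto_atTop.eventually_ge_atTop N0
  obtain ⟨j, hj, hjN⟩ := (hu.and hlarge).exists
  have hx1c : dist (l x1) (G (k j) x1) < m / 8 := hj x1 (mem_closedBall_self hr.le)
  have hsub : ball (G (k j) x1) (m / 2 / 2) ⊆ G (k j) '' closedBall x1 r := by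
    refine DiffContOnCl.ball_subset_image_closedBall ((hGd (k j)).diffContOnCl_ball hcb) hr (fun z hz => ?_) ?_
    · have h1 := hml z hz
      have h2 := hj z (sphere_subset_closedBall hz)
      rw [dist_eq_norm] at h2
      rw [dist_comm, dist_eq_norm] at hx1c
      have h3 : ‖l z - l x1‖ ≤ ‖l z - G (k j) z‖ + ‖G (k j) z - G (k j) x1‖ + ‖G (k j) x1 - l x1‖ := by
        have : l z - l x1 = (l z - G (k j) z) + (G (k j) z - G (k j) x1) + (G (k j) x1 - l x1) := by ring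
        rw [this]
        exact norm_add₃_le
      linarith
    · have h1 : ∃ᶠ z in 𝓝 x1, z ≠ x1 := by
        have : (𝓝[≠] x1).NeBot := inferInstance
        exact frequently_mem_iff_neBot.2 this
      have h2 : ∀ᶠ z in 𝓝 x1, z ∈ N := hN.mem_nhds hx1N
      refine (h1.and_eventually h2).mono fun z hz => ?_
      rw [hG _ z hz.2, hG _ x1 hx1N]
      exact fun h3 => hz.1 (h.inj _ (hNQ hz.2) (hNQ hx1N) h3)
  obtain ⟨y, hy, hya⟩ := hsub (show a ∈ ball (G (k j) x1) (m / 2 / 2) by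
    rw [mem_ball]
    calc dist a (G (k j) x1) ≤ dist a (l x1) + dist (l x1) (G (k j) x1) := dist_triangle _ _ _
      _ < m / 8 + m / 8 := by
          rw [dist_comm] at hal
          exact add_lt_add hal hx1c
      _ = m / 2 / 2 := by ring)
  have hyN : y ∈ N := hcb hy
  rw [hG _ y hyN] at hya
  have h1 := h.iter (φ (k j)) (hNQ hyN)
  rw [hya] at h1
  have h2 := hN0' _ hjN
  rw [h1] at h2
  exact absurd (hM y (hNQ hyN)) (not_le.2 h2)

private theorem fixed_limit75 {L Q : Set ℂ} {g : ℕ → ℂ → ℂ} {q : ℕ → ℂ} (h : Chain c L Q g q)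
    (hLQ : L ⊆ Q) {x1 : ℂ} (hx1 : x1 ∈ L) (hx1B : x1 ∈ Bas c)
    (hcon : ∀ {ε : ℝ}, 0 < ε → ∀ᶠ n in atTop, ∀ x ∈ L, ∀ y ∈ L, ‖g n x - g n y‖ < ε) :
    ∃ b, f c b = b ∧ b ∈ J c ∧ ∀ ε : ℝ, 0 < ε → ∀ᶠ n in atTop, ∀ x ∈ L, ‖g n x - b‖ < ε := by
  have hstep : ∀ {ε : ℝ}, 0 < ε → ∀ᶠ n in atTop, ‖q (n + 1) - q n‖ < ε := by
    intro ε hε
    have h1 := (tendsto_add_atTop_nat 1).eventually (hcon hε)
    filter_upwards [h1] with n hn
    obtain ⟨x, hx, hxq⟩ := h.mem (n + 1)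
    obtain ⟨y, hy, hyq⟩ := h.mem' n
    rw [← hxq, ← hyq]
    exact hn x hx y hy
  -- the fixed points
  obtain ⟨s, hs⟩ := IsAlgClosed.exists_pow_nat_eq (1 - 4 * c) (n := 2) (by norm_num)
  obtain ⟨b1, b2, hb1, hb2, hfac⟩ : ∃ b1 b2 : ℂ, f c b1 = b1 ∧ f c b2 = b2 ∧ ∀ z, f c z - z = (z - b1) * (z - b2) := by
    refine ⟨(1 + s) / 2, (1 - s) / 2, ?_, ?_, fun z => ?_⟩
    · rw [f]
      linear_combination (1 / 4 : ℂ) * hs
    · rw [f]
      linear_combination (1 / 4 : ℂ) * hs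
    · rw [f]
      linear_combination (1 / 4 : ℂ) * hs
  have hprod : ∀ {ε : ℝ}, 0 < ε → ∀ᶠ n in atTop, ‖q n - b1‖ * ‖q n - b2‖ < ε := by
    intro ε hε
    obtain ⟨n0, hn0⟩ := eventually_atTop.1 (hstep hε)
    rw [eventually_atTop]
    refine ⟨n0 + 1, fun n hn => ?_⟩
    obtain ⟨m, rfl⟩ : ∃ m, n = m + 1 := ⟨n - 1, by omega⟩
    have h1 := hn0 m (by omega)
    rw [← norm_mul, ← hfac, h.fq, norm_sub_rev]
    exact h1
  have hqlim : ∃ b, f c b = b ∧ ∀ ε : ℝ, 0 < ε → ∀ᶠ n in atTop, ‖q n - b‖ < ε := by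
    by_cases hb : b1 = b2
    · refine ⟨b1, hb1, fun ε hε => ?_⟩
      filter_upwards [hprod (ε := ε ^ 2) (by positivity)] with n hn
      rw [← hb, ← sq] at hn
      exact lt_of_pow_lt_pow_left₀ 2 hε.le hn
    · have hd : 0 < ‖b1 - b2‖ := norm_pos_iff.2 (sub_ne_zero.2 hb)
      obtain ⟨d, hd0⟩ : ∃ d, d = ‖b1 - b2‖ := ⟨_, rfl⟩
      rw [← hd0] at hd
      obtain ⟨n0, hn0⟩ := eventually_atTop.1 ((hprod (ε := (d / 4) * (d / 4)) (by positivity)).and
        (hstep (ε := d / 4) (by positivity)))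
      have hor : ∀ n, n0 ≤ n → ‖q n - b1‖ < d / 4 ∨ ‖q n - b2‖ < d / 4 := by
        intro n hn
        by_contra hcon2
        push Not at hcon2
        have h1 := (hn0 n hn).1
        have h2 := mul_le_mul hcon2.1 hcon2.2 (by positivity) (norm_nonneg _)
        linarith
      -- staying near one of the two fixed points
      have hstay : ∀ a b : ℂ, ‖a - b‖ = d → (∀ n, n0 ≤ n → ‖q n - a‖ < d / 4 ∨ ‖q n - b‖ < d / 4) →
          ‖q n0 - a‖ < d / 4 → ∀ n, n0 ≤ n → ‖q n - a‖ < d / 4 := by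
        intro a b hab hor ha n hn
        induction n, hn using Nat.le_induction with
        | base => exact ha
        | succ n hn ih =>
          rcases hor (n + 1) (by omega) with h1 | h1
          · exact h1
          · exfalso
            have h2 := (hn0 n hn).2
            have h3 : ‖a - b‖ ≤ ‖q n - a‖ + ‖q (n + 1) - q n‖ + ‖q (n + 1) - b‖ := by
              have : a - b = -(q n - a) + -(q (n + 1) - q n) + (q (n + 1) - b) := by ring
              rw [this]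
              refine norm_add₃_le.trans ?_
              rw [norm_neg, norm_neg]
            rw [hab] at h3
            linarith
      have hlim : ∀ a b : ℂ, ‖a - b‖ = d → (∀ {ε : ℝ}, 0 < ε → ∀ᶠ n in atTop, ‖q n - a‖ * ‖q n - b‖ < ε) →
          (∀ n, n0 ≤ n → ‖q n - a‖ < d / 4) → ∀ ε : ℝ, 0 < ε → ∀ᶠ n in atTop, ‖q n - a‖ < ε := by
        intro a b hab hpr hst ε hε
        filter_upwards [hpr (ε := ε * (d / 2)) (by positivity), eventually_ge_atTop n0] with n hn hnn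
        have h1 := hst n hnn
        have h2 : ‖a - b‖ ≤ ‖q n - a‖ + ‖q n - b‖ := by
          have : a - b = -(q n - a) + (q n - b) := by ring
          rw [this]
          refine (norm_add_le _ _).trans ?_
          rw [norm_neg]
        rw [hab] at h2
        by_contra hcon3
        push Not at hcon3
        have h3 : d / 2 ≤ ‖q n - b‖ := by linarith
        have h4 := mul_le_mul hcon3 h3 (by positivity) (norm_nonneg _)
        linarith
      rcases hor n0 le_rfl with h1 | h1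
      · exact ⟨b1, hb1, hlim b1 b2 hd0.symm hprod (hstay b1 b2 hd0.symm hor h1)⟩
      · have hab : ‖b2 - b1‖ = d := by rw [norm_sub_rev, hd0]
        refine ⟨b2, hb2, hlim b2 b1 hab (fun hε => ?_) (hstay b2 b1 hab (fun n hn => (hor n hn).symm) h1)⟩
        filter_upwards [hprod hε] with n hn
        rwa [mul_comm]
  obtain ⟨b, hfb, hb⟩ := hqlim
  have hall : ∀ ε : ℝ, 0 < ε → ∀ᶠ n in atTop, ∀ x ∈ L, ‖g n x - b‖ < ε := by
    intro ε hε
    filter_upwards [hb (ε / 2) (by positivity), hcon (ε := ε / 2) (by positivity)] with n h1 h2 x hx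
    obtain ⟨y, hy, hyq⟩ := h.mem n
    have h3 := h2 x hx y hy
    rw [hyq] at h3
    calc ‖g n x - b‖ = ‖(g n x - q n) + (q n - b)‖ := by
          congr 1
          ring
      _ ≤ ‖g n x - q n‖ + ‖q n - b‖ := norm_add_le _ _
      _ < ε := by linarith
  refine ⟨b, hfb, ?_, hall⟩
  rw [mem_J_iff]
  constructor
  · show IsBounded (range fun n : ℕ => (f c)^[n] b)
    have h1 : (range fun n : ℕ => (f c)^[n] b) ⊆ {b} := by
      rintro _ ⟨n, rfl⟩
      exact Function.iterate_fixed hfb n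
    exact isBounded_singleton.subset h1
  · have ht : Tendsto (fun n => g n x1) atTop (𝓝 b) := by
      rw [Metric.tendsto_nhds]
      intro ε hε
      filter_upwards [hall ε hε] with n hn
      rw [dist_eq_norm]
      exact hn x1 hx1
    exact isClosed_closure.mem_of_tendsto ht (Eventually.of_forall fun n => (h.mem_Bas n (hLQ hx1)).2 hx1B)

/-- the state of the chain construction -/
private def St75 (c : ℂ) (Q : Set ℂ) (x0 q0 : ℂ) (k : ℕ) (p : (ℂ → ℂ) × (ℂ → ℂ)) : Prop :=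
  ContinuousOn p.1 Q ∧ ContinuousOn p.2 Q ∧ (∀ x ∈ Q, (f c)^[k + 1] (p.2 x) = x) ∧
    (∀ x ∈ Q, f c (p.2 x) = p.1 x) ∧ p.2 x0 = p.1 q0

private theorem step75 {T Q : Set ℂ} (hT : IsClosed T) (hTc : IsPreconnected T) (hTu : ¬ IsBounded T)
    (hcT : ∀ k, (f c)^[k] c ∈ T) (hQ : IsCompact Q) (hd : Disjoint Q T) {x0 q0 : ℂ} (hx0 : x0 ∈ Q) (hq0 : q0 ∈ Q) (k : ℕ)
    (p : (ℂ → ℂ) × (ℂ → ℂ)) (hp : St75 c Q x0 q0 k p) :
    ∃ p' : (ℂ → ℂ) × (ℂ → ℂ), St75 c Q x0 q0 (k + 1) p' ∧ p'.1 = p.2 := by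
  obtain ⟨g, g'⟩ := p
  obtain ⟨hg, hg', hi, hfg, hx⟩ := hp
  simp only at hg hg' hi hfg hx
  obtain ⟨r, hr, hr'⟩ := exists_sqrt_iter hT hTc hTu hcT hQ hd (k + 1)
  have hmaps : MapsTo g' Q ((f c)^[k + 1] ⁻¹' Q) := fun x hx => by
    show (f c)^[k + 1] (g' x) ∈ Q
    rw [hi x hx]
    exact hx
  have hsq : f c (g' q0) = f c (r (g' x0)) := by
    rw [hfg q0 hq0, hr' _ (hmaps hx0), hx]
  obtain ⟨s, hs, hs2⟩ : ∃ s : ℂ, s ^ 2 = 1 ∧ g' q0 = s * r (g' x0) := by
    rcases f_eq_iff.1 hsq with h | h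
    · exact ⟨1, by norm_num, by rw [h, one_mul]⟩
    · exact ⟨-1, by norm_num, by rw [h]; ring⟩
  have hfs : ∀ w, f c (s * w) = f c w := by
    intro w
    rw [f, f, mul_pow, hs, one_mul]
  refine ⟨(g', fun x => s * r (g' x)), ⟨hg', continuousOn_const.mul (hr.comp hg' hmaps), fun x hx => ?_,
    fun x hx => ?_, hs2.symm⟩, rfl⟩
  · show (f c)^[k + 1 + 1] (s * r (g' x)) = x
    rw [Function.iterate_succ_apply, hfs, hr' _ (hmaps hx), hi x hx]
  · show f c (s * r (g' x)) = g' x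
    rw [hfs, hr' _ (hmaps hx)]

private theorem exists_chain75 {T L Q : Set ℂ} (hT : IsClosed T) (hTc : IsPreconnected T) (hTu : ¬ IsBounded T)
    (hcT : ∀ k, (f c)^[k] c ∈ T) (hQ : IsCompact Q) (hd : Disjoint Q T) (hLQ : L ⊆ Q) {x0 q0 : ℂ} (hx0 : x0 ∈ L)
    (hq0 : q0 ∈ L) (hfq : f c q0 = x0) :
    ∃ g : ℕ → ℂ → ℂ, Chain c L Q g (fun k => g k q0) ∧ ∀ k, g (k + 1) x0 = g k q0 := by
  classical
  obtain ⟨p0, hp0, hp01⟩ : ∃ p : (ℂ → ℂ) × (ℂ → ℂ), St75 c Q x0 q0 0 p ∧ p.1 = id := by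
    obtain ⟨r, hr, hr'⟩ := exists_sqrt_iter hT hTc hTu hcT hQ hd 0
    simp only [Function.iterate_zero, preimage_id] at hr hr'
    have hsq : f c q0 = f c (r x0) := by rw [hfq, hr' x0 (hLQ hx0)]
    obtain ⟨s, hs, hs2⟩ : ∃ s : ℂ, s ^ 2 = 1 ∧ q0 = s * r x0 := by
      rcases f_eq_iff.1 hsq with h | h
      · exact ⟨1, by norm_num, by rw [h, one_mul]⟩
      · exact ⟨-1, by norm_num, by rw [h]; ring⟩
    have hfs : ∀ w, f c (s * w) = f c w := by
      intro w
      rw [f, f, mul_pow, hs, one_mul]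
    refine ⟨(id, fun x => s * r x), ⟨continuousOn_id, continuousOn_const.mul hr, fun x hx => ?_, fun x hx => ?_,
      hs2.symm⟩, rfl⟩
    · show f c (s * r x) = x
      rw [hfs, hr' x hx]
    · show f c (s * r x) = x
      rw [hfs, hr' x hx]
  let F : (k : ℕ) → {p : (ℂ → ℂ) × (ℂ → ℂ) // St75 c Q x0 q0 k p} := fun k =>
    Nat.rec (motive := fun k => {p : (ℂ → ℂ) × (ℂ → ℂ) // St75 c Q x0 q0 k p}) ⟨p0, hp0⟩
      (fun k s => ⟨(step75 hT hTc hTu hcT hQ hd (hLQ hx0) (hLQ hq0) k s.1 s.2).choose,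
        (step75 hT hTc hTu hcT hQ hd (hLQ hx0) (hLQ hq0) k s.1 s.2).choose_spec.1⟩) k
  have hF : ∀ k, (F (k + 1)).1.1 = (F k).1.2 := fun k =>
    (step75 hT hTc hTu hcT hQ hd (hLQ hx0) (hLQ hq0) k (F k).1 (F k).2).choose_spec.2
  have hmain : ∀ k, (F (k + 1)).1.1 x0 = (F k).1.1 q0 := by
    intro k
    rw [hF k]
    exact (F k).2.2.2.2.2
  have hinv : ∀ k, ∀ x ∈ Q, f c ((F (k + 1)).1.1 x) = (F k).1.1 x := by
    intro k x hx
    rw [hF k]
    exact (F k).2.2.2.2.1 x hx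
  refine ⟨fun k => (F k).1.1, ⟨fun x => ?_, fun k => (F k).2.1, hinv, fun k => ⟨q0, hq0, rfl⟩,
    fun k => ⟨x0, hx0, hmain k⟩, fun k => hinv k q0 (hLQ hq0)⟩, hmain⟩
  show p0.1 x = x
  rw [hp01]
  rfl

private theorem thick_conn75 {L : Set ℂ} (hLc : IsPreconnected L) {x0 : ℂ} (hx0 : x0 ∈ L) {δ : ℝ} (hδ : 0 < δ) :
    IsPreconnected (thickening δ L) := by
  refine isPreconnected_of_forall x0 fun y hy => ?_
  obtain ⟨x, hx, hxy⟩ := mem_thickening_iff.1 hy
  refine ⟨L ∪ ball x δ, ?_, Or.inl hx0, Or.inr (mem_ball.2 hxy), ?_⟩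
  · rintro z (hz | hz)
    · exact self_subset_thickening hδ L hz
    · exact mem_thickening_iff.2 ⟨x, hx, mem_ball.1 hz⟩
  · exact IsPreconnected.union x hx (mem_ball_self hδ) hLc (convex_ball x δ).isPreconnected

theorem chain2 {T L : Set ℂ} (hT : IsClosed T) (hTc : IsPreconnected T) (hTu : ¬ IsBounded T)
    (hcT : ∀ k, (f c)^[k] c ∈ T) (hL : IsCompact L) (hLc : IsPreconnected L) (hLB : (L ∩ Bas c).Nonempty)
    (hd : Disjoint L T) {x0 q0 : ℂ} (hx0 : x0 ∈ L) (hq0 : q0 ∈ L) (hfq : f c q0 = x0) :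
    ∃ (g : ℕ → ℂ → ℂ) (b : ℂ), (∀ z ∈ L, g 0 z = z) ∧ (∀ k, ContinuousOn (g k) L) ∧
      (∀ k, ∀ z ∈ L, f c (g (k + 1) z) = g k z) ∧ (∀ k, g (k + 1) x0 = g k q0) ∧ f c b = b ∧ b ∈ J c ∧
      ∀ ε : ℝ, 0 < ε → ∀ᶠ n in atTop, ∀ x ∈ L, ‖g n x - b‖ < ε := by
  obtain ⟨x1, hx1, hx1B⟩ := hLB
  obtain ⟨δ, hδ, hdis⟩ := hd.exists_cthickenings hL hT
  have hdT : Disjoint (cthickening δ L) T := hdis.mono_right (self_subset_cthickening T)
  have hQ : IsCompact (cthickening δ L) := hL.cthickening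
  have hNQ : thickening δ L ⊆ cthickening δ L := thickening_subset_cthickening δ L
  have hLN : L ⊆ thickening δ L := self_subset_thickening hδ L
  have hc : ∀ k, (f c)^[k] c ∉ thickening δ L := fun k hk =>
    Set.disjoint_left.1 hdT (hNQ hk) (hcT k)
  obtain ⟨g, hg, hgx⟩ := exists_chain75 hT hTc hTu hcT hQ hdT (hLN.trans hNQ) hx0 hq0 hfq
  obtain ⟨b, hb, hbJ, hlim⟩ := fixed_limit75 hg (hLN.trans hNQ) hx1 hx1B
    (fun hε => contraction75 hg isOpen_thickening (thick_conn75 hLc hx0 hδ) hNQ hLN hQ hc hL hx1 hx1B hε)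
  exact ⟨g, b, fun z _ => hg.zero z, fun k => (hg.cont k).mono (hLN.trans hNQ),
    fun k z hz => hg.inv k z (hNQ (hLN hz)), hgx, hb, hbJ, hlim⟩

end Pool.Agent.Helper66.QJ
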