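import Pool.Agent.Helper66.QK.Both

/-!
# Block CUT: symmetric continua which avoid a ball

Proof. Suppose `¬ Dec (J c)`. `both_sides` gives `n` and `θ, θ' ∈ [0,1/2]` with `C n θ` and `-C n θ'` in `ball x δ`. Take
`G` for `m = n` and `G' = G ∪ R ∪ -R`: closed, connected (`b ∈ G ∩ R`, `-b ∈ G ∩ -R`), unbounded, symmetric, `0 ∈ G'`. As
`C n 0 ∈ R` and `C n (1/2) = - C n 0 ∈ -R`, and `ball x δ` is disjoint from `G'`, both `θ` and `θ'` are in `(0,1/2)`. The sets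
`C n '' Ioo 0 (1/2)`, its negative and the ball are connected, disjoint from `G'` (`Ext.disj`, `Ext.out`), so their union is
connected and in the complement of `G'`; it contains `C n (1/4)` and `- C n (1/4)`. This contradicts `no_sym`.
-/

set_option autoImplicit false

open Set Topology Metric Bornology Filter

namespace Pool.Agent.Helper66.QJ

variable {c b : ℂ} {R : Set ℂ} {C : ℕ → ℝ → ℂ}

theorem dec_of_cut (h : Ext c b R C) {x : ℂ} (hx : x ∈ J c) {δ : ℝ} (hδ : 0 < δ)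
    (hxR : ∀ z ∈ ball x δ, z ∉ R ∧ -z ∉ R)
    (hG : ∀ m : ℕ, ∃ G : Set ℂ, IsClosed G ∧ IsPreconnected G ∧ (0 : ℂ) ∈ G ∧ b ∈ G ∧ (∀ z ∈ G, -z ∈ G) ∧ G ⊆ Bn c m ∧
      Disjoint (ball x δ) G) : Dec (J c) := by
  by_contra hnd
  obtain ⟨n, -, ⟨θ, hθ, hθd⟩, θ', hθ', hθ'd⟩ := both_sides h hnd hx hδ 0
  obtain ⟨G, hGcl, hGc, h0G, hbG, hGs, hGB, hGd⟩ := hG n
  have hmem : ∀ z : ℂ, ‖z - x‖ < δ → z ∈ ball x δ := fun z hz => by
    rwa [mem_ball, dist_eq_norm]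
  have hhalf : C n (1 / 2) = -C n 0 := by
    have := h.half n 0
    rwa [zero_add] at this
  -- the parameters are inside
  have hθi : θ ∈ Ioo (0 : ℝ) (1 / 2) := by
    refine ⟨lt_of_le_of_ne hθ.1 ?_, lt_of_le_of_ne hθ.2 ?_⟩
    · rintro rfl
      exact (hxR _ (hmem _ hθd)).1 (h.zeroR n)
    · rintro rfl
      refine (hxR _ (hmem _ hθd)).2 ?_
      rw [hhalf, neg_neg]
      exact h.zeroR n
  have hθ'i : θ' ∈ Ioo (0 : ℝ) (1 / 2) := by
    refine ⟨lt_of_le_of_ne hθ'.1 ?_, lt_of_le_of_ne hθ'.2 ?_⟩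
    · rintro rfl
      refine (hxR _ (hmem _ hθ'd)).2 ?_
      rw [neg_neg]
      exact h.zeroR n
    · rintro rfl
      refine (hxR _ (hmem _ hθ'd)).1 ?_
      rw [hhalf, neg_neg]
      exact h.zeroR n
  -- the barrier
  set R' : Set ℂ := (fun z : ℂ => -z) '' R with hR'
  have hR'm : ∀ z : ℂ, z ∈ R' ↔ -z ∈ R := by
    intro z
    constructor
    · rintro ⟨w, hw, rfl⟩
      simpa using hw
    · intro hz
      exact ⟨-z, hz, by simp⟩
  have hR'cl : IsClosed R' := by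
    have : R' = (fun z : ℂ => -z) ⁻¹' R := by
      ext z
      rw [hR'm z]
      rfl
    rw [this]
    exact h.clR.preimage continuous_neg
  have hR'c : IsPreconnected R' := h.connR.image _ continuous_neg.continuousOn
  have hcl : IsClosed (G ∪ R ∪ R') := (hGcl.union h.clR).union hR'cl
  have hconn : IsPreconnected (G ∪ R ∪ R') := by
    refine IsPreconnected.union (-b) (Or.inl (hGs b hbG)) ((hR'm _).2 (by rw [neg_neg]; exact h.bR)) ?_ hR'c
    exact IsPreconnected.union b hbG h.bR hGc h.connR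
  have hunb : ¬ IsBounded (G ∪ R ∪ R') := fun hb =>
    h.unbR (hb.subset (fun z hz => Or.inl (Or.inr hz)))
  have hsym : ∀ z ∈ G ∪ R ∪ R', -z ∈ G ∪ R ∪ R' := by
    rintro z ((hz | hz) | hz)
    · exact Or.inl (Or.inl (hGs z hz))
    · exact Or.inr ((hR'm _).2 (by rwa [neg_neg]))
    · exact Or.inl (Or.inr ((hR'm z).1 hz))
  have hCG : ∀ t, C n t ∉ G := fun t ht => h.out n t (hGB ht)
  have hout1 : ∀ t ∈ Ioo (0 : ℝ) (1 / 2), C n t ∉ G ∪ R ∪ R' := by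
    rintro t ht ((hz | hz) | hz)
    · exact hCG t hz
    · exact (h.disj n t ht).1 hz
    · exact (h.disj n t ht).2 ((hR'm _).1 hz)
  have hout2 : ∀ t ∈ Ioo (0 : ℝ) (1 / 2), -C n t ∉ G ∪ R ∪ R' := by
    intro t ht hz
    have := hsym _ hz
    rw [neg_neg] at this
    exact hout1 t ht this
  have hout3 : ∀ z ∈ ball x δ, z ∉ G ∪ R ∪ R' := by
    rintro z hz ((hz' | hz') | hz')
    · exact Set.disjoint_left.1 hGd hz hz'
    · exact (hxR z hz).1 hz'
    · exact (hxR z hz).2 ((hR'm _).1 hz')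
  -- the connected set
  have hS1 : IsPreconnected (C n '' Ioo (0 : ℝ) (1 / 2)) := isPreconnected_Ioo.image _ (h.cont n).continuousOn
  have hS2 : IsPreconnected ((fun t => -C n t) '' Ioo (0 : ℝ) (1 / 2)) :=
    isPreconnected_Ioo.image _ (h.cont n).neg.continuousOn
  have hB : IsPreconnected (ball x δ) := (convex_ball x δ).isPreconnected
  have hS : IsPreconnected (C n '' Ioo (0 : ℝ) (1 / 2) ∪ ball x δ ∪ (fun t => -C n t) '' Ioo (0 : ℝ) (1 / 2)) := by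
    refine IsPreconnected.union (-C n θ') (Or.inr (hmem _ hθ'd)) ⟨θ', hθ'i, rfl⟩ ?_ hS2
    exact IsPreconnected.union (C n θ) ⟨θ, hθi, rfl⟩ (hmem _ hθd) hS1 hB
  have hsub : C n '' Ioo (0 : ℝ) (1 / 2) ∪ ball x δ ∪ (fun t => -C n t) '' Ioo (0 : ℝ) (1 / 2) ⊆ (G ∪ R ∪ R')ᶜ := by
    rintro z ((⟨t, ht, rfl⟩ | hz) | ⟨t, ht, rfl⟩)
    · exact hout1 t ht
    · exact hout3 z hz
    · exact hout2 t ht
  have h4 : (1 / 4 : ℝ) ∈ Ioo (0 : ℝ) (1 / 2) := by constructor <;> norm_num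
  have hy : C n (1 / 4) ∉ G ∪ R ∪ R' := hout1 _ h4
  exact no_sym hcl hconn hunb (Or.inl (Or.inl h0G)) hsym hy
    (hS.subset_connectedComponentIn (Or.inl (Or.inl ⟨1 / 4, h4, rfl⟩)) hsub (Or.inr ⟨1 / 4, h4, rfl⟩))

end Pool.Agent.Helper66.QJ
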