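import Pool.Agent.Helper66.QJ.Sep

/-!
# Block LOGS: continuous logarithms

`log_ratio`: as `sqrt_ratio` (file QJ/Sep) with `Complex.log ((z - x) / (z - y))` for close `x`, `y` and sums instead of
products. `log_path`: a continuous nonvanishing function on `[0,1]` has a continuous logarithm (e.g. via the lifting of paths
for `Complex.exp`, or by subdivision). `log_glue`: for `z ∈ Ω` take a compact connected subset of `Ω` containing `z` and the
base point `z0` (a path) and the logarithm on it which has the prescribed value at `z0`; its value at `z` does not depend on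
the choice (union of two such sets, two logarithms of the same function on a connected set differ by a constant), and near
`z` one can use one set (add a small closed ball).
-/

set_option autoImplicit false

open Set Topology Metric Bornology Filter

namespace Pool.Agent.Helper66.QJ

/-- logarithms of `(z - a) / (z - b)` outside a connected set containing `a` and `b` -/
theorem log_ratio {T Q : Set ℂ} (hTc : IsPreconnected T) {a b : ℂ} (ha : a ∈ T) (hb : b ∈ T) {δ : ℝ} (hδ : 0 < δ)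
    (hd : ∀ z ∈ Q, ∀ t ∈ T, δ < ‖z - t‖) :
    ∃ r : ℂ → ℂ, ContinuousOn r Q ∧ ∀ z ∈ Q, Complex.exp (r z) = (z - a) / (z - b) := by
  have hne : ∀ z ∈ Q, ∀ b ∈ T, z - b ≠ 0 := fun z hz b hb => norm_pos_iff.1 (hδ.trans (hd z hz b hb))
  refine hTc.induction₂' (fun x y => ∃ r : ℂ → ℂ, ContinuousOn r Q ∧ ∀ z ∈ Q, Complex.exp (r z) = (z - x) / (z - y))
    ?_ ?_ ha hb
  · intro x hx
    have key2 : ∀ x ∈ T, ∀ y ∈ T, ‖x - y‖ < δ → ∃ r : ℂ → ℂ, ContinuousOn r Q ∧
        ∀ z ∈ Q, Complex.exp (r z) = (z - x) / (z - y) := by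
      intro x hx y hy hxy
      refine ⟨fun z => Complex.log ((z - x) / (z - y)), ?_, fun z hz => Complex.exp_log
        (div_ne_zero (hne z hz x hx) (hne z hz y hy))⟩
      refine ContinuousOn.clog ?_ fun z hz => ?_
      · exact ((continuousOn_id.sub continuousOn_const).div (continuousOn_id.sub continuousOn_const)
          fun z hz => hne z hz y hy)
      · have h3 : (z - x) / (z - y) = 1 + (y - x) / (z - y) := by
          field_simp [hne z hz y hy]
          ring
        rw [h3]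
        apply Complex.mem_slitPlane_of_norm_lt_one
        rw [norm_div, div_lt_one (norm_pos_iff.2 (hne z hz y hy)), norm_sub_rev]
        exact hxy.trans (hd z hz y hy)
    have h4 : ∀ᶠ y in 𝓝[T] x, ‖x - y‖ < δ ∧ y ∈ T := by
      refine Filter.Eventually.and ?_ self_mem_nhdsWithin
      have h5 : Filter.Tendsto (fun y => ‖x - y‖) (𝓝[T] x) (𝓝 0) := by
        have h6 : Continuous fun y : ℂ => ‖x - y‖ := by fun_prop
        have h7 := h6.tendsto x
        simp only [sub_self, norm_zero] at h7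
        exact h7.mono_left nhdsWithin_le_nhds
      exact h5.eventually (gt_mem_nhds hδ)
    filter_upwards [h4] with y hy
    exact ⟨key2 x hx y hy.2 hy.1, key2 y hy.2 x hx (by rw [norm_sub_rev]; exact hy.1)⟩
  · rintro x y z hx hy hz ⟨r1, hr1, hr1'⟩ ⟨r2, hr2, hr2'⟩
    refine ⟨fun w => r1 w + r2 w, hr1.add hr2, fun w hw => ?_⟩
    rw [Complex.exp_add, hr1' w hw, hr2' w hw]
    have h3 := hne w hw y hy
    have h4 := hne w hw z hz
    field_simp

theorem log_path {u : ℝ → ℂ} (hu : ContinuousOn u (Icc 0 1)) (h0 : ∀ s ∈ Icc (0 : ℝ) 1, u s ≠ 0) :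
    ∃ r : ℝ → ℂ, ContinuousOn r (Icc 0 1) ∧ ∀ s ∈ Icc (0 : ℝ) 1, Complex.exp (r s) = u s := by
  let P : ℝ → ℝ := fun s => max 0 (min s 1)
  have hP : Continuous P := continuous_const.max (continuous_id.min continuous_const)
  have hPb : ∀ s, P s ∈ Icc (0 : ℝ) 1 := fun s => ⟨le_max_left _ _, max_le zero_le_one (min_le_right _ _)⟩
  have hPid : ∀ s ∈ Icc (0 : ℝ) 1, P s = s := fun s hs => by
    show max 0 (min s 1) = s
    rw [min_eq_left hs.2, max_eq_right hs.1]
  have hFP : Continuous fun s => u (P s) := hu.comp_continuous hP hPb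
  let U : C(ℝ, {z : ℂ // z ≠ 0}) := ⟨fun z => ⟨u (P z), h0 _ (hPb z)⟩, hFP.subtype_mk _⟩
  obtain ⟨e0, he0⟩ : ∃ e : ℂ, Complex.exp e = u (P 0) := ⟨Complex.log (u (P 0)), Complex.exp_log (h0 _ (hPb 0))⟩
  obtain ⟨G, ⟨-, hG⟩, -⟩ := Complex.isCoveringMap_exp.existsUnique_continuousMap_lifts U 0 e0 (Subtype.ext he0)
  have hG' : ∀ z, Complex.exp (G z) = u (P z) := fun z => congrArg Subtype.val (congrFun hG z)
  refine ⟨fun s => G s, G.continuous.continuousOn, fun s hs => ?_⟩
  rw [hG' s, hPid s hs]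

/-- two continuous logarithms of the same function on a connected set differ by a constant -/
theorem log_unique {X : Type*} [TopologicalSpace X] {S : Set X} (hS : IsPreconnected S) {r r' : X → ℂ}
    (hr : ContinuousOn r S) (hr' : ContinuousOn r' S) (he : ∀ z ∈ S, Complex.exp (r z) = Complex.exp (r' z)) {x y : X}
    (hx : x ∈ S) (hy : y ∈ S) : r x - r' x = r y - r' y := by
  have hpi : (2 * (Real.pi : ℂ) * Complex.I) ≠ 0 := Complex.two_pi_I_ne_zero
  have hn : ∀ z ∈ S, ∃ n : ℤ, r z - r' z = n * (2 * Real.pi * Complex.I) := by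
    intro z hz
    obtain ⟨n, hn⟩ := Complex.exp_eq_exp_iff_exists_int.1 (he z hz)
    exact ⟨n, by rw [hn]; ring⟩
  have hcont : ContinuousOn (fun z => ((r z - r' z) / (2 * Real.pi * Complex.I)).re) S :=
    Complex.continuous_re.comp_continuousOn ((hr.sub hr').div_const _)
  have hint : ∀ z ∈ S, ∃ n : ℤ, ((r z - r' z) / (2 * Real.pi * Complex.I)).re = n ∧
      r z - r' z = n * (2 * Real.pi * Complex.I) := by
    intro z hz
    obtain ⟨n, h⟩ := hn z hz
    refine ⟨n, ?_, h⟩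
    rw [h, mul_div_cancel_right₀ _ hpi]
    exact Complex.intCast_re n
  have key : ((r x - r' x) / (2 * Real.pi * Complex.I)).re = ((r y - r' y) / (2 * Real.pi * Complex.I)).re := by
    refine hS.constant_of_mapsTo (T := range ((↑) : ℤ → ℝ)) ?_ hcont ?_ hx hy
    · exact Int.isClosedEmbedding_coe_real.isDiscrete_range
    · intro z hz
      obtain ⟨n, h, -⟩ := hint z hz
      exact ⟨n, h.symm⟩
  obtain ⟨n, h1, h2⟩ := hint x hx
  obtain ⟨k, h3, h4⟩ := hint y hy
  rw [h1, h3] at key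
  have hnk : n = k := by exact_mod_cast key
  rw [h2, h4, hnk]

theorem log_glue {Ω : Set ℂ} (hΩ : IsOpen Ω) (hΩc : IsPreconnected Ω) {u : ℂ → ℂ}
    (h : ∀ Q : Set ℂ, IsCompact Q → Q ⊆ Ω → ∃ r : ℂ → ℂ, ContinuousOn r Q ∧ ∀ z ∈ Q, Complex.exp (r z) = u z) :
    ∃ r : ℂ → ℂ, ContinuousOn r Ω ∧ ∀ z ∈ Ω, Complex.exp (r z) = u z := by
  rcases Ω.eq_empty_or_nonempty with rfl | ⟨z0, hz0⟩
  · exact ⟨0, continuousOn_empty _, fun z hz => absurd hz (notMem_empty z)⟩
  have hpc : IsPathConnected Ω := (hΩ.isConnected_iff_isPathConnected).1 ⟨⟨z0, hz0⟩, hΩc⟩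
  obtain ⟨c0, hc0⟩ : ∃ c : ℂ, Complex.exp c = u z0 := by
    obtain ⟨r, -, hr⟩ := h {z0} isCompact_singleton (singleton_subset_iff.2 hz0)
    exact ⟨r z0, hr z0 rfl⟩
  -- good sets
  have hK : ∀ z ∈ Ω, ∃ K : Set ℂ, IsCompact K ∧ IsPreconnected K ∧ K ⊆ Ω ∧ z0 ∈ K ∧ z ∈ K := by
    intro z hz
    obtain ⟨γ, hγ⟩ := hpc.joinedIn z0 hz0 z hz
    refine ⟨range γ, isCompact_range γ.continuous, isPreconnected_range γ.continuous, ?_, ⟨0, γ.source⟩, ⟨1, γ.target⟩⟩
    rintro _ ⟨t, rfl⟩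
    exact hγ t
  choose! K hK1 hK2 hK3 hK4 hK5 using hK
  have hρ : ∀ z ∈ Ω, ∃ r : ℂ → ℂ, ContinuousOn r (K z) ∧ ∀ w ∈ K z, Complex.exp (r w) = u w :=
    fun z hz => h (K z) (hK1 z hz) (hK3 z hz)
  choose! ρ hρ1 hρ2 using hρ
  have hind : ∀ z ∈ Ω, ∀ Q : Set ℂ, IsCompact Q → IsPreconnected Q → Q ⊆ Ω → z0 ∈ Q → z ∈ Q → ∀ r : ℂ → ℂ,
      ContinuousOn r Q → (∀ w ∈ Q, Complex.exp (r w) = u w) → ρ z z - ρ z z0 + c0 = r z - r z0 + c0 := by
    intro z hz Q hQ1 hQ2 hQ3 hQ4 hQ5 r hr hr'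
    obtain ⟨s, hs, hs'⟩ := h (K z ∪ Q) ((hK1 z hz).union hQ1) (union_subset (hK3 z hz) hQ3)
    have h1 := log_unique (hK2 z hz) (hρ1 z hz) (hs.mono subset_union_left)
      (fun w hw => (hρ2 z hz w hw).trans (hs' w (Or.inl hw)).symm) (hK5 z hz) (hK4 z hz)
    have h2 := log_unique hQ2 hr (hs.mono subset_union_right)
      (fun w hw => (hr' w hw).trans (hs' w (Or.inr hw)).symm) hQ5 hQ4
    linear_combination h1 - h2
  refine ⟨fun z => ρ z z - ρ z z0 + c0, ?_, fun z hz => ?_⟩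
  · intro z hz
    apply ContinuousAt.continuousWithinAt
    obtain ⟨ε, hε, hball⟩ := Metric.isOpen_iff.1 hΩ z hz
    have hcb : closedBall z (ε / 2) ⊆ Ω := (closedBall_subset_ball (half_lt_self hε)).trans hball
    have hzb : z ∈ closedBall z (ε / 2) := mem_closedBall_self (half_pos hε).le
    have hQ1 : IsCompact (K z ∪ closedBall z (ε / 2)) := (hK1 z hz).union (isCompact_closedBall z (ε / 2))
    have hQ2 : IsPreconnected (K z ∪ closedBall z (ε / 2)) :=
      (hK2 z hz).union z (hK5 z hz) hzb (convex_closedBall z (ε / 2)).isPreconnected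
    have hQ3 : K z ∪ closedBall z (ε / 2) ⊆ Ω := union_subset (hK3 z hz) hcb
    obtain ⟨r, hr, hr'⟩ := h _ hQ1 hQ3
    have heq : (fun w => r w - r z0 + c0) =ᶠ[𝓝 z] fun w => ρ w w - ρ w z0 + c0 := by
      filter_upwards [closedBall_mem_nhds z (half_pos hε)] with w hw
      exact (hind w (hcb hw) _ hQ1 hQ2 hQ3 (Or.inl (hK4 z hz)) (Or.inr hw) r hr hr').symm
    refine ContinuousAt.congr ?_ heq
    have hrz : ContinuousAt r z := hr.continuousAt (Filter.mem_of_superset (closedBall_mem_nhds z (half_pos hε))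
      subset_union_right)
    exact (hrz.sub continuousAt_const).add continuousAt_const
  · have h1 := hρ2 z hz z (hK5 z hz)
    have h2 := hρ2 z hz z0 (hK4 z hz)
    show Complex.exp (ρ z z - ρ z z0 + c0) = u z
    rw [Complex.exp_add, Complex.exp_sub, h1, h2, hc0]
    have h3 : u z0 ≠ 0 := by
      rw [← hc0]
      exact Complex.exp_ne_zero _
    field_simp

end Pool.Agent.Helper66.QJ
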