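import Pool.Agent.Helper66.QK.Defs
import Pool.Agent.Helper66.QJ.Sep2
import Pool.Agent.Helper66.QK.Logs

/-!
# Block EXT: the external data exist

Proof. `M = (R0 c + 1) ^ 2 + ‖c‖`, `z1 ^ 2 = M - c` with `R0 c + 1 ≤ z1.re` and the segment `L = [M, z1]` as in the proof of
`external` (file QJ/ChainSets). On `L` the real part increases and the absolute value of the imaginary part decreases from
`z1` to `M`, so `M < (f c z).re` on `L` except at `z1` and `‖z‖ < M` on `L` except at `M`. The chain of preimages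
`S n = g n '' L` converges to the fixed point `b`, with `q n = g n M` (`q 0 = M`, `q 1 = z1`, `f c (q (n+1)) = q n`),
`q n ∈ S n`, `q (n + 1) ∈ S n`. `R` = union of the `S n`, `b` and the half line `[M, ∞)`.
Curves: `C 0 θ = M * exp (2 π θ I)`. Given `C n` continuous, outside `K`, with `C n (θ + 1/2) = -C n θ`: choose `s`
continuous with `s θ ^ 2 = C n θ - c` (lift on the line); `s (θ + 1) = - s θ`: the function `(z - c) / z` has a continuous
square root on the compact set `range (C n)` (`sqrt_ratio` with `T = K c`, both `0` and `c` are in `K c`), so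
`C n θ - c = (C n θ) * r(C n θ) ^ 2`, `s θ = ± r (C n θ) * t θ` with `t` a continuous square root of `C n`; `t (θ+1/2) ^ 2
= - t θ ^ 2` so `t (θ + 1/2) = ± I * t θ` (constant sign) and `t (θ + 1) = - t θ`. Put `C (n+1) θ = ± s (2 θ)` with the sign
such that `C (n + 1) 0 = q (n + 1)`. Then `‖(f c)^[n] (C n θ)‖ = M`, `C n` is injective modulo `1`, every `y` with
`‖(f c)^[n] y‖ = M` is of the form `C n θ` (both by induction), `R` meets the curve only in `q n` (`f` doubles norms beyond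
`R0`). `near`: for `x ∈ J` and `a ∉ K` near `x`, the norm of `(f c)^[n]` takes the value `M` on the segment `[x, a]`.
`lim`: `escape` gives `x ∈ K`; `C n θ ∉ K`.
-/

set_option autoImplicit false

open Set Topology Metric Bornology Filter

namespace Pool.Agent.Helper66.QJ

variable {c : ℂ}

/-- continuous logarithms on the line -/
private theorem log_line94 {u : ℝ → ℂ} (hu : Continuous u) (h0 : ∀ s, u s ≠ 0) :
    ∃ r : ℝ → ℂ, Continuous r ∧ ∀ s, Complex.exp (r s) = u s := by
  let U : C(ℝ, {z : ℂ // z ≠ 0}) := ⟨fun z => ⟨u z, h0 z⟩, hu.subtype_mk _⟩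
  obtain ⟨e0, he0⟩ : ∃ e : ℂ, Complex.exp e = u 0 := ⟨Complex.log (u 0), Complex.exp_log (h0 0)⟩
  obtain ⟨G, ⟨-, hG⟩, -⟩ := Complex.isCoveringMap_exp.existsUnique_continuousMap_lifts U 0 e0 (Subtype.ext he0)
  exact ⟨fun s => G s, G.continuous, fun s => congrArg Subtype.val (congrFun hG s)⟩

/-- continuous square roots on the line -/
private theorem sqrt_line94 {u : ℝ → ℂ} (hu : Continuous u) (h0 : ∀ s, u s ≠ 0) (hh : ∀ s, u (s + 1 / 2) = -u s) :
    ∃ t : ℝ → ℂ, Continuous t ∧ (∀ s, t s ^ 2 = u s) ∧ ∀ s, t (s + 1) = -t s := by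
  obtain ⟨r, hr, hr'⟩ := log_line94 hu h0
  have hshift : Continuous fun s : ℝ => r (s + 1 / 2) := hr.comp (continuous_id.add continuous_const)
  have hconst : ∀ s, r (s + 1 / 2) - r s = r (0 + 1 / 2) - r 0 := by
    intro s
    have h1 := log_unique (X := ℝ) (S := univ) isPreconnected_univ (r := fun s => r (s + 1 / 2))
      (r' := fun s => r s + Real.pi * Complex.I) hshift.continuousOn (hr.add continuous_const).continuousOn
      (fun z _ => by
        show Complex.exp (r (z + 1 / 2)) = Complex.exp (r z + Real.pi * Complex.I)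
        rw [Complex.exp_add, hr', hr', Complex.exp_pi_mul_I, hh]
        ring) (mem_univ s) (mem_univ 0)
    linear_combination h1
  obtain ⟨d, hd⟩ : ∃ d, d = r (0 + 1 / 2) - r 0 := ⟨_, rfl⟩
  have hexp : Complex.exp d = -1 := by
    rw [hd, Complex.exp_sub, hr', hr', hh, neg_div, div_self (h0 0)]
  refine ⟨fun s => Complex.exp (r s / 2), Complex.continuous_exp.comp (hr.div_const 2), fun s => ?_, fun s => ?_⟩
  · show Complex.exp (r s / 2) ^ 2 = u s
    rw [← Complex.exp_nat_mul, ← hr' s]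
    congr 1
    push_cast
    ring
  · show Complex.exp (r (s + 1) / 2) = -Complex.exp (r s / 2)
    have h1 := hconst s
    have h2 := hconst (s + 1 / 2)
    rw [show s + 1 / 2 + 1 / 2 = s + 1 by ring] at h2
    rw [← hd] at h1 h2
    have h3 : r (s + 1) / 2 = r s / 2 + d := by linear_combination (h1 + h2) / 2
    rw [h3, Complex.exp_add, hexp]
    ring

/-- the closed curves -/
private structure Cur94 (c : ℂ) (M : ℝ) (p : ℂ) (n : ℕ) (γ : ℝ → ℂ) : Prop where
  cont : Continuous γ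
  half : ∀ θ, γ (θ + 1 / 2) = -γ θ
  norm : ∀ θ, ‖(f c)^[n] (γ θ)‖ = M
  zero : γ 0 = p
  inj : ∀ θ θ', γ θ = γ θ' → ∃ m : ℤ, θ = θ' + m
  surj : ∀ y, ‖(f c)^[n] y‖ = M → ∃ θ, γ θ = y

private theorem base94 {M : ℝ} (hM : 0 < M) : Cur94 c M (M : ℂ) 0 fun θ => (M : ℂ) * e θ := by
  refine ⟨continuous_const.mul continuous_e, fun θ => ?_, fun θ => ?_, ?_, fun θ θ' h => ?_, fun y hy => ?_⟩
  · show (M : ℂ) * e (θ + 1 / 2) = -((M : ℂ) * e θ)
    have h1 : e (1 / 2) = -1 := by
      rw [e, show 2 * (Real.pi : ℂ) * ((1 / 2 : ℝ) : ℂ) * Complex.I = Real.pi * Complex.I by push_cast; ring,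
        Complex.exp_pi_mul_I]
    rw [e_add, h1]
    ring
  · show ‖(M : ℂ) * e θ‖ = M
    exact norm_re hM.le θ
  · show (M : ℂ) * e 0 = M
    have h1 := e_int 0
    rw [Int.cast_zero] at h1
    rw [h1, mul_one]
  · exact ((re_eq_iff hM hM).1 h).2
  · have hy' : ‖y‖ = M := hy
    refine ⟨Complex.arg y / (2 * Real.pi), ?_⟩
    show (M : ℂ) * e (Complex.arg y / (2 * Real.pi)) = y
    have h1 := Complex.norm_mul_exp_arg_mul_I y
    rw [hy'] at h1
    rw [e]
    convert h1 using 3
    have := Real.pi_ne_zero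
    push_cast
    field_simp

private theorem step94 (h0 : (0 : ℂ) ∈ K c) {M : ℝ} (hM : R0 c < M) {p : ℂ} {n : ℕ} {γ : ℝ → ℂ}
    (h : Cur94 c M p n γ) {p' : ℂ} (hp : f c p' = p) : ∃ γ' : ℝ → ℂ, Cur94 c M p' (n + 1) γ' := by
  have hzero : ∀ n, ‖(f c)^[n] 0‖ ≠ M := fun n h1 => by
    have := mem_K_iff.1 h0 n
    linarith
  have hne : ∀ s, γ s ≠ 0 := by
    intro s hs
    have h1 := h.norm s
    rw [hs] at h1
    exact hzero n h1
  obtain ⟨t, ht, ht2, ht1⟩ := sqrt_line94 h.cont hne h.half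
  have hper : ∀ s, γ (s + 1) = γ s := by
    intro s
    rw [show s + 1 = s + 1 / 2 + 1 / 2 by ring, h.half, h.half, neg_neg]
  have hQ : IsCompact ((f c)^[n] ⁻¹' sphere 0 M) := isCompact_preimage_iter (isCompact_sphere 0 M) n
  have hd : Disjoint ((f c)^[n] ⁻¹' sphere 0 M) (K c) := by
    rw [disjoint_left]
    intro z hz hzK
    have h1 := mem_K_iff.1 hzK n
    have h2 : ‖(f c)^[n] z‖ = M := mem_sphere_zero_iff_norm.1 hz
    linarith
  have hcK : c ∈ K c := by
    have h1 := (f_mem_K_iff (c := c) (z := 0)).2 h0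
    rwa [f_zero] at h1
  obtain ⟨r, hr, hr2⟩ := sqrt_ratio (isClosed_K c) (isPreconnected_K h0) hcK h0 hQ hd
  have hγQ : ∀ s, γ s ∈ (f c)^[n] ⁻¹' sphere 0 M := fun s => mem_sphere_zero_iff_norm.2 (h.norm s)
  obtain ⟨w, hw⟩ : ∃ w : ℝ → ℂ, ∀ s, w s = r (γ s) * t s := ⟨_, fun _ => rfl⟩
  have hwc : Continuous w := by
    have h1 : Continuous fun s => r (γ s) := hr.comp_continuous h.cont hγQ
    have h2 : w = fun s => r (γ s) * t s := funext hw
    rw [h2]
    exact h1.mul ht
  have hw2 : ∀ s, w s ^ 2 = γ s - c := by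
    intro s
    rw [hw, mul_pow, ht2, hr2 _ (hγQ s), sub_zero, div_mul_cancel₀ _ (hne s)]
  have hw1 : ∀ s, w (s + 1) = -w s := by
    intro s
    rw [hw, hw, ht1, hper]
    ring
  obtain ⟨σ, hσ, hσ2⟩ : ∃ σ : ℂ, σ ^ 2 = 1 ∧ σ * w 0 = p' := by
    have h1 : f c p' = f c (w 0) := by
      rw [hp, f, hw2, h.zero]
      ring
    rcases f_eq_iff.1 h1 with h2 | h2
    · exact ⟨1, by norm_num, by rw [h2, one_mul]⟩
    · exact ⟨-1, by norm_num, by rw [h2]; ring⟩
  have hf : ∀ θ, f c (σ * w (2 * θ)) = γ (2 * θ) := by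
    intro θ
    rw [f, mul_pow, hσ, one_mul, hw2]
    ring
  have hhalf : ∀ θ, σ * w (2 * (θ + 1 / 2)) = -(σ * w (2 * θ)) := by
    intro θ
    rw [show 2 * (θ + 1 / 2) = 2 * θ + 1 by ring, hw1]
    ring
  have hnorm : ∀ θ, ‖(f c)^[n + 1] (σ * w (2 * θ))‖ = M := by
    intro θ
    rw [Function.iterate_succ_apply, hf]
    exact h.norm _
  refine ⟨fun θ => σ * w (2 * θ), ⟨continuous_const.mul (hwc.comp (continuous_const.mul continuous_id)), hhalf, hnorm, ?_,
    fun θ θ' hθ => ?_, fun y hy => ?_⟩⟩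
  · show σ * w (2 * 0) = p'
    rw [mul_zero]
    exact hσ2
  · have hθ1 : σ * w (2 * θ) = σ * w (2 * θ') := hθ
    have h1 : γ (2 * θ) = γ (2 * θ') := by rw [← hf, ← hf, hθ1]
    obtain ⟨m, hm⟩ := h.inj _ _ h1
    rcases Int.even_or_odd' m with ⟨k, hk | hk⟩
    · refine ⟨k, ?_⟩
      rw [hk] at hm
      push_cast at hm
      linarith
    · exfalso
      have hk2 : θ = θ' + 1 / 2 + k := by
        rw [hk] at hm
        push_cast at hm
        linarith
      have hperw : ∀ (k : ℤ) (s : ℝ), σ * w (2 * (s + k)) = σ * w (2 * s) := by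
        have hper1 : Function.Periodic (fun s : ℝ => σ * w (2 * s)) 1 := by
          intro s
          show σ * w (2 * (s + 1)) = σ * w (2 * s)
          rw [show s + 1 = (s + 1 / 2) + 1 / 2 by ring, hhalf, hhalf, neg_neg]
        intro k s
        have := hper1.int_mul k s
        simpa using this
      have h2 : σ * w (2 * θ) = -(σ * w (2 * θ')) := by
        rw [hk2, hperw, hhalf]
      have h3 : σ * w (2 * θ') = 0 := by
        rw [h2] at hθ1
        have h4 : (2 : ℂ) * (σ * w (2 * θ')) = 0 := by linear_combination -hθ1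
        exact (mul_eq_zero.1 h4).resolve_left two_ne_zero
      have h4 := hnorm θ'
      rw [h3] at h4
      exact hzero _ h4
  · rw [Function.iterate_succ_apply] at hy
    obtain ⟨φ, hφ⟩ := h.surj _ hy
    have h1 : f c y = f c (σ * w (2 * (φ / 2))) := by
      rw [hf, ← hφ]
      congr 1
      ring
    rcases f_eq_iff.1 h1 with h2 | h2
    · exact ⟨φ / 2, h2.symm⟩
    · refine ⟨φ / 2 + 1 / 2, ?_⟩
      show σ * w (2 * (φ / 2 + 1 / 2)) = y
      rw [hhalf, h2]

private theorem exists_curves94 (h0 : (0 : ℂ) ∈ K c) {M : ℝ} (hM : R0 c < M) {Q : ℕ → ℂ} (hQ0 : Q 0 = M)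
    (hQ : ∀ n, f c (Q (n + 1)) = Q n) : ∃ C : ℕ → ℝ → ℂ, ∀ n, Cur94 c M (Q n) n (C n) := by
  have hM0 : 0 < M := (R0_pos c).trans hM
  let F : (n : ℕ) → {γ : ℝ → ℂ // Cur94 c M (Q n) n γ} := fun n =>
    Nat.rec (motive := fun n => {γ : ℝ → ℂ // Cur94 c M (Q n) n γ})
      ⟨fun θ => (M : ℂ) * e θ, by
        rw [hQ0]
        exact base94 hM0⟩
      (fun n s => ⟨(step94 h0 hM s.2 (hQ n)).choose, (step94 h0 hM s.2 (hQ n)).choose_spec⟩) n
  exact ⟨fun n => (F n).1, fun n => (F n).2⟩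

theorem exists_ext (h0 : (0 : ℂ) ∈ K c) : ∃ (b : ℂ) (R : Set ℂ) (C : ℕ → ℝ → ℂ), Ext c b R C := by
  have hR0 : 2 ≤ R0 c := by
    have := norm_nonneg c
    rw [R0]
    linarith
  obtain ⟨M, hM⟩ : ∃ M : ℝ, M = (R0 c + 1) ^ 2 + ‖c‖ := ⟨_, rfl⟩
  have hMR : R0 c + 1 ≤ M := by
    have := norm_nonneg c
    nlinarith
  have hM0 : 0 < M := by linarith
  obtain ⟨z1, hz1, hz1re⟩ : ∃ z1 : ℂ, z1 ^ 2 = (M : ℂ) - c ∧ R0 c + 1 ≤ z1.re := by
    obtain ⟨z, hz⟩ := IsAlgClosed.exists_pow_nat_eq ((M : ℂ) - c) (n := 2) (by norm_num)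
    have h1 : z.re ^ 2 - z.im ^ 2 = M - c.re := by
      have := congrArg Complex.re hz
      rw [sq, Complex.mul_re, Complex.sub_re, Complex.ofReal_re] at this
      nlinarith
    have h2 : (R0 c + 1) ^ 2 ≤ z.re ^ 2 := by
      have h3 := Complex.re_le_norm c
      nlinarith [sq_nonneg z.im]
    rcases le_total 0 z.re with h3 | h3
    · exact ⟨z, hz, by
        have := abs_le_of_sq_le_sq' h2 h3
        linarith [this.2]⟩
    · refine ⟨-z, by rw [neg_sq, hz], ?_⟩
      rw [Complex.neg_re]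
      have := abs_le_of_sq_le_sq' (a := R0 c + 1) (b := -z.re) (by rw [neg_sq]; exact h2) (by linarith)
      linarith [this.2]
  have hre : ∀ z ∈ segment ℝ (M : ℂ) z1, R0 c + 1 ≤ z.re := by
    intro z hz
    have h1 : Convex ℝ {z : ℂ | R0 c + 1 ≤ z.re} := convex_halfSpace_re_ge (R0 c + 1)
    exact h1.segment_subset (show R0 c + 1 ≤ ((M : ℂ)).re by rwa [Complex.ofReal_re]) hz1re hz
  have hnK : ∀ z : ℂ, R0 c + 1 ≤ z.re → z ∉ K c := fun z hz =>
    not_mem_K_of_lt (by linarith [Complex.re_le_norm z])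
  -- the norm of `z1`
  have hz1M : ‖z1‖ < M := by
    have h1 : ‖z1‖ ^ 2 ≤ M + ‖c‖ := by
      rw [← norm_pow, hz1]
      refine (norm_sub_le _ _).trans ?_
      rw [Complex.norm_real, Real.norm_of_nonneg hM0.le]
    have h2 := norm_nonneg c
    refine lt_of_pow_lt_pow_left₀ 2 hM0.le ?_
    nlinarith
  -- the segment
  have hseg : ∀ z ∈ segment ℝ (M : ℂ) z1, (‖z‖ ≤ M ∧ (‖z‖ = M → z = M)) ∧ (M ≤ (f c z).re ∧ ((f c z).re = M → z = z1)) := by
    rintro z ⟨a, b, ha, hb, hab, rfl⟩
    obtain rfl : a = 1 - b := by linarith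
    have hn : ‖(1 - b) • (M : ℂ) + b • z1‖ ≤ (1 - b) * M + b * ‖z1‖ := by
      refine (norm_add_le _ _).trans ?_
      rw [norm_smul, norm_smul, Real.norm_of_nonneg ha, Real.norm_of_nonneg hb, Complex.norm_real,
        Real.norm_of_nonneg hM0.le]
    have hre1 : ((1 - b) • (M : ℂ) + b • z1).re = (1 - b) * M + b * z1.re := by simp
    have him1 : ((1 - b) • (M : ℂ) + b • z1).im = b * z1.im := by simp
    have hf1 : ∀ z : ℂ, (f c z).re = z.re ^ 2 - z.im ^ 2 + c.re := by
      intro z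
      rw [f, Complex.add_re, sq, Complex.mul_re]
      ring
    have hM1 : z1.re ^ 2 - z1.im ^ 2 + c.re = M := by
      have := congrArg Complex.re hz1
      rw [sq, Complex.mul_re, Complex.sub_re, Complex.ofReal_re] at this
      nlinarith
    have hx1 : z1.re < M := (Complex.re_le_norm z1).trans_lt hz1M
    refine ⟨⟨?_, fun h1 => ?_⟩, ?_, fun h1 => ?_⟩
    · nlinarith
    · have hb0 : b = 0 := by
        by_contra hb1
        have hb2 : 0 < b := lt_of_le_of_ne hb (Ne.symm hb1)
        nlinarith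
      rw [hb0]
      simp
    · rw [hf1, hre1, him1]
      have hb1 : b ≤ 1 := by linarith
      have h2 : z1.re ≤ (1 - b) * M + b * z1.re := by nlinarith
      have h3 : z1.re ^ 2 ≤ ((1 - b) * M + b * z1.re) ^ 2 := by
        have : 0 ≤ z1.re := by linarith
        exact pow_le_pow_left₀ this h2 2
      have h4 : (b * z1.im) ^ 2 ≤ z1.im ^ 2 := by
        rw [mul_pow]
        have : b ^ 2 ≤ 1 := pow_le_one₀ hb hb1
        nlinarith [sq_nonneg z1.im]
      linarith
    · rw [hf1, hre1, him1] at h1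
      have hb1 : b ≤ 1 := by linarith
      have hb2 : b = 1 := by
        by_contra hb3
        have hb4 : b < 1 := lt_of_le_of_ne hb1 hb3
        have h2 : z1.re < (1 - b) * M + b * z1.re := by nlinarith
        have h3 : z1.re ^ 2 < ((1 - b) * M + b * z1.re) ^ 2 := by
          have : 0 ≤ z1.re := by linarith
          exact pow_lt_pow_left₀ h2 this two_ne_zero
        have h4 : (b * z1.im) ^ 2 ≤ z1.im ^ 2 := by
          rw [mul_pow]
          have : b ^ 2 ≤ 1 := pow_le_one₀ hb hb1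
          nlinarith [sq_nonneg z1.im]
        linarith
      rw [hb2]
      simp
  -- the chain
  let T : Set ℂ := K c ∪ (fun x : ℝ => (x : ℂ)) '' Iic 0
  have hT : IsClosed T := (isClosed_K c).union
    (Complex.isometry_ofReal.isClosedEmbedding.isClosedMap _ isClosed_Iic)
  have hTc : IsPreconnected T := (isPreconnected_K h0).union 0 h0 ⟨0, mem_Iic.2 le_rfl, rfl⟩
    (isPreconnected_Iic.image _ Complex.continuous_ofReal.continuousOn)
  have hTu : ¬ IsBounded T := by
    intro hb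
    obtain ⟨B, hB⟩ := hb.exists_norm_le
    have h1 := hB ((-(|B| + 1) : ℝ) : ℂ) (Or.inr ⟨_, mem_Iic.2 (by linarith [abs_nonneg B]), rfl⟩)
    rw [Complex.norm_real, norm_neg, Real.norm_of_nonneg (by positivity)] at h1
    linarith [le_abs_self B]
  have hcT : ∀ k, (f c)^[k] c ∈ T := by
    intro k
    left
    have h1 : ∀ k, (f c)^[k] 0 ∈ K c := by
      intro k
      induction k with
      | zero => exact h0
      | succ k ih =>
        rw [Function.iterate_succ_apply']
        exact f_mem_K_iff.2 ih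
    rw [c_iter]
    exact h1 _
  obtain ⟨L, hLdef⟩ : ∃ L : Set ℂ, L = segment ℝ (M : ℂ) z1 := ⟨_, rfl⟩
  have hL : IsCompact L := by
    rw [hLdef, segment_eq_image_lineMap]
    exact isCompact_Icc.image (by fun_prop)
  have hLc : IsPreconnected L := by
    rw [hLdef]
    exact (convex_segment _ _).isPreconnected
  have hLB : L ⊆ Bas c := fun z hz => subset_closure (hnK z (hre z (hLdef ▸ hz)))
  have hd : Disjoint L T := by
    rw [hLdef, disjoint_left]
    rintro z hz (hzK | ⟨x, hx, rfl⟩)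
    · exact hnK z (hre z hz) hzK
    · have h1 := hre _ hz
      rw [Complex.ofReal_re] at h1
      linarith [mem_Iic.1 hx]
  have hML : (M : ℂ) ∈ L := by
    rw [hLdef]
    exact left_mem_segment ℝ _ _
  have hz1L : z1 ∈ L := by
    rw [hLdef]
    exact right_mem_segment ℝ _ _
  have hfz1 : f c z1 = (M : ℂ) := by
    rw [f, hz1]
    ring
  obtain ⟨δ, hδ, hδT⟩ := hL.exists_cthickening_subset_open hT.isOpen_compl hd.subset_compl_right
  have hQ : IsCompact (cthickening δ L) := hL.cthickening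
  have hQT : Disjoint (cthickening δ L) T := disjoint_left.2 fun x hx hxT => hδT hx hxT
  have hLQ : L ⊆ cthickening δ L := self_subset_cthickening L
  obtain ⟨g, q, h, hq0⟩ := exists_chain hT hTc hTu hcT hQ hQT hLQ hML hz1L hfz1
  have hNQ : thickening δ L ⊆ cthickening δ L := thickening_subset_cthickening δ L
  obtain ⟨b, hb, hbJ, hlim⟩ := fixed_limit h (isOpen_thickening (δ := δ) (E := L)) hNQ (self_subset_thickening hδ L) hQ
    (fun k hk => hδT (hNQ hk) (hcT k)) hL hLc hLB
  obtain ⟨S, hS⟩ : ∃ S : ℕ → Set ℂ, ∀ n, S n = g n '' L := ⟨_, fun _ => rfl⟩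
  have hconv : Conv c L S b := by
    refine ⟨?_, fun n => ?_, fun n => ?_, fun n => ⟨q n, ?_, ?_⟩, ?_, hb, hbJ, ?_⟩
    · have h1 : g 0 = id := funext h.zero
      rw [hS, h1, image_id]
    · rw [hS]
      exact hL.image_of_continuousOn ((h.cont n).mono hLQ)
    · rw [hS]
      exact hLc.image _ ((h.cont n).mono hLQ)
    · rw [hS]
      exact h.mem n
    · rw [hS]
      exact h.mem' n
    · intro n x hx
      rw [hS] at hx ⊢
      obtain ⟨x, hx, rfl⟩ := hx
      rw [h.inv n x (hLQ hx)]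
      exact ⟨x, hx, rfl⟩
    · intro ε hε
      filter_upwards [hlim ε hε] with n hn
      intro y hy
      rw [hS] at hy
      obtain ⟨x, hx, rfl⟩ := hy
      exact hn x hx
  -- the points `q n`
  have hqiter : ∀ n, (f c)^[n] (q n) = z1 := by
    intro n
    induction n with
    | zero => exact hq0
    | succ n ih => rw [Function.iterate_succ_apply, h.fq, ih]
  have hqz : ∀ n, q n = g n z1 := by
    intro n
    obtain ⟨x, hx, hxq⟩ := h.mem n
    have h1 := h.iter n (hLQ hx)
    rw [hxq, hqiter] at h1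
    rw [← hxq, h1]
  have hqM : ∀ n, q n = g (n + 1) M := by
    intro n
    obtain ⟨x, hx, hxq⟩ := h.mem' n
    have h1 := h.iter (n + 1) (hLQ hx)
    rw [hxq, Function.iterate_succ_apply', hqiter, hfz1] at h1
    rw [← hxq, h1]
  have hSK : ∀ n, ∀ x ∈ S n, x ∉ K c := by
    intro n x hx
    rw [hS] at hx
    obtain ⟨y, hy, rfl⟩ := hx
    rw [h.mem_K n (hLQ hy)]
    exact hnK y (hre y (hLdef ▸ hy))
  obtain ⟨C, hC⟩ := exists_curves94 h0 (M := M) (by linarith) (Q := fun n => g n M) (h.zero _)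
    (fun n => h.inv n _ (hLQ hML))
  -- the meeting points
  obtain ⟨R, hR⟩ : ∃ R : Set ℂ, R = ((⋃ n, S n) ∪ {b}) ∪ (fun x : ℝ => (x : ℂ)) '' Ici M := ⟨_, rfl⟩
  have hdouble : ∀ z : ℂ, M ≤ ‖z‖ → ∀ n : ℕ, ‖(f c)^[n + 1] z‖ ≠ M := by
    intro z hz n hn
    have h1 := iter_ge (c := c) (z := z) (by linarith) (n + 1)
    rw [hn] at h1
    have h2 : (1 : ℝ) ≤ 2 ^ n := one_le_pow₀ (by norm_num)
    rw [pow_succ] at h1
    nlinarith
  have hmeet : ∀ n, ∀ y ∈ R, ‖(f c)^[n] y‖ = M → y = C n 0 := by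
    intro n y hy hyM
    rw [(hC n).zero]
    show y = g n M
    rw [hR] at hy
    rcases hy with (hy | hy) | ⟨x, hx, rfl⟩
    · obtain ⟨m, hm⟩ := mem_iUnion.1 hy
      rw [hS] at hm
      obtain ⟨x, hx, rfl⟩ := hm
      have hxs := hseg x (hLdef ▸ hx)
      rcases le_or_gt n m with hnm | hnm
      · obtain ⟨j, rfl⟩ := Nat.exists_eq_add_of_le hnm
        have hdown : ∀ n j, (f c)^[n] (g (n + j) x) = g j x := by
          intro n
          induction n with
          | zero =>
            intro j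
            rw [Nat.zero_add, Function.iterate_zero, id]
          | succ n ih =>
            intro j
            rw [Function.iterate_succ_apply, show n + 1 + j = n + j + 1 by ring, h.inv _ x (hLQ hx), ih]
        rw [hdown] at hyM
        cases j with
        | zero =>
          rw [h.zero] at hyM
          rw [hxs.1.2 hyM, Nat.add_zero]
        | succ j =>
          exfalso
          have h1 := iter_ge (c := c) (z := g (j + 1) x) (by linarith) (j + 1)
          rw [h.iter _ (hLQ hx), hyM] at h1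
          have h2 : (1 : ℝ) ≤ 2 ^ j := one_le_pow₀ (by norm_num)
          rw [pow_succ] at h1
          have h3 := hxs.1.1
          nlinarith
      · obtain ⟨j, rfl⟩ := Nat.exists_eq_add_of_lt hnm
        have h1 : (f c)^[m + j + 1] (g m x) = (f c)^[j] (f c x) := by
          rw [show m + j + 1 = (j + 1) + m by ring, Function.iterate_add_apply, h.iter _ (hLQ hx),
            Function.iterate_succ_apply]
        rw [h1] at hyM
        cases j with
        | zero =>
          have h2 : ‖f c x‖ = M := hyM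
          have h3 : (f c x).re = M := le_antisymm ((Complex.re_le_norm _).trans h2.le) hxs.2.1
          rw [hxs.2.2 h3, Nat.add_zero, ← hqM, hqz]
        | succ j =>
          exact absurd hyM (hdouble _ (hxs.2.1.trans (Complex.re_le_norm _)) j)
    · exfalso
      rw [mem_singleton_iff.1 hy] at hyM
      have h1 := mem_K_iff.1 (J_sub_K c hbJ) n
      linarith
    · have hx1 : M ≤ ‖(x : ℂ)‖ := by
        rw [Complex.norm_real, Real.norm_of_nonneg (hM0.le.trans hx)]
        exact hx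
      cases n with
      | zero =>
        have h1 : ‖(x : ℂ)‖ = M := hyM
        rw [Complex.norm_real, Real.norm_of_nonneg (hM0.le.trans hx)] at h1
        show (x : ℂ) = g 0 M
        rw [h.zero, h1]
      | succ n => exact absurd hyM (hdouble _ hx1 n)
  refine ⟨b, R, C, ⟨hb, hbJ, ?_, ?_, ?_, ?_, ?_, fun n => (hC n).cont, fun n => (hC n).half, ?_, ?_, ?_, ?_, ?_, ?_⟩⟩
  · rw [hR]
    exact hconv.isClosed.union (Complex.isometry_ofReal.isClosedEmbedding.isClosedMap _ isClosed_Ici)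
  · rw [hR]
    refine hconv.isPreconnected.union (M : ℂ) (Or.inl (mem_iUnion.2 ⟨0, ?_⟩)) ⟨M, mem_Ici.2 le_rfl, rfl⟩
      (isPreconnected_Ici.image _ Complex.continuous_ofReal.continuousOn)
    rw [hconv.zero]
    exact hML
  · intro hbd
    obtain ⟨B, hB⟩ := hbd.exists_norm_le
    have h1 := hB ((M + |B| + 1 : ℝ) : ℂ) (by
      rw [hR]
      exact Or.inr ⟨_, mem_Ici.2 (by linarith [abs_nonneg B]), rfl⟩)
    rw [Complex.norm_real, Real.norm_of_nonneg (by linarith [abs_nonneg B])] at h1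
    linarith [le_abs_self B]
  · rw [hR]
    exact Or.inl (Or.inr rfl)
  · rw [hR]
    rintro z ⟨(hz | hz) | ⟨x, hx, rfl⟩, hzK⟩
    · obtain ⟨n, hn⟩ := mem_iUnion.1 hz
      exact absurd hzK (hSK n z hn)
    · exact hz
    · refine absurd hzK (hnK _ ?_)
      show R0 c + 1 ≤ ((x : ℂ)).re
      rw [Complex.ofReal_re]
      linarith [mem_Ici.1 hx]
  · intro n θ hθ
    have h1 : ‖(f c)^[n] (C n θ)‖ ≤ R0 c := hθ
    rw [(hC n).norm] at h1
    linarith
  · intro x hx δ' hδ'
    obtain ⟨hxK, hxB⟩ := mem_J_iff.1 hx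
    obtain ⟨a, ha, hxa⟩ := Metric.mem_closure_iff.1 hxB δ' hδ'
    obtain ⟨N, hN⟩ := escape (c := c) ha M
    refine ⟨N, fun n hn => ?_⟩
    have h1 := hN.self_of_nhds n hn
    have h2 := mem_K_iff.1 hxK n
    have h3 : Continuous fun t : ℝ => ‖(f c)^[n] (x + t * (a - x))‖ := by
      have h4 : Continuous fun t : ℝ => x + t * (a - x) := by fun_prop
      exact (((continuous_f c).iterate n).comp h4).norm
    have h5 : M ∈ Icc ((fun t : ℝ => ‖(f c)^[n] (x + t * (a - x))‖) 0) ((fun t : ℝ => ‖(f c)^[n] (x + t * (a - x))‖) 1) := by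
      simp only [Complex.ofReal_zero, zero_mul, add_zero, Complex.ofReal_one, one_mul, add_sub_cancel]
      exact ⟨by linarith, h1.le⟩
    obtain ⟨t, ht, htM⟩ := intermediate_value_Icc zero_le_one h3.continuousOn h5
    obtain ⟨θ, hθ⟩ := (hC n).surj _ htM
    refine ⟨θ, ?_⟩
    rw [hθ, add_sub_cancel_left, norm_mul, Complex.norm_real, Real.norm_of_nonneg ht.1]
    rw [dist_comm, dist_eq_norm] at hxa
    have h6 := norm_nonneg (a - x)
    nlinarith [ht.2]
  · intro x hx
    rw [mem_J_iff]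
    constructor
    · by_contra hxK
      obtain ⟨N, hN⟩ := escape (c := c) hxK M
      obtain ⟨ε, hε, hball⟩ := Metric.eventually_nhds_iff.1 hN
      obtain ⟨n, hn, θ, hθ⟩ := hx ε hε N
      have h1 := hball (y := C n θ) (by rwa [dist_eq_norm]) n hn
      rw [(hC n).norm] at h1
      exact lt_irrefl _ h1
    · rw [Bas, Metric.mem_closure_iff]
      intro ε hε
      obtain ⟨n, hn, θ, hθ⟩ := hx ε hε 0
      refine ⟨C n θ, fun hK => ?_, by rwa [dist_comm, dist_eq_norm]⟩
      have h1 := mem_K_iff.1 hK n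
      rw [(hC n).norm] at h1
      linarith
  · intro n θ hθ
    constructor
    · intro hmem
      obtain ⟨m, hm⟩ := (hC n).inj _ _ (hmeet n _ hmem ((hC n).norm θ))
      rw [zero_add] at hm
      have h1 : (0 : ℝ) < m := by rw [← hm]; exact hθ.1
      have h2 : (m : ℝ) < 1 := by rw [← hm]; linarith [hθ.2]
      have h3 : (0 : ℤ) < m := by exact_mod_cast h1
      have h4 : m < (1 : ℤ) := by exact_mod_cast h2
      omega
    · intro hmem
      rw [← (hC n).half] at hmem
      obtain ⟨m, hm⟩ := (hC n).inj _ _ (hmeet n _ hmem ((hC n).norm _))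
      rw [zero_add] at hm
      have h1 : (0 : ℝ) < m := by rw [← hm]; linarith [hθ.1]
      have h2 : (m : ℝ) < 1 := by rw [← hm]; linarith [hθ.2]
      have h3 : (0 : ℤ) < m := by exact_mod_cast h1
      have h4 : m < (1 : ℤ) := by exact_mod_cast h2
      omega
  · intro n
    rw [(hC n).zero, hR]
    refine Or.inl (Or.inl (mem_iUnion.2 ⟨n, ?_⟩))
    rw [hS]
    exact ⟨M, hML, rfl⟩
  · intro ε hε
    obtain ⟨N, hN⟩ := eventually_atTop.1 (hlim ε hε)
    refine ⟨N, fun n hn => ?_⟩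
    rw [(hC n).zero]
    exact hN n hn _ hML

end Pool.Agent.Helper66.QJ
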