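import Pool.Agent.Helper66.QK.Logs

/-!
# Block GOOD: a continuous logarithm of `(z - x) / (z - y)` with bounded imaginary part outside a compact set

Proof. Call `x`, `y` in the connected open set `Ω` related if the conclusion holds. Segments in `Ω` are related pairs:
`P z = Complex.log ((z - x) / (z - y))`, which is continuous outside the segment because `(z - x) / (z - y)` is in
`(-∞, 0]` or undefined only for `z` in the segment; `|im| ≤ π`. The relation is transitive (unions, sums). So all points of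
`Ω` are related (e.g. `IsPreconnected.induction₂'`).
-/

set_option autoImplicit false

open Set Topology Metric Bornology Filter

namespace Pool.Agent.Helper66.QJ

/-- the quotient is in the slit plane outside the segment -/
theorem good_slit {x y z : ℂ} (hz : z ∉ segment ℝ x y) : (z - x) / (z - y) ∈ Complex.slitPlane := by
  by_contra h
  apply hz
  have hzy : z - y ≠ 0 := by
    intro h0
    exact hz (by rw [sub_eq_zero.mp h0]; exact right_mem_segment ℝ x y)
  rw [Complex.mem_slitPlane_iff] at h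
  push Not at h
  obtain ⟨h1, h2⟩ := h
  set w := (z - x) / (z - y) with hw
  have hw2 : w = ((w.re : ℝ) : ℂ) := Complex.ext (by simp) (by simp [h2])
  have h3 : z - x = (w.re : ℂ) * (z - y) := by
    rw [← hw2, hw, div_mul_cancel₀ _ hzy]
  have hpos : 0 < 1 - w.re := by linarith
  rw [segment_eq_image]
  refine ⟨-w.re / (1 - w.re), ⟨div_nonneg (by linarith) hpos.le,
    (div_le_one hpos).mpr (by linarith)⟩, ?_⟩
  have hne : (1 : ℂ) - (w.re : ℂ) ≠ 0 := by
    have : ((1 - w.re : ℝ) : ℂ) ≠ 0 := Complex.ofReal_ne_zero.mpr hpos.ne'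
    simpa using this
  simp only [Complex.real_smul]
  push_cast
  field_simp
  linear_combination -h3

/-- the basic logarithm for a segment -/
theorem good_segment (x y : ℂ) : ContinuousOn (fun z => Complex.log ((z - x) / (z - y))) (segment ℝ x y)ᶜ := by
  refine ContinuousOn.clog ?_ fun z hz => good_slit hz
  refine ContinuousOn.div (by fun_prop) (by fun_prop) ?_
  intro z hz h0
  exact hz (by rw [sub_eq_zero.mp h0]; exact right_mem_segment ℝ x y)

theorem good {Ω : Set ℂ} (hΩ : IsOpen Ω) (hΩc : IsPreconnected Ω) {x y : ℂ} (hx : x ∈ Ω) (hy : y ∈ Ω) :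
    ∃ (F : Set ℂ) (P : ℂ → ℂ) (B : ℝ), IsCompact F ∧ IsPreconnected F ∧ F ⊆ Ω ∧ x ∈ F ∧ y ∈ F ∧ ContinuousOn P Fᶜ ∧
      (∀ z ∉ F, Complex.exp (P z) = (z - x) / (z - y)) ∧ ∀ z ∉ F, |(P z).im| ≤ B := by
  have key : ∀ {x y : ℂ}, segment ℝ x y ⊆ Ω → ∃ (F : Set ℂ) (P : ℂ → ℂ) (B : ℝ), IsCompact F ∧
      IsPreconnected F ∧ F ⊆ Ω ∧ x ∈ F ∧ y ∈ F ∧ ContinuousOn P Fᶜ ∧
      (∀ z ∉ F, Complex.exp (P z) = (z - x) / (z - y)) ∧ ∀ z ∉ F, |(P z).im| ≤ B := by
    intro x y hxy
    refine ⟨segment ℝ x y, fun z => Complex.log ((z - x) / (z - y)), Real.pi, ?_,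
      (convex_segment x y).isPreconnected, hxy, left_mem_segment ℝ x y, right_mem_segment ℝ x y,
      good_segment x y, ?_, ?_⟩
    · rw [segment_eq_image]
      exact isCompact_Icc.image (by fun_prop)
    · intro z hz
      exact Complex.exp_log (Complex.slitPlane_ne_zero (good_slit hz))
    · intro z _
      simpa [Complex.log_im] using Complex.abs_arg_le_pi ((z - x) / (z - y))
  refine hΩc.induction₂' (fun x y => ∃ (F : Set ℂ) (P : ℂ → ℂ) (B : ℝ), IsCompact F ∧
      IsPreconnected F ∧ F ⊆ Ω ∧ x ∈ F ∧ y ∈ F ∧ ContinuousOn P Fᶜ ∧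
      (∀ z ∉ F, Complex.exp (P z) = (z - x) / (z - y)) ∧ ∀ z ∉ F, |(P z).im| ≤ B) ?_ ?_ hx hy
  · intro x hx
    obtain ⟨ε, hε, hb⟩ := Metric.isOpen_iff.mp hΩ x hx
    refine mem_nhdsWithin_of_mem_nhds ?_
    filter_upwards [Metric.ball_mem_nhds x hε] with y hy
    have h1 : segment ℝ x y ⊆ Ω :=
      ((convex_ball x ε).segment_subset (Metric.mem_ball_self hε) hy).trans hb
    exact ⟨key h1, key (by rw [segment_symm]; exact h1)⟩
  · rintro x y z _ _ _ ⟨F, P, B, h1, h2, h3, h4, h5, h6, h7, h8⟩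
      ⟨F', P', B', g1, g2, g3, g4, g5, g6, g7, g8⟩
    refine ⟨F ∪ F', fun w => P w + P' w, B + B', h1.union g1,
      h2.union y h5 g4 g2, union_subset h3 g3, Or.inl h4, Or.inr g5, ?_, ?_, ?_⟩
    · refine (h6.mono ?_).add (g6.mono ?_)
      · exact compl_subset_compl.mpr subset_union_left
      · exact compl_subset_compl.mpr subset_union_right
    · intro w hw
      have hw1 : w ∉ F := fun h => hw (Or.inl h)
      have hw2 : w ∉ F' := fun h => hw (Or.inr h)
      have hwy : w - y ≠ 0 := sub_ne_zero.mpr fun h => hw1 (h ▸ h5)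
      rw [Complex.exp_add, h7 w hw1, g7 w hw2, div_mul_div_cancel₀ hwy]
    · intro w hw
      have hw1 : w ∉ F := fun h => hw (Or.inl h)
      have hw2 : w ∉ F' := fun h => hw (Or.inr h)
      rw [Complex.add_im]
      exact (abs_add_le _ _).trans (add_le_add (h8 w hw1) (g8 w hw2))

end Pool.Agent.Helper66.QJ
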