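import Pool.Agent.Helper66.QK.Defs

/-!
# Block SETUP: the filled continuum and the accessible point

Proof. `Ω` = the component of `Xᶜ` containing the connected set `(K c)ᶜ`, `Xh = Ωᶜ`. `Xh ⊆ K c` is compact; connected by
`conn_part` (file QJ/Plane; `J = univ`, `C = X`, `U` = the rest of `Xᶜ`, `V = Ω`). `J ∩ Xh ⊆ X`: near a point of `J` there are
points of `(K c)ᶜ ⊆ Ω`, and components of the open set `Xᶜ` are open. `frontier Xh ⊆ X`. `f⁻¹ Ω` is connected (`preimage_conn`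
with `S = Far c`, as in `isPreconnected_compl_K`), disjoint from `X` (`f (X) ⊆ X`) and contains far points, so `f⁻¹ Ω ⊆ Ω`,
that is `f (Xh) ⊆ Xh`. `W = f⁻¹ Xh`; `frontier W ⊆ f⁻¹ (frontier Xh) ⊆ f⁻¹ X = X ∪ -X` (`f x = f y` only for `y = ± x`,
`f (X) = X`). `0 ∈ X ⊆ W` is in `J`: take `p ∉ K c` with `‖p‖ < ‖c‖` (`c ≠ 0`: `c_ne_zero`), and the first point `a` of the
closed set `W` on the segment from `p` to `0`: `a ∈ frontier W`, `‖a‖ < ‖c‖`, so `a ≠ ± c`, and `a + s (p - a) ∉ W` for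
`0 < s ≤ 1`. If `a ∈ X` take `a`, `v = p`; otherwise `-a ∈ X` and take `-a`, `v = -p` (`W` is symmetric). `f a ≠ a` as `X`
contains no fixed point.
-/

set_option autoImplicit false

open Set Topology Metric Bornology Filter

namespace Pool.Agent.Helper66.QJ

variable {c : ℂ}

/-- the first point of a closed set on the segment from `p` to `0` -/
private theorem first6 {W : Set ℂ} (hW : IsClosed W) (hW0 : (0 : ℂ) ∈ W) {p : ℂ} (hp : p ∉ W) :
    ∃ a : ℂ, a ∈ frontier W ∧ ‖a‖ ≤ ‖p‖ ∧ ∀ s ∈ Ioc (0 : ℝ) 1, a + s * (p - a) ∉ W := by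
  let T : Set ℝ := Icc 0 1 ∩ (fun t : ℝ => ((1 - t : ℝ) : ℂ) * p) ⁻¹' W
  have hTc : IsCompact T := by
    refine isCompact_Icc.inter_right (hW.preimage ?_)
    fun_prop
  have hTne : T.Nonempty := by
    refine ⟨1, ⟨zero_le_one, le_rfl⟩, ?_⟩
    show ((1 - 1 : ℝ) : ℂ) * p ∈ W
    rw [sub_self, Complex.ofReal_zero, zero_mul]
    exact hW0
  obtain ⟨t0, ht0, hmin⟩ := hTc.exists_isLeast hTne
  have ht01 : t0 ∈ Icc (0 : ℝ) 1 := ht0.1
  have haW : ((1 - t0 : ℝ) : ℂ) * p ∈ W := ht0.2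
  have ht0pos : 0 < t0 := by
    rcases ht01.1.lt_or_eq with h | h
    · exact h
    · exfalso
      apply hp
      rw [← h, sub_zero, Complex.ofReal_one, one_mul] at haW
      exact haW
  have hseg : ∀ s ∈ Ioc (0 : ℝ) 1,
      ((1 - t0 : ℝ) : ℂ) * p + s * (p - ((1 - t0 : ℝ) : ℂ) * p) ∉ W := by
    intro s hs hmem
    have h1 : ((1 - t0 : ℝ) : ℂ) * p + s * (p - ((1 - t0 : ℝ) : ℂ) * p) =
        ((1 - t0 * (1 - s) : ℝ) : ℂ) * p := by
      push_cast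
      ring
    rw [h1] at hmem
    have h2 : t0 * (1 - s) ∈ T := by
      refine ⟨⟨mul_nonneg ht01.1 (by linarith [hs.2]), ?_⟩, hmem⟩
      nlinarith [ht01.2, hs.1, hs.2]
    have h3 := hmin h2
    nlinarith [hs.1]
  refine ⟨((1 - t0 : ℝ) : ℂ) * p, ?_, ?_, hseg⟩
  · rw [frontier_eq_closure_inter_closure, hW.closure_eq]
    refine ⟨haW, ?_⟩
    rw [mem_closure_iff_seq_limit]
    refine ⟨fun n : ℕ => ((1 - t0 : ℝ) : ℂ) * p + ((1 / ((n : ℝ) + 1) : ℝ) : ℂ) *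
      (p - ((1 - t0 : ℝ) : ℂ) * p), fun n => ?_, ?_⟩
    · refine hseg _ ⟨by positivity, ?_⟩
      rw [div_le_one (by positivity)]
      have : (0 : ℝ) ≤ (n : ℝ) := Nat.cast_nonneg n
      linarith
    · have h1 : Tendsto (fun n : ℕ => ((1 / ((n : ℝ) + 1) : ℝ) : ℂ)) atTop (𝓝 ((0 : ℝ) : ℂ)) :=
        (Complex.continuous_ofReal.tendsto 0).comp tendsto_one_div_add_atTop_nhds_zero_nat
      have h2 := (h1.mul_const (p - ((1 - t0 : ℝ) : ℂ) * p)).const_add (((1 - t0 : ℝ) : ℂ) * p)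
      rw [Complex.ofReal_zero, zero_mul, add_zero] at h2
      exact h2
  · rw [norm_mul, Complex.norm_real, Real.norm_eq_abs, abs_of_nonneg (by linarith [ht01.2])]
    exact mul_le_of_le_one_left (norm_nonneg p) (by linarith [ht01.1])

theorem setup3 {X : Set ℂ} (hX : IsCompact X) (hXc : IsPreconnected X) (hXK : X ⊆ K c) (h0J : (0 : ℂ) ∈ J c)
    (h0 : (0 : ℂ) ∈ X) (hfX : f c '' X = X) :
    ∃ (Xh : Set ℂ) (a v : ℂ), Ruler c Xh a v ∧ X ⊆ Xh ∧ J c ∩ Xh ⊆ X := by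
  have hf0 : f c 0 = c := by
    unfold f
    ring
  have hc0 : c ≠ 0 := c_ne_zero h0J
  -- no fixed points near `0`
  obtain ⟨ε, hε0, hεc, hεf⟩ : ∃ ε : ℝ, 0 < ε ∧ ε ≤ ‖c‖ ∧ ∀ z : ℂ, ‖z‖ < ε → f c z ≠ z := by
    have h1 : ∀ᶠ z in 𝓝 (0 : ℂ), f c z - z ≠ 0 := by
      have h2 : ContinuousAt (fun z => f c z - z) 0 :=
        ((continuous_f c).sub continuous_id).continuousAt
      have h3 : f c 0 - 0 ≠ 0 := by
        rw [hf0, sub_zero]
        exact hc0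
      exact h2.eventually_ne h3
    obtain ⟨ε, hε, h4⟩ := Metric.eventually_nhds_iff.1 h1
    refine ⟨min ε ‖c‖, lt_min hε (norm_pos_iff.2 hc0), min_le_right _ _, fun z hz h5 => ?_⟩
    refine h4 (y := z) ?_ (sub_eq_zero.2 h5)
    rw [dist_zero_right]
    exact lt_of_lt_of_le hz (min_le_left _ _)
  have hfXm : ∀ x ∈ X, f c x ∈ X := fun x hx => hfX ▸ mem_image_of_mem _ hx
  have hnormP : ‖((R0 c + 1 : ℝ) : ℂ)‖ = R0 c + 1 := by
    rw [Complex.norm_real, Real.norm_of_nonneg (by linarith [R0_pos c])]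
  have hPK : ((R0 c + 1 : ℝ) : ℂ) ∈ (K c)ᶜ := by
    apply not_mem_K_of_lt
    rw [hnormP]
    linarith
  obtain ⟨Ω, hΩ⟩ : ∃ Ω, Ω = connectedComponentIn Xᶜ ((R0 c + 1 : ℝ) : ℂ) := ⟨_, rfl⟩
  have hXo : IsOpen Xᶜ := hX.isClosed.isOpen_compl
  have hΩo : IsOpen Ω := by
    rw [hΩ]
    exact hXo.connectedComponentIn
  have hΩc : IsPreconnected Ω := by
    rw [hΩ]
    exact isPreconnected_connectedComponentIn
  have hΩX : Ω ⊆ Xᶜ := by
    rw [hΩ]
    exact connectedComponentIn_subset _ _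
  have hmax : ∀ U : Set ℂ, IsPreconnected U → ((R0 c + 1 : ℝ) : ℂ) ∈ U → U ⊆ Xᶜ → U ⊆ Ω := by
    intro U h1 h2 h3
    rw [hΩ]
    exact h1.subset_connectedComponentIn h2 h3
  have hKΩ : (K c)ᶜ ⊆ Ω := hmax _ (isPreconnected_compl_K c) hPK (compl_subset_compl.2 hXK)
  -- the other components
  have hUo : IsOpen (Xᶜ \ Ω) := by
    rw [isOpen_iff_mem_nhds]
    intro z hz
    have h1 : connectedComponentIn Xᶜ z ∈ 𝓝 z :=
      hXo.connectedComponentIn.mem_nhds (mem_connectedComponentIn hz.1)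
    refine Filter.mem_of_superset h1 fun w hw => ⟨connectedComponentIn_subset _ _ hw, fun hwΩ => ?_⟩
    apply hz.2
    have h2 := connectedComponentIn_eq hw
    rw [hΩ] at hwΩ
    have h3 := connectedComponentIn_eq hwΩ
    rw [hΩ, h3, ← h2]
    exact mem_connectedComponentIn hz.1
  have hdis : Disjoint (Xᶜ \ Ω) Ω := disjoint_sdiff_left
  have hconnH : IsConnected (univ \ Ω) := by
    refine conn_part (C := X) (U := Xᶜ \ Ω) isClosed_univ isPreconnected_univ ⟨⟨0, h0⟩, hXc⟩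
      (subset_univ _) hUo hΩo ?_ hdis ?_
    · intro z _
      by_cases h1 : z ∈ X
      · exact Or.inl h1
      · by_cases h2 : z ∈ Ω
        · exact Or.inr (Or.inr h2)
        · exact Or.inr (Or.inl ⟨h1, h2⟩)
    · rw [Set.disjoint_left]
      intro z h1 h2
      exact hΩX h2 h1
  have hXh : X ⊆ Ωᶜ := fun z hz h => hΩX h hz
  have hJX : J c ∩ Ωᶜ ⊆ X := by
    rintro z ⟨hzJ, hzΩ⟩
    by_contra hzX
    have h1 : z ∈ closure (K c)ᶜ := by
      have := hzJ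
      rw [J, frontier_eq_closure_inter_closure] at this
      exact this.2
    obtain ⟨w, hw1, hw2⟩ := mem_closure_iff.1 h1 _ hUo ⟨hzX, hzΩ⟩
    exact hw1.2 (hKΩ hw2)
  have hfront : frontier Ωᶜ ⊆ X := by
    intro z hz
    rw [frontier_compl, frontier, hΩo.interior_eq] at hz
    by_contra hzX
    obtain ⟨w, hw1, hw2⟩ := mem_closure_iff.1 hz.1 _ hUo ⟨hzX, hz.2⟩
    exact hw1.2 hw2
  -- the preimage of `Ω`
  have hFarΩ : ∀ z : ℂ, R0 c < ‖z‖ → f c z ∈ Ω := by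
    intro z hz
    apply hKΩ
    apply not_mem_K_of_lt
    have h1 := norm_f_ge hz.le
    have h2 := R0_pos c
    linarith
  have hpre : IsPreconnected (f c ⁻¹' Ω) := by
    refine preimage_conn (S := Far c) (y := ((R0 c + 1) ^ 2 + ‖c‖ : ℝ)) hΩc (isPreconnected_Far c)
      (fun z hz => hFarΩ z hz) ?_ ?_
    · apply hKΩ
      apply not_mem_K_of_lt
      rw [Complex.norm_real, Real.norm_of_nonneg (by positivity)]
      have h5 := R0_pos c
      nlinarith [norm_nonneg c]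
    · intro z hz
      by_contra hcon
      have h3 : ‖z‖ ≤ R0 c := not_lt.1 hcon
      have h4 : ‖f c z‖ ≤ ‖z‖ ^ 2 + ‖c‖ := by
        rw [f, ← norm_pow]
        exact norm_add_le _ _
      rw [hz, Complex.norm_real, Real.norm_of_nonneg (by positivity)] at h4
      have h5 := R0_pos c
      nlinarith [norm_nonneg z]
  have hpreΩ : f c ⁻¹' Ω ⊆ Ω := by
    refine hmax _ hpre (hFarΩ _ ?_) fun x hx hxX => hΩX hx (hfXm x hxX)
    rw [hnormP]
    linarith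
  have hmaps : ∀ z ∈ Ωᶜ, f c z ∈ Ωᶜ := fun z hz h => hz (hpreΩ h)
  have hsubK : Ωᶜ ⊆ K c := compl_subset_comm.1 hKΩ
  -- the set `W`
  have hWcl : IsClosed (f c ⁻¹' Ωᶜ) := hΩo.isClosed_compl.preimage (continuous_f c)
  have hW0 : (0 : ℂ) ∈ f c ⁻¹' Ωᶜ := hXh (hfXm 0 h0)
  obtain ⟨p, hpc, hpK⟩ : ∃ p : ℂ, ‖p‖ < ε ∧ p ∉ K c := by
    have h1 : (0 : ℂ) ∈ closure (K c)ᶜ := by
      have := h0J
      rw [J, frontier_eq_closure_inter_closure] at this
      exact this.2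
    obtain ⟨p, hp1, hp2⟩ := Metric.mem_closure_iff.1 h1 ε hε0
    refine ⟨p, ?_, hp1⟩
    rwa [dist_eq_norm, zero_sub, norm_neg] at hp2
  have hpW : p ∉ f c ⁻¹' Ωᶜ := fun h => hpK (f_mem_K_iff.1 (hsubK h))
  obtain ⟨a, haf, hap, hseg⟩ := first6 hWcl hW0 hpW
  have hfa : f c a ∈ X := hfront ((continuous_f c).frontier_preimage_subset _ haf)
  have hac : ‖a‖ < ε := lt_of_le_of_lt hap hpc
  have hruler : ∀ a v : ℂ, a ∈ X → ‖a‖ < ε → v ∉ K c →
      (∀ s ∈ Ioc (0 : ℝ) 1, f c (a + s * (v - a)) ∉ Ωᶜ) → Ruler c Ωᶜ a v := by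
    intro a v h1 h2 h3 h4
    refine ⟨(isCompact_K c).of_isClosed_subset hΩo.isClosed_compl hsubK, ?_, ?_, hsubK, ?_, hmaps,
      ?_, hXh h1, hεf a h2, ?_, h3, h4⟩
    · rw [compl_eq_univ_sdiff]
      exact hconnH.isPreconnected
    · rw [compl_compl]
      exact hΩc
    · rw [← hf0]
      exact hXh (hfXm 0 h0)
    · rw [preimage_compl, compl_compl]
      exact hpre
    · rintro rfl
      exact absurd h2 (not_lt.2 hεc)
  rw [← hfX] at hfa
  obtain ⟨x, hxX, hxa⟩ := hfa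
  rcases f_eq_iff.1 hxa with h | h
  · refine ⟨Ωᶜ, a, p, hruler a p (h ▸ hxX) hac hpK hseg, hXh, hJX⟩
  · refine ⟨Ωᶜ, -a, -p, hruler (-a) (-p) (h ▸ hxX) (by rwa [norm_neg]) ?_ ?_, hXh, hJX⟩
    · intro hmem
      apply hpK
      rw [← f_mem_K_iff, ← f_neg, f_mem_K_iff]
      exact hmem
    · intro s hs
      have h1 : -a + s * (-p - -a) = -(a + s * (p - a)) := by ring
      rw [h1, f_neg]
      exact hseg s hs

set_option linter.unusedVariables false in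
theorem setup {X : Set ℂ} (hX : IsCompact X) (hXc : IsPreconnected X) (hXJ : X ⊆ J c) (h0 : (0 : ℂ) ∈ X)
    (hfX : f c '' X = X) (hfix : ∀ x ∈ X, f c x ≠ x) :
    ∃ (Xh : Set ℂ) (a v : ℂ), Ruler c Xh a v ∧ X ⊆ Xh ∧ J c ∩ Xh ⊆ X :=
  setup3 hX hXc (hXJ.trans (J_sub_K c)) (hXJ h0) h0 hfX

end Pool.Agent.Helper66.QJ
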