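import Pool.Agent.Helper66.QK.Borsuk

/-!
# Block THIN: a thin neighbourhood of a full continuum, cut along a segment landing at it, is connected

Proof. We may assume that `U0` is bounded. Let `t > 0` be such that the segment from `a` to `w = a + t (v - a)` is in `U0`.
`U` = the component of `U0 \ [w, v]` which contains `Xh`: open, contains `Xh` and the half open segment `[a, w)`, so
`segment a v ∩ Uᶜ = [w, v]`. Let `p, q ∈ U` outside `F1 = Xh ∪ segment a v`. `(z - p) / (z - q)` has a continuous logarithm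
on `Xh` (`log_ratio` with `T` a compact connected subset of `Xhᶜ` containing `p` and `q`, a path), on `segment a v`
(`log_path`) and on `Uᶜ` (`log_ratio` with `T` a path from `p` to `q` in `U`). They can be glued to one on
`F = Xh ∪ segment a v ∪ Uᶜ`: first `Xh` and the segment (common point `a`), then with `Uᶜ` (the common part is the connected
set `[w, v]`, on which two logarithms differ by a constant). By `borsuk` `p` and `q` are in one component of `Fᶜ`; `L` = a path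
from `p` to `q` in it.
-/

set_option autoImplicit false

open Set Topology Metric Bornology Filter

namespace Pool.Agent.Helper66.QJ

private theorem join82 {Ω : Set ℂ} (hΩ : IsOpen Ω) (hc : IsPreconnected Ω) {p q : ℂ} (hp : p ∈ Ω) (hq : q ∈ Ω) :
    ∃ L : Set ℂ, IsCompact L ∧ IsPreconnected L ∧ L ⊆ Ω ∧ p ∈ L ∧ q ∈ L := by
  have h1 : IsPathConnected Ω := hΩ.isConnected_iff_isPathConnected.1 ⟨⟨p, hp⟩, hc⟩
  obtain ⟨γ, hγ⟩ := h1.joinedIn p hp q hq
  refine ⟨range γ, isCompact_range γ.continuous, isPreconnected_range γ.continuous, ?_, ⟨0, γ.source⟩, ⟨1, γ.target⟩⟩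
  rintro _ ⟨s, rfl⟩
  exact hγ s

private theorem dist82 {T Q : Set ℂ} (hT : IsCompact T) (hQ : IsClosed Q) (hd : ∀ t ∈ T, t ∉ Q) :
    ∃ δ : ℝ, 0 < δ ∧ ∀ z ∈ Q, ∀ t ∈ T, δ < ‖z - t‖ := by
  obtain ⟨δ, hδ, h1⟩ := hT.exists_thickening_subset_open hQ.isOpen_compl (fun t ht => hd t ht)
  refine ⟨δ / 2, by positivity, fun z hz t ht => ?_⟩
  by_contra h2
  push Not at h2
  refine h1 (Metric.mem_thickening_iff.2 ⟨t, ht, ?_⟩) hz
  rw [dist_eq_norm]
  linarith

theorem thin {Xh : Set ℂ} (hX : IsCompact Xh) (hXc : IsPreconnected Xh) (hXcc : IsPreconnected Xhᶜ) {a v : ℂ}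
    (haX : a ∈ Xh) (hseg : ∀ s ∈ Ioc (0 : ℝ) 1, a + s * (v - a) ∉ Xh) {U0 : Set ℂ} (hU0 : IsOpen U0) (hXU : Xh ⊆ U0) :
    ∃ U : Set ℂ, IsOpen U ∧ Xh ⊆ U ∧ U ⊆ U0 ∧ ∀ p ∈ U, ∀ q ∈ U, p ∉ Xh → q ∉ Xh → p ∉ segment ℝ a v →
      q ∉ segment ℝ a v → ∃ L : Set ℂ, IsCompact L ∧ IsPreconnected L ∧ L ⊆ U ∧ Disjoint L Xh ∧
        Disjoint L (segment ℝ a v) ∧ p ∈ L ∧ q ∈ L := by
  classical
  have hva : v ≠ a := by
    rintro rfl
    exact hseg 1 (by simp) (by simpa using haX)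
  have hva' : v - a ≠ 0 := sub_ne_zero.2 hva
  obtain ⟨R, hR⟩ := hX.isBounded.subset_ball 0
  set U1 : Set ℂ := U0 ∩ ball 0 R with hU1
  have hU1o : IsOpen U1 := hU0.inter isOpen_ball
  have hXU1 : Xh ⊆ U1 := fun z hz => ⟨hXU hz, hR hz⟩
  obtain ⟨ε, hε, hεU⟩ := Metric.isOpen_iff.1 hU1o a (hXU1 haX)
  set g : ℝ → ℂ := fun s => a + s * (v - a) with hg
  have hgc : Continuous g := by
    rw [hg]
    fun_prop
  have hginj : ∀ s s' : ℝ, g s = g s' → s = s' := by
    intro s s' h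
    have h1 : (s : ℂ) * (v - a) = s' * (v - a) := by
      have : a + (s : ℂ) * (v - a) = a + s' * (v - a) := h
      exact add_left_cancel this
    exact_mod_cast mul_right_cancel₀ hva' h1
  have hg0 : g 0 = a := by simp [hg]
  set t : ℝ := min 1 (ε / (‖v - a‖ + 1)) with ht
  have ht0 : 0 < t := lt_min one_pos (by positivity)
  have ht1 : t ≤ 1 := min_le_left _ _
  have hgU : ∀ s : ℝ, 0 ≤ s → s ≤ t → g s ∈ U1 := by
    intro s hs hst
    refine hεU ?_
    rw [mem_ball, dist_eq_norm]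
    have h1 : g s - a = s * (v - a) := by rw [hg]; ring
    rw [h1, norm_mul, Complex.norm_real, Real.norm_of_nonneg hs]
    have h2 : s ≤ ε / (‖v - a‖ + 1) := hst.trans (min_le_right _ _)
    have h3 : 0 ≤ ‖v - a‖ := norm_nonneg _
    calc s * ‖v - a‖ ≤ ε / (‖v - a‖ + 1) * ‖v - a‖ := mul_le_mul_of_nonneg_right h2 h3
      _ = ε * (‖v - a‖ / (‖v - a‖ + 1)) := by ring
      _ < ε * 1 := by
          refine mul_lt_mul_of_pos_left ?_ hε
          rw [div_lt_one (by positivity)]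
          linarith
      _ = ε := mul_one _
  set W : Set ℂ := g '' Icc t 1 with hW
  have hWc : IsClosed W := (isCompact_Icc.image hgc).isClosed
  have hgX : ∀ s : ℝ, 0 < s → s ≤ 1 → g s ∉ Xh := fun s h1 h2 => hseg s ⟨h1, h2⟩
  have hS : segment ℝ a v = g '' Icc 0 1 := by
    rw [segment_eq_image']
    rfl
  set U : Set ℂ := connectedComponentIn (U1 \ W) a with hUdef
  have hXW : Xh ⊆ U1 \ W := by
    intro z hz
    refine ⟨hXU1 hz, ?_⟩
    rintro ⟨s, hs, rfl⟩
    exact hgX s (lt_of_lt_of_le ht0 hs.1) hs.2 hz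
  have hUo : IsOpen U := (hU1o.sdiff hWc).connectedComponentIn
  have hXUU : Xh ⊆ U := hXc.subset_connectedComponentIn haX hXW
  have hUsub : U ⊆ U1 \ W := connectedComponentIn_subset _ _
  have hUc : IsPreconnected U := isPreconnected_connectedComponentIn
  have hgUU : ∀ s : ℝ, 0 ≤ s → s < t → g s ∈ U := by
    intro s hs hst
    have h1 : IsPreconnected (g '' Ico 0 t) := isPreconnected_Ico.image g hgc.continuousOn
    refine h1.subset_connectedComponentIn ⟨0, ⟨le_rfl, ht0⟩, hg0⟩ ?_ ⟨s, ⟨hs, hst⟩, rfl⟩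
    rintro _ ⟨s', hs', rfl⟩
    refine ⟨hgU s' hs'.1 hs'.2.le, ?_⟩
    rintro ⟨s'', hs'', h2⟩
    have := hginj _ _ h2
    rw [this] at hs''
    exact absurd hs'.2 (not_lt.2 hs''.1)
  refine ⟨U, hUo, hXUU, fun z hz => (hUsub hz).1.1, ?_⟩
  intro p hp q hq hpX hqX hpS hqS
  set F : Set ℂ := (Xh ∪ segment ℝ a v) ∪ Uᶜ with hF
  have hSc : IsClosed (segment ℝ a v) := by
    rw [hS]
    exact (isCompact_Icc.image hgc).isClosed
  have hFc : IsClosed F := (hX.isClosed.union hSc).union hUo.isClosed_compl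
  have hpF : p ∉ F := by
    rintro ((h | h) | h)
    · exact hpX h
    · exact hpS h
    · exact h hp
  have hqF : q ∉ F := by
    rintro ((h | h) | h)
    · exact hqX h
    · exact hqS h
    · exact h hq
  have hFb : IsBounded Fᶜ := by
    refine (isBounded_ball (x := (0 : ℂ)) (r := R)).subset ?_
    intro z hz
    have h1 : z ∈ U := by
      by_contra h2
      exact hz (Or.inr h2)
    exact (hUsub h1).1.2
  have hpq : ∀ z ∈ F, z - p ≠ 0 ∧ z - q ≠ 0 := by
    intro z hz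
    exact ⟨sub_ne_zero.2 fun h => hpF (h ▸ hz), sub_ne_zero.2 fun h => hqF (h ▸ hz)⟩
  -- the three logarithms
  obtain ⟨T1, hT1, hT1c, hT1s, hpT1, hqT1⟩ := join82 hX.isClosed.isOpen_compl hXcc hpX hqX
  obtain ⟨δ1, hδ1, hd1⟩ := dist82 hT1 hX.isClosed (fun t ht => hT1s ht)
  obtain ⟨r1, hr1, he1⟩ := log_ratio hT1c hpT1 hqT1 hδ1 hd1
  obtain ⟨T3, hT3, hT3c, hT3s, hpT3, hqT3⟩ := join82 hUo hUc hp hq
  obtain ⟨δ3, hδ3, hd3⟩ := dist82 hT3 hUo.isClosed_compl (fun t ht h => h (hT3s ht))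
  obtain ⟨r3, hr3, he3⟩ := log_ratio hT3c hpT3 hqT3 hδ3 hd3
  have hgS : ∀ s ∈ Icc (0 : ℝ) 1, g s ∈ F := fun s hs => Or.inl (Or.inr (by rw [hS]; exact ⟨s, hs, rfl⟩))
  obtain ⟨r2, hr2, he2⟩ := log_path (u := fun s => (g s - p) / (g s - q))
    (ContinuousOn.div (hgc.sub continuous_const).continuousOn (hgc.sub continuous_const).continuousOn
      (fun s hs => (hpq _ (hgS s hs)).2))
    (fun s hs => div_ne_zero (hpq _ (hgS s hs)).1 (hpq _ (hgS s hs)).2)
  have hgW : ∀ s ∈ Icc t 1, g s ∈ Uᶜ := fun s hs h => (hUsub h).2 ⟨s, hs, rfl⟩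
  have hrel : ∀ s ∈ Icc t 1, r2 s - r3 (g s) = r2 1 - r3 (g 1) := by
    intro s hs
    refine log_unique (S := Icc t 1) (r := r2) (r' := fun s => r3 (g s)) isPreconnected_Icc
      (hr2.mono fun x hx => ⟨ht0.le.trans hx.1, hx.2⟩) (hr3.comp hgc.continuousOn hgW) ?_ hs ⟨ht1, le_rfl⟩
    intro z hz
    rw [he2 z ⟨ht0.le.trans hz.1, hz.2⟩, he3 _ (hgW z hz)]
  set c2 : ℂ := r1 a - r2 0 with hc2
  set c3 : ℂ := r2 1 - r3 (g 1) + c2 with hc3
  have hec2 : Complex.exp c2 = 1 := by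
    rw [hc2, Complex.exp_sub, he1 a haX, he2 0 ⟨le_rfl, zero_le_one⟩, hg0]
    have := hpq a (Or.inl (Or.inl haX))
    exact div_self (div_ne_zero this.1 this.2)
  have hec3 : Complex.exp c3 = 1 := by
    have h1 := hpq _ (hgS 1 ⟨zero_le_one, le_rfl⟩)
    rw [hc3, Complex.exp_add, hec2, mul_one, Complex.exp_sub, he2 1 ⟨zero_le_one, le_rfl⟩,
      he3 _ (hgW 1 ⟨ht1, le_rfl⟩)]
    exact div_self (div_ne_zero h1.1 h1.2)
  set sg : ℂ → ℝ := fun z => ((z - a) / (v - a)).re with hsg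
  have hsgg : ∀ s : ℝ, sg (g s) = s := by
    intro s
    have h1 : (g s - a) / (v - a) = s := by
      rw [hg]
      simp only [add_sub_cancel_left]
      exact mul_div_cancel_right₀ _ hva'
    rw [hsg]
    simp only [h1, Complex.ofReal_re]
  have hsgc : Continuous sg := by
    rw [hsg]
    fun_prop
  set lam : ℂ → ℂ := fun z => if z ∈ Xh then r1 z else if z ∈ segment ℝ a v then r2 (sg z) + c2 else r3 z + c3
    with hlam
  have hl1 : ∀ z ∈ Xh, lam z = r1 z := fun z hz => by rw [hlam]; simp only [hz, if_true]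
  have hl2 : ∀ z ∈ segment ℝ a v, lam z = r2 (sg z) + c2 := by
    intro z hz
    by_cases hzX : z ∈ Xh
    · rw [hl1 z hzX]
      rw [hS] at hz
      obtain ⟨s, hs, rfl⟩ := hz
      rcases eq_or_lt_of_le hs.1 with h0 | h0
      · rw [hsgg, ← h0, hg0, hc2]
        ring
      · exact absurd hzX (hgX s h0 hs.2)
    · rw [hlam]
      simp only [hzX, hz, if_true, if_false]
  have hl3 : ∀ z ∈ Uᶜ, lam z = r3 z + c3 := by
    intro z hz
    have hzX : z ∉ Xh := fun h => hz (hXUU h)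
    by_cases hzS : z ∈ segment ℝ a v
    · rw [hl2 z hzS]
      rw [hS] at hzS
      obtain ⟨s, hs, rfl⟩ := hzS
      have hst : t ≤ s := by
        by_contra h
        push Not at h
        exact hz (hgUU s hs.1 h)
      have := hrel s ⟨hst, hs.2⟩
      rw [hsgg, hc3, ← this]
      ring
    · rw [hlam]
      simp only [hzX, hzS, if_false]
  have hc1 : ContinuousOn lam Xh := hr1.congr hl1
  have hc2' : ContinuousOn lam (segment ℝ a v) := by
    refine ContinuousOn.congr ?_ hl2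
    refine (ContinuousOn.comp hr2 hsgc.continuousOn ?_).add continuousOn_const
    intro z hz
    rw [hS] at hz
    obtain ⟨s, hs, rfl⟩ := hz
    rw [hsgg]
    exact hs
  have hc3' : ContinuousOn lam Uᶜ := (hr3.add continuousOn_const).congr hl3
  have hlc : ContinuousOn lam F :=
    (hc1.union_of_isClosed hc2' hX.isClosed hSc).union_of_isClosed hc3' (hX.isClosed.union hSc) hUo.isClosed_compl
  have hle : ∀ z ∈ F, Complex.exp (lam z) = (z - p) / (z - q) := by
    rintro z ((hz | hz) | hz)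
    · rw [hl1 z hz, he1 z hz]
    · rw [hl2 z hz, Complex.exp_add, hec2, mul_one]
      rw [hS] at hz
      obtain ⟨s, hs, rfl⟩ := hz
      rw [hsgg, he2 s hs]
    · rw [hl3 z hz, Complex.exp_add, hec3, mul_one, he3 z hz]
  have hb := borsuk hFc hFb hpF hqF hlc hle
  obtain ⟨L, hL, hLc, hLs, hpL, hqL⟩ := join82 (hFc.isOpen_compl.connectedComponentIn (x := p))
    isPreconnected_connectedComponentIn (mem_connectedComponentIn hpF) hb
  have hLF : L ⊆ Fᶜ := hLs.trans (connectedComponentIn_subset _ _)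
  refine ⟨L, hL, hLc, ?_, ?_, ?_, hpL, hqL⟩
  · intro z hz
    by_contra h
    exact hLF hz (Or.inr h)
  · rw [Set.disjoint_left]
    intro z hz h
    exact hLF hz (Or.inl (Or.inl h))
  · rw [Set.disjoint_left]
    intro z hz h
    exact hLF hz (Or.inl (Or.inr h))

end Pool.Agent.Helper66.QJ
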