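import Pool.Agent.Helper66.QK.Defs

/-!
# Block WIND: chains of preimages stay away from `-b`

Proof. `l 0 := l0 + constant` chosen such that `2 * l 0 q0 - l 0 x0 = Q q0` (both sides differ by a multiple of `2 π I`, since
`exp (Q q0) = (q0 - a)^2 / (x0 - a)`, and adding `2 π k I` to `l0` changes `2 l0 q0 - l0 x0` by `2 π k I`). Put
`l (n+1) z = (l n z + Q (g (n+1) z)) / 2` on `L`. Then `l n` is a continuous logarithm of `g n z - a` on `L`
(`exp (l (n+1) z)^2 = (g (n+1) z - a)^2`, the sign is constant on `L`, and it is `+` at `x0`, since `l (n+1) x0 = l n q0`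
and `g (n+1) x0 = g n q0` by induction). `|im (l 0 z)| ≤ BQ + 3 B2`, so `|im (l n z)| ≤ B3 := BQ + 3 B2` for all `n`.
Near `b` let `lb w = Q b + log ((w - a)/(b - a))`: a logarithm of `w - a`, as `exp (Q b) = b - a`. `2 lb w - lb (f w) - Q w`
is continuous near `b`, zero at `b` and a multiple of `2 π I`, so it is `0` near `b`. `ρ z = (z - a) / exp (Q z / 2)` is
continuous on the connected symmetric set `(f⁻¹ Xh)ᶜ`, `ρ z ^ 2 = f z - a = ρ (-z) ^ 2 ≠ 0`, and `Q → 0` at infinity, so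
`ρ (-z) = - ρ z`. Hence near `-b`: `w - a = - exp ((lb (f w) + Q w) / 2)`.
Let `m` be such that `2 π 2^m > B3 + |im (Q b)| + 1`. Let `η` be small. Suppose `‖g n z + b‖ < η`. If `n ≤ m + 2`: then
`z = f^n (g n z)` is close to `b` or `-b`, which are not in `Xh` (`f (-b) = b`), but `z` is close to `Xh`: contradiction. Else
`g (n - j) z` is close to `b` for `1 ≤ j ≤ m + 1` and `l (n-j) z = lb (g (n-j) z) + 2 π N_j I`, with `N_1` odd and
`N_{j+1} = 2 N_j`; so `|N_{m+1}| ≥ 2^m`, which contradicts the bound.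
-/

set_option autoImplicit false

open Set Topology Metric Bornology Filter

namespace Pool.Agent.Helper66.QJ

variable {c a v : ℂ} {Xh : Set ℂ}

/-- chains of preimages under the iterates -/
private theorem iter53 {L : Set ℂ} {g : ℕ → ℂ → ℂ} (hgf : ∀ k, ∀ z ∈ L, f c (g (k + 1) z) = g k z) {z : ℂ}
    (hz : z ∈ L) : ∀ j n : ℕ, (f c)^[j] (g (n + j) z) = g n z := by
  intro j
  induction j with
  | zero => intro n; rfl
  | succ j ih =>
    intro n
    rw [Function.iterate_succ_apply]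
    have h1 : f c (g (n + (j + 1)) z) = g (n + j) z := hgf (n + j) z hz
    rw [h1, ih]

/-- the logarithms along the chain -/
private theorem logs53 (h : Ruler c Xh a v) {Q : ℂ → ℂ} (hQ : ContinuousOn Q (f c ⁻¹' Xh)ᶜ)
    (hQe : ∀ z, f c z ∉ Xh → Complex.exp (Q z) = (z - a) ^ 2 / (f c z - a)) {BQ : ℝ}
    (hB : ∀ z, f c z ∉ Xh → |(Q z).im| ≤ BQ) {B2 : ℝ} {L : Set ℂ} {g : ℕ → ℂ → ℂ} {x0 q0 : ℂ} {l0 : ℂ → ℂ}
    (hL : IsPreconnected L) (hx0 : x0 ∈ L) (hq0 : q0 ∈ L) (hq : f c q0 = x0) (hg0 : ∀ z ∈ L, g 0 z = z)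
    (hgc : ∀ k, ContinuousOn (g k) L) (hgf : ∀ k, ∀ z ∈ L, f c (g (k + 1) z) = g k z)
    (hgx : ∀ k, g (k + 1) x0 = g k q0) (hLX : ∀ z ∈ L, z ∉ Xh) (hlc : ContinuousOn l0 L)
    (hle : ∀ z ∈ L, Complex.exp (l0 z) = z - a) (hlB : ∀ z ∈ L, |(l0 z - l0 x0).im| ≤ B2) :
    ∃ l : ℕ → ℂ → ℂ, (∀ n, ∀ z ∈ L, Complex.exp (l n z) = g n z - a) ∧
      (∀ n, ∀ z ∈ L, l (n + 1) z = (l n z + Q (g (n + 1) z)) / 2) ∧
      ∀ n, ∀ z ∈ L, |(l n z).im| ≤ BQ + 3 * B2 := by
  have hXn : ∀ n, ∀ z ∈ L, g n z ∉ Xh := by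
    intro n
    induction n with
    | zero => intro z hz; rw [hg0 z hz]; exact hLX z hz
    | succ n ih =>
      intro z hz hm
      exact ih z hz (by rw [← hgf n z hz]; exact h.maps _ hm)
  have hne : ∀ n, ∀ z ∈ L, g n z - a ≠ 0 := by
    intro n z hz h0
    refine hXn n z hz ?_
    rw [sub_eq_zero.1 h0]
    exact h.aX
  have hq0X : f c q0 ∉ Xh := by rw [hq]; exact hLX x0 hx0
  have hx0a : x0 - a ≠ 0 := by
    have h1 := hne 0 x0 hx0
    rwa [hg0 x0 hx0] at h1
  have hq0a : q0 - a ≠ 0 := by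
    have h1 := hne 0 q0 hq0
    rwa [hg0 q0 hq0] at h1
  have hk1 : Complex.exp (l0 x0 + Q q0 - 2 * l0 q0) = 1 := by
    rw [Complex.exp_sub, Complex.exp_add, hQe q0 hq0X, hq, hle x0 hx0, two_mul, Complex.exp_add, hle q0 hq0]
    field_simp
  obtain ⟨κ, hκ⟩ : ∃ κ : ℂ, κ = l0 x0 + Q q0 - 2 * l0 q0 := ⟨_, rfl⟩
  rw [← hκ] at hk1
  obtain ⟨l, hl0, hls⟩ : ∃ l : ℕ → ℂ → ℂ, (∀ z, l 0 z = l0 z + κ) ∧
      ∀ n z, l (n + 1) z = (l n z + Q (g (n + 1) z)) / 2 :=
    ⟨fun n => Nat.rec (fun z => l0 z + κ) (fun k F z => (F z + Q (g (k + 1) z)) / 2) n,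
      fun z => rfl, fun n z => rfl⟩
  have hcont : ∀ n, ContinuousOn (l n) L := by
    intro n
    induction n with
    | zero =>
      have h1 : l 0 = fun z => l0 z + κ := funext hl0
      rw [h1]
      exact hlc.add continuousOn_const
    | succ n ih =>
      have h1 : l (n + 1) = fun z => (l n z + Q (g (n + 1) z)) / 2 := funext (hls n)
      rw [h1]
      refine (ih.add (hQ.comp (hgc (n + 1)) ?_)).div_const 2
      intro z hz hm
      refine hXn n z hz ?_
      rw [← hgf n z hz]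
      exact hm
  have hx : ∀ n, l (n + 1) x0 = l n q0 := by
    intro n
    induction n with
    | zero =>
      rw [hls, hl0, hl0, hgx 0, hg0 q0 hq0, hκ]
      ring
    | succ n ih => rw [hls (n + 1), ih, hgx (n + 1), hls n q0]
  have hexp : ∀ n, ∀ z ∈ L, Complex.exp (l n z) = g n z - a := by
    intro n
    induction n with
    | zero =>
      intro z hz
      rw [hl0, Complex.exp_add, hk1, mul_one, hle z hz, hg0 z hz]
    | succ n ih =>
      have h1 := hL.eq_of_sq_eq (f := fun z => Complex.exp (l (n + 1) z)) (g := fun z => g (n + 1) z - a)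
        (Complex.continuous_exp.comp_continuousOn (hcont (n + 1))) ((hgc (n + 1)).sub continuousOn_const)
        (fun z hz => ?_) (fun {z} hz => hne (n + 1) z hz) hx0 ?_
      · exact fun z hz => h1 hz
      · change Complex.exp (l (n + 1) z) ^ 2 = (g (n + 1) z - a) ^ 2
        have e1 : Complex.exp (l (n + 1) z) ^ 2 = Complex.exp (l n z + Q (g (n + 1) z)) := by
          rw [← Complex.exp_nat_mul, hls]
          congr 1
          push_cast
          ring
        have e2 : f c (g (n + 1) z) ∉ Xh := by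
          rw [hgf n z hz]
          exact hXn n z hz
        have e3 := hne n z hz
        rw [e1, Complex.exp_add, ih z hz, hQe _ e2, hgf n z hz]
        field_simp
      · rw [hx, ih q0 hq0, hgx]
  have hB20 : 0 ≤ B2 := (abs_nonneg _).trans (hlB x0 hx0)
  refine ⟨l, hexp, fun n z _ => hls n z, ?_⟩
  intro n
  induction n with
  | zero =>
    intro z hz
    have e1 : l 0 z = Q q0 - 2 * (l0 q0 - l0 x0) + (l0 z - l0 x0) := by
      rw [hl0, hκ]
      ring
    have e2 : (l 0 z).im = (Q q0).im - 2 * (l0 q0 - l0 x0).im + (l0 z - l0 x0).im := by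
      rw [e1]
      simp only [Complex.add_im, Complex.sub_im, Complex.mul_im, Complex.re_ofNat, Complex.im_ofNat]
      ring
    have a1 := abs_le.1 (hB q0 hq0X)
    have a2 := abs_le.1 (hlB q0 hq0)
    have a3 := abs_le.1 (hlB z hz)
    rw [e2, abs_le]
    constructor <;> linarith [a1.1, a1.2, a2.1, a2.2, a3.1, a3.2]
  | succ n ih =>
    intro z hz
    have e2 : f c (g (n + 1) z) ∉ Xh := by
      rw [hgf n z hz]
      exact hXn n z hz
    have e3 : (l (n + 1) z).im = ((l n z).im + (Q (g (n + 1) z)).im) / 2 := by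
      rw [hls]
      have : (l n z + Q (g (n + 1) z)) / 2 = (((1 / 2 : ℝ) : ℂ)) * (l n z + Q (g (n + 1) z)) := by
        push_cast
        ring
      rw [this, Complex.im_ofReal_mul, Complex.add_im]
      ring
    have a1 := abs_le.1 (hB _ e2)
    have a2 := abs_le.1 (ih z hz)
    rw [e3, abs_le]
    constructor <;> linarith [a1.1, a1.2, a2.1, a2.2]

/-- small multiples of `2 π i` -/
private theorem small53 {x : ℂ} (h : Complex.exp x = 1) (hx : ‖x‖ < 2 * Real.pi) : x = 0 := by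
  obtain ⟨n, hn⟩ := Complex.exp_eq_one_iff.1 h
  by_cases h0 : n = 0
  · rw [hn, h0]
    simp
  · exfalso
    have h1 : ‖x‖ = |(n : ℝ)| * (2 * Real.pi) := by
      rw [hn, norm_mul, Complex.norm_intCast, norm_mul, Complex.norm_I, mul_one, norm_mul]
      simp [abs_of_pos Real.pi_pos]
    have h2 : (1 : ℝ) ≤ |(n : ℝ)| := by
      have := Int.one_le_abs h0
      exact_mod_cast this
    have h3 := Real.pi_pos
    rw [h1] at hx
    nlinarith

/-- the logarithm near the fixed point -/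
private theorem nearb53 (h : Ruler c Xh a v) {Q : ℂ → ℂ} (hQ : ContinuousOn Q (f c ⁻¹' Xh)ᶜ)
    (hQe : ∀ z, f c z ∉ Xh → Complex.exp (Q z) = (z - a) ^ 2 / (f c z - a)) {b : ℂ} (hb : f c b = b)
    (hbX : b ∉ Xh) : ∃ lb : ℂ → ℂ, ∀ᶠ w in 𝓝 b, Complex.exp (lb w) = w - a ∧ f c w ∉ Xh ∧
      2 * lb w = lb (f c w) + Q w ∧ |(lb w).im| ≤ |(Q b).im| + 1 := by
  have hba : b - a ≠ 0 := by
    intro h0
    exact hbX (by rw [sub_eq_zero.1 h0]; exact h.aX)
  have hopen : IsOpen (f c ⁻¹' Xh)ᶜ := (h.comp.isClosed.preimage (continuous_f c)).isOpen_compl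
  have hbW : b ∈ (f c ⁻¹' Xh)ᶜ := by
    intro hm
    have : f c b ∈ Xh := hm
    rw [hb] at this
    exact hbX this
  have hQb : ContinuousAt Q b := hQ.continuousAt (hopen.mem_nhds hbW)
  have hQbe : Complex.exp (Q b) = b - a := by
    rw [hQe b hbW, hb]
    field_simp
  obtain ⟨lb, hlb⟩ : ∃ lb : ℂ → ℂ, ∀ w, lb w = Q b + Complex.log ((w - a) / (b - a)) := ⟨_, fun _ => rfl⟩
  have hlbc : ContinuousAt lb b := by
    have h1 : lb = fun w => Q b + Complex.log ((w - a) / (b - a)) := funext hlb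
    rw [h1]
    refine continuousAt_const.add (ContinuousAt.clog ?_ ?_)
    · exact ((continuousAt_id.sub continuousAt_const).div_const _)
    · rw [div_self hba]
      exact Complex.one_mem_slitPlane
  have hlbb : lb b = Q b := by
    rw [hlb, div_self hba, Complex.log_one, add_zero]
  have hfb : ContinuousAt (fun w => lb (f c w)) b := by
    have h1 : ContinuousAt lb (f c b) := by rw [hb]; exact hlbc
    exact ContinuousAt.comp (f := f c) (g := lb) h1 (continuous_f c).continuousAt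
  have hexp : ∀ w, w - a ≠ 0 → Complex.exp (lb w) = w - a := by
    intro w hw
    rw [hlb, Complex.exp_add, hQbe, Complex.exp_log (div_ne_zero hw hba)]
    field_simp
  refine ⟨lb, ?_⟩
  have c1 : ∀ᶠ w in 𝓝 b, w - a ≠ 0 :=
    (continuousAt_id.sub continuousAt_const).eventually_ne hba
  have c2 : ∀ᶠ w in 𝓝 b, f c w ∉ Xh := hopen.mem_nhds hbW
  have c3 : ∀ᶠ w in 𝓝 b, ‖2 * lb w - lb (f c w) - Q w‖ < 2 * Real.pi := by
    have h1 : ContinuousAt (fun w => ‖2 * lb w - lb (f c w) - Q w‖) b :=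
      (((continuousAt_const.mul hlbc).sub hfb).sub hQb).norm
    refine h1.eventually_lt continuousAt_const ?_
    have h2 : 2 * lb b - lb (f c b) - Q b = 0 := by
      rw [hb, hlbb]
      ring
    rw [h2, norm_zero]
    exact mul_pos two_pos Real.pi_pos
  have c4 : ∀ᶠ w in 𝓝 b, |(lb w).im| < |(Q b).im| + 1 := by
    have h1 : ContinuousAt (fun w => |(lb w).im|) b := (Complex.continuous_im.continuousAt.comp hlbc).abs
    refine h1.eventually_lt continuousAt_const ?_
    rw [hlbb]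
    exact lt_add_one _
  filter_upwards [c1, c2, c3, c4] with w w1 w2 w3 w4
  refine ⟨hexp w w1, w2, ?_, w4.le⟩
  have w5 : f c w - a ≠ 0 := by
    intro h0
    exact w2 (by rw [sub_eq_zero.1 h0]; exact h.aX)
  have h1 : Complex.exp (2 * lb w - lb (f c w) - Q w) = 1 := by
    rw [Complex.exp_sub, Complex.exp_sub, two_mul, Complex.exp_add, hexp w w1, hexp _ w5, hQe w w2]
    field_simp
  have h2 := small53 h1 w3
  linear_combination h2

/-- the square root is odd -/
private theorem odd53 (h : Ruler c Xh a v) {Q : ℂ → ℂ} (hQ : ContinuousOn Q (f c ⁻¹' Xh)ᶜ)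
    (hQe : ∀ z, f c z ∉ Xh → Complex.exp (Q z) = (z - a) ^ 2 / (f c z - a))
    (hQi : ∀ ε : ℝ, 0 < ε → ∃ r : ℝ, ∀ z : ℂ, r ≤ ‖z‖ → ‖Q z‖ < ε) :
    ∀ z, f c z ∉ Xh → (-z - a) / Complex.exp (Q (-z) / 2) = -((z - a) / Complex.exp (Q z / 2)) := by
  obtain ⟨ρ, hρ⟩ : ∃ ρ : ℂ → ℂ, ∀ z, ρ z = (z - a) / Complex.exp (Q z / 2) := ⟨_, fun _ => rfl⟩
  have hρc : ContinuousOn ρ (f c ⁻¹' Xh)ᶜ := by
    have h1 : ρ = fun z => (z - a) / Complex.exp (Q z / 2) := funext hρ
    rw [h1]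
    exact (continuousOn_id.sub continuousOn_const).div
      (Complex.continuous_exp.comp_continuousOn (hQ.div_const 2)) fun z _ => Complex.exp_ne_zero _
  have hW : ∀ z ∈ (f c ⁻¹' Xh)ᶜ, -z ∈ (f c ⁻¹' Xh)ᶜ := by
    intro z hz hm
    refine hz ?_
    have h1 : f c (-z) ∈ Xh := hm
    rw [f_neg] at h1
    exact h1
  have hsq : ∀ z ∈ (f c ⁻¹' Xh)ᶜ, ρ z ^ 2 = f c z - a ∧ f c z - a ≠ 0 := by
    intro z hz
    have h0 : f c z - a ≠ 0 := by
      intro h0
      exact hz (by change f c z ∈ Xh; rw [sub_eq_zero.1 h0]; exact h.aX)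
    have h1 : Complex.exp (Q z / 2) ^ 2 = Complex.exp (Q z) := by
      rw [← Complex.exp_nat_mul]
      congr 1
      push_cast
      ring
    refine ⟨?_, h0⟩
    have h2 := hQe z hz
    have h3 : (z - a) ^ 2 = Complex.exp (Q z) * (f c z - a) := by
      rw [h2, div_mul_cancel₀ _ h0]
    rw [hρ, div_pow, h1, h3, mul_div_assoc, mul_comm, div_mul_cancel₀ _ (Complex.exp_ne_zero _)]
  have hρ0 : ∀ z ∈ (f c ⁻¹' Xh)ᶜ, ρ z ≠ 0 := by
    intro z hz h0
    obtain ⟨h1, h2⟩ := hsq z hz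
    rw [h0] at h1
    exact h2 (by rw [← h1]; ring)
  -- a far point
  obtain ⟨r, hr⟩ := hQi (1 / 4) (by norm_num)
  obtain ⟨M, hM⟩ := h.comp.isBounded.exists_norm_le
  obtain ⟨y, hy1, hy2⟩ : ∃ y : ℂ, r ≤ ‖y‖ ∧ 1 + ‖c‖ + |M| + ‖a‖ ≤ ‖y‖ := by
    refine ⟨((|r| + (1 + ‖c‖ + |M| + ‖a‖) : ℝ) : ℂ), ?_, ?_⟩
    · rw [Complex.norm_real, Real.norm_eq_abs]
      refine le_trans ?_ (le_abs_self _)
      have := le_abs_self r
      have := norm_nonneg c
      have := norm_nonneg a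
      have := abs_nonneg M
      linarith
    · rw [Complex.norm_real, Real.norm_eq_abs]
      refine le_trans ?_ (le_abs_self _)
      have := abs_nonneg r
      linarith
  have n1 := norm_nonneg c
  have n2 := norm_nonneg a
  have n3 := abs_nonneg M
  have hyW : y ∈ (f c ⁻¹' Xh)ᶜ := by
    intro hm
    have h1 : ‖f c y‖ ≤ M := hM _ hm
    have h2 : ‖y‖ ^ 2 - ‖c‖ ≤ ‖f c y‖ := by
      have h3 : ‖y ^ 2‖ - ‖-c‖ ≤ ‖y ^ 2 - -c‖ := norm_sub_norm_le _ _
      rw [norm_pow, norm_neg, sub_neg_eq_add] at h3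
      exact h3
    have h4 := le_abs_self M
    nlinarith
  have hfar : ρ (-y) = -ρ y := by
    have h1 : ρ (-y) ^ 2 = (-ρ y) ^ 2 := by
      rw [neg_sq, (hsq y hyW).1, (hsq (-y) (hW y hyW)).1, f_neg]
    rcases sq_eq_sq_iff_eq_or_eq_neg.1 h1 with h2 | h2
    · exact h2
    · exfalso
      rw [neg_neg, hρ, hρ, div_eq_div_iff (Complex.exp_ne_zero _) (Complex.exp_ne_zero _)] at h2
      have q1 : ‖Complex.exp (Q y / 2) - 1‖ ≤ 1 / 4 := by
        have h3 : ‖Q y / 2‖ ≤ 1 / 8 := by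
          rw [norm_div, Complex.norm_ofNat]
          have := hr y hy1
          linarith
        have h4 := Complex.norm_exp_sub_one_le (x := Q y / 2) (by linarith)
        linarith
      have q2 : ‖Complex.exp (Q (-y) / 2) - 1‖ ≤ 1 / 4 := by
        have h3 : ‖Q (-y) / 2‖ ≤ 1 / 8 := by
          rw [norm_div, Complex.norm_ofNat]
          have := hr (-y) (by rw [norm_neg]; exact hy1)
          linarith
        have h4 := Complex.norm_exp_sub_one_le (x := Q (-y) / 2) (by linarith)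
        linarith
      have h3 : 2 * y = -((Complex.exp (Q y / 2) - 1) * (y + a)) -
          (Complex.exp (Q (-y) / 2) - 1) * (y - a) := by
        linear_combination (-1 : ℂ) * h2
      have h4 : ‖(2 : ℂ) * y‖ ≤ 1 / 4 * (‖y‖ + ‖a‖) + 1 / 4 * (‖y‖ + ‖a‖) := by
        rw [h3]
        refine (norm_sub_le _ _).trans (add_le_add ?_ ?_)
        · rw [norm_neg, norm_mul]
          exact mul_le_mul q1 (norm_add_le _ _) (norm_nonneg _) (by norm_num)
        · rw [norm_mul]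
          exact mul_le_mul q2 (norm_sub_le _ _) (norm_nonneg _) (by norm_num)
      rw [norm_mul, Complex.norm_ofNat] at h4
      linarith
  have hneg : ContinuousOn (fun z : ℂ => ρ (-z)) (f c ⁻¹' Xh)ᶜ :=
    hρc.comp continuous_neg.continuousOn hW
  have key := h.complW.eq_of_sq_eq (f := fun z => ρ (-z)) (g := fun z => -ρ z) hneg hρc.neg
    (fun z hz => ?_) (fun {z} hz => neg_ne_zero.2 (hρ0 z hz)) hyW hfar
  · intro z hz
    have h1 : ρ (-z) = -ρ z := key hz
    rw [hρ, hρ] at h1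
    exact h1
  · change ρ (-z) ^ 2 = (-ρ z) ^ 2
    rw [neg_sq, (hsq z hz).1, (hsq (-z) (hW z hz)).1, f_neg]

theorem wind (h : Ruler c Xh a v) {Q : ℂ → ℂ} (hQ : ContinuousOn Q (f c ⁻¹' Xh)ᶜ)
    (hQe : ∀ z, f c z ∉ Xh → Complex.exp (Q z) = (z - a) ^ 2 / (f c z - a))
    (hQi : ∀ ε : ℝ, 0 < ε → ∃ r : ℝ, ∀ z : ℂ, r ≤ ‖z‖ → ‖Q z‖ < ε) {BQ : ℝ}
    (hB : ∀ z, f c z ∉ Xh → |(Q z).im| ≤ BQ) {b : ℂ} (hb : f c b = b) (hbX : b ∉ Xh) (B2 : ℝ) :
    ∃ η : ℝ, 0 < η ∧ ∀ (L : Set ℂ) (g : ℕ → ℂ → ℂ) (x0 q0 : ℂ) (l0 : ℂ → ℂ), IsPreconnected L → x0 ∈ L → q0 ∈ L →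
      f c q0 = x0 → (∀ z ∈ L, g 0 z = z) → (∀ k, ContinuousOn (g k) L) → (∀ k, ∀ z ∈ L, f c (g (k + 1) z) = g k z) →
      (∀ k, g (k + 1) x0 = g k q0) → (∀ z ∈ L, z ∉ Xh) → (∀ z ∈ L, ∃ y ∈ Xh, ‖z - y‖ < η) → ContinuousOn l0 L →
      (∀ z ∈ L, Complex.exp (l0 z) = z - a) → (∀ z ∈ L, |(l0 z - l0 x0).im| ≤ B2) →
      ∀ n, ∀ z ∈ L, η ≤ ‖g n z + b‖ := by
  obtain ⟨lb, hlb⟩ := nearb53 h hQ hQe hb hbX
  have hodd := odd53 h hQ hQe hQi
  -- near `-b`
  have hnb : ∀ᶠ w in 𝓝 (-b), w - a = -Complex.exp ((lb (f c w) + Q w) / 2) := by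
    have t1 : Tendsto (fun w : ℂ => -w) (𝓝 (-b)) (𝓝 b) := by
      have := (continuous_neg (G := ℂ)).tendsto (-b)
      rwa [neg_neg] at this
    filter_upwards [t1.eventually hlb] with w hw
    obtain ⟨w1, w2, w3, -⟩ := hw
    rw [f_neg] at w2 w3
    have h1 := hodd w w2
    have h2 : (-w - a) / Complex.exp (Q (-w) / 2) = Complex.exp (lb (f c w) / 2) := by
      rw [← w1, ← Complex.exp_sub]
      congr 1
      linear_combination (1 / 2 : ℂ) * w3
    rw [h2] at h1
    have h3 : (w - a) / Complex.exp (Q w / 2) = -Complex.exp (lb (f c w) / 2) := by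
      rw [h1, neg_neg]
    rw [div_eq_iff (Complex.exp_ne_zero _)] at h3
    rw [h3, neg_mul, ← Complex.exp_add]
    congr 2
    ring
  have hbX' : -b ∉ Xh := by
    intro hm
    have h1 := h.maps _ hm
    rw [f_neg, hb] at h1
    exact hbX h1
  obtain ⟨d1, hd1, hd1'⟩ := Metric.isOpen_iff.1 h.comp.isClosed.isOpen_compl b hbX
  obtain ⟨d2, hd2, hd2'⟩ := Metric.isOpen_iff.1 h.comp.isClosed.isOpen_compl (-b) hbX'
  obtain ⟨d3, hd3, hd3'⟩ := Metric.eventually_nhds_iff.1 hlb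
  obtain ⟨d4, hd4, hd4'⟩ := Metric.eventually_nhds_iff.1 hnb
  obtain ⟨m, hm⟩ : ∃ m : ℕ, BQ + 3 * B2 + |(Q b).im| + 1 < 2 * Real.pi * 2 ^ m := by
    obtain ⟨m, hm⟩ := pow_unbounded_of_one_lt (BQ + 3 * B2 + |(Q b).im| + 1) (one_lt_two (α := ℝ))
    refine ⟨m, hm.trans_le ?_⟩
    have h1 : (1 : ℝ) ≤ 2 * Real.pi := by linarith [Real.pi_gt_three]
    have h2 : (0 : ℝ) ≤ 2 ^ m := by positivity
    nlinarith
  obtain ⟨d, hd, hda, hdb, hdc, hdd⟩ : ∃ d : ℝ, 0 < d ∧ 2 * d ≤ d1 ∧ 2 * d ≤ d2 ∧ d ≤ d3 ∧ d ≤ d4 := by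
    refine ⟨min (min (d1 / 2) (d2 / 2)) (min d3 d4), ?_, ?_, ?_, ?_, ?_⟩
    · exact lt_min (lt_min (half_pos hd1) (half_pos hd2)) (lt_min hd3 hd4)
    · have := (min_le_left (min (d1 / 2) (d2 / 2)) (min d3 d4)).trans (min_le_left _ _)
      linarith
    · have := (min_le_left (min (d1 / 2) (d2 / 2)) (min d3 d4)).trans (min_le_right _ _)
      linarith
    · exact (min_le_right _ _).trans (min_le_left _ _)
    · exact (min_le_right _ _).trans (min_le_right _ _)
  have hit : ∀ᶠ w in 𝓝 (-b), ∀ j ∈ Finset.range (m + 2), dist ((f c)^[j] w) ((f c)^[j] (-b)) < d := by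
    rw [Filter.eventually_all_finset]
    intro j _
    exact ((continuous_f c).iterate j).continuousAt (Metric.ball_mem_nhds _ hd)
  obtain ⟨η0, hη0, hη0'⟩ := Metric.eventually_nhds_iff.1 hit
  have hfj : ∀ j : ℕ, (f c)^[j + 1] (-b) = b := by
    intro j
    induction j with
    | zero => rw [zero_add, Function.iterate_one, f_neg, hb]
    | succ j ih => rw [Function.iterate_succ_apply', ih, hb]
  refine ⟨min η0 d, lt_min hη0 hd, ?_⟩
  intro L g x0 q0 l0 hL hx0 hq0 hq hg0 hgc hgf hgx hLX hnear hlc hle hlB n z hz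
  by_contra hcon
  push Not at hcon
  have hdist : dist (g n z) (-b) < min η0 d := by
    rw [dist_eq_norm, sub_neg_eq_add]
    exact hcon
  have hall := hη0' (hdist.trans_le (min_le_left _ _))
  have hdist2 : dist (g n z) (-b) < d := hdist.trans_le (min_le_right _ _)
  by_cases hn : n ≤ m
  · have h1 := hall n (Finset.mem_range.2 (by omega))
    have h2 := iter53 hgf hz n 0
    rw [zero_add, hg0 z hz] at h2
    rw [h2] at h1
    obtain ⟨y, hy, hzy⟩ := hnear z hz
    have h3 : dist z y < d := by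
      rw [dist_eq_norm]
      exact hzy.trans_le (min_le_right _ _)
    have h4 : dist y ((f c)^[n] (-b)) < 2 * d := by
      calc dist y ((f c)^[n] (-b)) ≤ dist y z + dist z ((f c)^[n] (-b)) := dist_triangle _ _ _
        _ < d + d := add_lt_add (by rw [dist_comm]; exact h3) h1
        _ = 2 * d := by ring
    rcases Nat.eq_zero_or_pos n with h5 | h5
    · rw [h5] at h4
      exact hd2' (Metric.mem_ball.2 (h4.trans_le hdb)) hy
    · obtain ⟨n', rfl⟩ := Nat.exists_eq_succ_of_ne_zero h5.ne'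
      rw [Nat.succ_eq_add_one, hfj n'] at h4
      exact hd1' (Metric.mem_ball.2 (h4.trans_le hda)) hy
  · obtain ⟨k, rfl⟩ : ∃ k, n = k + (m + 1) := ⟨n - (m + 1), by omega⟩
    obtain ⟨l, l1, l2, l3⟩ := logs53 h hQ hQe hB hL hx0 hq0 hq hg0 hgc hgf hgx hLX hlc hle hlB
    have hub : ∀ i, i ≤ m → dist (g (k + i) z) b < d3 := by
      intro i hi
      have h1 := iter53 hgf hz (m + 1 - i) (k + i)
      have h2 : k + i + (m + 1 - i) = k + (m + 1) := by omega
      rw [h2] at h1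
      have h3 := hall (m + 1 - i) (Finset.mem_range.2 (by omega))
      rw [h1] at h3
      have h4 : m + 1 - i = (m - i) + 1 := by omega
      rw [h4, hfj] at h3
      exact h3.trans_le hdc
    have hN : ∀ i, i ≤ m → ∃ N : ℤ, l (k + i) z = lb (g (k + i) z) + N * (2 * Real.pi * Complex.I) := by
      intro i hi
      have h1 := (hd3' (hub i hi)).1
      have h2 := l1 (k + i) z hz
      rw [← h1] at h2
      exact Complex.exp_eq_exp_iff_exists_int.1 h2
    have hpi : (2 * Real.pi * Complex.I : ℂ) ≠ 0 := Complex.two_pi_I_ne_zero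
    obtain ⟨N0, hN0⟩ := hN 0 (Nat.zero_le m)
    have hind : ∀ i, i ≤ m → ∃ N : ℤ, l (k + i) z = lb (g (k + i) z) + N * (2 * Real.pi * Complex.I) ∧
        N0 = 2 ^ i * N := by
      intro i
      induction i with
      | zero => intro _; exact ⟨N0, hN0, by ring⟩
      | succ i ih =>
        intro hi
        obtain ⟨N, hN1, hN2⟩ := ih (by omega)
        obtain ⟨N', hN'⟩ := hN (i + 1) hi
        refine ⟨N', hN', ?_⟩
        have h1 := (hd3' (hub (i + 1) hi)).2.2.1
        have h2 : f c (g (k + (i + 1)) z) = g (k + i) z := hgf (k + i) z hz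
        rw [h2] at h1
        have h3 : l (k + (i + 1)) z = (l (k + i) z + Q (g (k + (i + 1)) z)) / 2 := l2 (k + i) z hz
        rw [hN', hN1] at h3
        have h4 : (2 * (N' : ℂ) - N) * (2 * Real.pi * Complex.I) = 0 := by
          linear_combination 2 * h3 - h1
        have h5 : (2 * (N' : ℂ) - N) = 0 := (mul_eq_zero.1 h4).resolve_right hpi
        have h6 : (N : ℂ) = ((2 * N' : ℤ) : ℂ) := by
          push_cast
          linear_combination -h5
        have h7 : N = 2 * N' := by exact_mod_cast h6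
        rw [hN2, h7, pow_succ]
        ring
    obtain ⟨N, hNa, hNb⟩ := hind m le_rfl
    -- `N` is odd
    have hw := hd4' (hdist2.trans_le hdd)
    have hfm : f c (g (k + (m + 1)) z) = g (k + m) z := hgf (k + m) z hz
    rw [hfm] at hw
    have hlm : l (k + (m + 1)) z = (l (k + m) z + Q (g (k + (m + 1)) z)) / 2 := l2 (k + m) z hz
    have hem := l1 (k + (m + 1)) z hz
    rw [hlm, hw, hNa] at hem
    have hsplit : (lb (g (k + m) z) + (N : ℂ) * (2 * Real.pi * Complex.I) + Q (g (k + (m + 1)) z)) / 2 =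
        (lb (g (k + m) z) + Q (g (k + (m + 1)) z)) / 2 + N * (Real.pi * Complex.I) := by ring
    rw [hsplit, Complex.exp_add] at hem
    have hneg1 : Complex.exp (N * (Real.pi * Complex.I)) = -1 := by
      have h0 := Complex.exp_ne_zero ((lb (g (k + m) z) + Q (g (k + (m + 1)) z)) / 2)
      have h1 : Complex.exp ((lb (g (k + m) z) + Q (g (k + (m + 1)) z)) / 2) *
          (Complex.exp (N * (Real.pi * Complex.I)) + 1) = 0 := by
        rw [mul_add, hem]
        ring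
      have h2 := (mul_eq_zero.1 h1).resolve_left h0
      linear_combination h2
    have hN0' : N0 ≠ 0 := by
      intro h0
      have h1 : N = 0 := by
        rw [h0] at hNb
        have h2 : (2 : ℤ) ^ m ≠ 0 := by positivity
        exact (mul_eq_zero.1 hNb.symm).resolve_left h2
      rw [h1] at hneg1
      norm_num at hneg1
    have hNne : N ≠ 0 := by
      rintro rfl
      exact hN0' (by rw [hNb, mul_zero])
    have hbig : (2 : ℝ) ^ m ≤ |(N0 : ℝ)| := by
      rw [hNb]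
      push_cast
      rw [abs_mul, abs_of_pos (by positivity : (0 : ℝ) < 2 ^ m)]
      have h1 : (1 : ℝ) ≤ |(N : ℝ)| := by
        have := Int.one_le_abs hNne
        exact_mod_cast this
      have h2 : (0 : ℝ) < 2 ^ m := by positivity
      nlinarith
    have b1 := l3 (k + 0) z hz
    have b2 := (hd3' (hub 0 (Nat.zero_le m))).2.2.2
    have b3 : (l (k + 0) z).im = (lb (g (k + 0) z)).im + N0 * (2 * Real.pi) := by
      rw [hN0]
      simp
    have b4 : |(N0 : ℝ)| * (2 * Real.pi) ≤ |(l (k + 0) z).im| + |(lb (g (k + 0) z)).im| := by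
      have h1 : (N0 : ℝ) * (2 * Real.pi) = (l (k + 0) z).im - (lb (g (k + 0) z)).im := by
        rw [b3]
        ring
      have h2 : |(N0 : ℝ)| * (2 * Real.pi) = |(N0 : ℝ) * (2 * Real.pi)| := by
        rw [abs_mul, abs_of_pos (mul_pos two_pos Real.pi_pos)]
      rw [h2, h1]
      exact abs_sub _ _
    have h3 := Real.pi_pos
    nlinarith

end Pool.Agent.Helper66.QJ
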