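import Pool.Agent.Helper66.QK.Ext
import Pool.Agent.Helper66.QK.Cut
import Pool.Agent.Helper66.QK.Thin
import Pool.Agent.Helper66.QK.Bound
import Pool.Agent.Helper66.QK.Wind
import Pool.Agent.Helper66.QK.Chain2
import Pool.Agent.Helper66.QK.Setup

/-!
# Block MAIN: an invariant continuum containing the critical point (MP_a03adf_an)
-/

set_option autoImplicit false

open Set Topology Metric Bornology Filter

namespace Pool.Agent.Helper66.QJ

variable {c : ℂ}

/-- a segment has no interior -/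
theorem exists_not_segment {a v : ℂ} (hav : a ≠ v) {O : Set ℂ} (hO : IsOpen O) (hOn : O.Nonempty) :
    ∃ x ∈ O, x ∉ segment ℝ a v := by
  obtain ⟨x, hx⟩ := hOn
  obtain ⟨r, hr, hrO⟩ := Metric.isOpen_iff.1 hO x hx
  by_contra hcon
  push Not at hcon
  have hd : v - a ≠ 0 := sub_ne_zero.2 hav.symm
  have hseg : ∀ y ∈ segment ℝ a v, ∃ s : ℝ, y = a + s * (v - a) := by
    intro y hy
    rw [segment_eq_image'] at hy
    obtain ⟨s, -, rfl⟩ := hy
    exact ⟨s, by simp [Complex.real_smul]⟩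
  obtain ⟨s, hs⟩ := hseg x (hcon x hx)
  obtain ⟨t, ht0, ht⟩ : ∃ t : ℝ, 0 < t ∧ t * ‖v - a‖ < r :=
    ⟨r / 2 / ‖v - a‖, by positivity, by
      rw [div_mul_cancel₀ _ (norm_ne_zero_iff.2 hd)]
      linarith⟩
  have hx' : x + t * Complex.I * (v - a) ∈ O := by
    apply hrO
    rw [mem_ball, dist_eq_norm, add_sub_cancel_left, norm_mul, norm_mul, Complex.norm_I, Complex.norm_real,
      Real.norm_of_nonneg ht0.le, mul_one]
    exact ht
  obtain ⟨s', hs'⟩ := hseg _ (hcon _ hx')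
  have h1 : (t * Complex.I - ((s' - s : ℝ) : ℂ)) * (v - a) = 0 := by
    rw [hs] at hs'
    push_cast
    linear_combination hs'
  have h2 := (mul_eq_zero.1 h1).resolve_right hd
  have h3 := congrArg Complex.im h2
  simp at h3
  linarith

theorem neg_mem_K {z : ℂ} (hz : z ∈ K c) : -z ∈ K c := by
  rw [← f_mem_K_iff, f_neg, f_mem_K_iff]
  exact hz

theorem neg_mem_Bn {m : ℕ} {z : ℂ} (hz : z ∈ Bn c (m + 1)) : -z ∈ Bn c (m + 1) := by
  have h1 : ‖(f c)^[m + 1] z‖ ≤ R0 c := hz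
  show ‖(f c)^[m + 1] (-z)‖ ≤ R0 c
  rw [Function.iterate_succ_apply] at h1 ⊢
  rwa [f_neg]

theorem dec_of_invariant2 {X : Set ℂ} (hX : IsCompact X) (hXc : IsPreconnected X) (hXJ : X ⊆ J c) (h0 : (0 : ℂ) ∈ X)
    (hfX : f c '' X = X) (hXn : X ≠ J c)
    (huniq : ∀ a b : ℂ, a ∈ J c → b ∈ J c → f c a = a → f c b = b → a = b) : Dec (J c) := by
  have h0J : (0 : ℂ) ∈ J c := hXJ h0
  have h0K : (0 : ℂ) ∈ K c := J_sub_K c h0J
  obtain ⟨b, R, C, hE⟩ := exists_ext h0K
  have hneg : ∀ S : Set ℂ, -S = (fun z : ℂ => -z) '' S := fun S => (Set.image_neg_eq_neg).symm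
  have hnX : IsCompact (-X) := by rw [hneg]; exact hX.image continuous_neg
  have hnXc : IsPreconnected (-X) := by rw [hneg]; exact hXc.image _ continuous_neg.continuousOn
  have h0' : (0 : ℂ) ∈ -X := by rw [Set.mem_neg, neg_zero]; exact h0
  have hnXJ : -X ⊆ J c := fun z hz => by
    have := neg_mem_J (hXJ hz)
    rwa [neg_neg] at this
  have hnXn : -X ≠ J c := by
    intro h
    apply hXn
    refine hXJ.antisymm fun z hz => ?_
    have h1 : -z ∈ -X := by rw [h]; exact neg_mem_J hz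
    rwa [Set.mem_neg, neg_neg] at h1
  by_cases hXX : X ∪ -X = J c
  · exact ⟨X, -X, hXJ, hnXJ, hXn, hnXn, hX, ⟨⟨0, h0⟩, hXc⟩, hnX, ⟨⟨0, h0'⟩, hnXc⟩, hXX⟩
  by_cases hbX : b ∈ X
  · -- the easy case
    obtain ⟨x, hxJ, hxX⟩ : ∃ x ∈ J c, x ∉ X ∪ -X := by
      by_contra hcon
      push Not at hcon
      exact hXX ((union_subset hXJ hnXJ).antisymm hcon)
    have hxb : x ≠ b := fun h => hxX (Or.inl (h ▸ hbX))
    have hxb' : -x ≠ b := fun h => hxX (Or.inr (by rw [Set.mem_neg, h]; exact hbX))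
    have hxR : x ∉ R := fun h => hxb (hE.RK ⟨h, J_sub_K c hxJ⟩)
    have hxR' : -x ∉ R := fun h => hxb' (hE.RK ⟨h, J_sub_K c (neg_mem_J hxJ)⟩)
    have hcl : IsClosed ((X ∪ -X) ∪ (R ∪ (fun z => -z) ⁻¹' R)) :=
      (hX.isClosed.union hnX.isClosed).union (hE.clR.union (hE.clR.preimage continuous_neg))
    obtain ⟨δ, hδ, hδb⟩ := Metric.isOpen_iff.1 hcl.isOpen_compl x (by
      rintro (h | h | h)
      · exact hxX h
      · exact hxR h
      · exact hxR' h)
    refine dec_of_cut hE hxJ hδ (fun z hz => ⟨fun h => hδb hz (Or.inr (Or.inl h)), fun h => hδb hz (Or.inr (Or.inr h))⟩)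
      fun m => ⟨X ∪ -X, hX.isClosed.union hnX.isClosed, hXc.union 0 h0 h0' hnXc, Or.inl h0, Or.inl hbX, ?_, ?_, ?_⟩
    · rintro z (h | h)
      · exact Or.inr (by rw [Set.mem_neg, neg_neg]; exact h)
      · exact Or.inl h
    · intro z hz
      have h1 : z ∈ K c := J_sub_K c (union_subset hXJ hnXJ hz)
      rw [K_eq] at h1
      exact mem_iInter.1 h1 m
    · rw [disjoint_left]
      exact fun z hz hzX => hδb hz (Or.inl hzX)
  -- the main case
  have hfix : ∀ x ∈ X, f c x ≠ x := fun x hx h => hbX (huniq b x hE.memJ (hXJ hx) hE.fix h ▸ hx)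
  obtain ⟨Xh, a, v, hr, hXXh, hJX⟩ := setup hX hXc hXJ h0 hfX hfix
  have hbXh : b ∉ Xh := fun h => hbX (hJX ⟨hE.memJ, h⟩)
  have hnb : -b ∉ Xh := fun h => hbXh (by
    have := hr.maps _ h
    rwa [f_neg, hE.fix] at this)
  have hb0 : b ≠ 0 := fun h => hbX (h ▸ h0)
  have hy0 : ((R0 c + 1 : ℝ) : ℂ) ∈ (K c)ᶜ := by
    apply not_mem_K_of_lt
    rw [Complex.norm_real, Real.norm_of_nonneg (by linarith [R0_pos c])]
    linarith
  set y0 : ℂ := ((R0 c + 1 : ℝ) : ℂ) with hy0def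
  have hy0n : ‖y0‖ = R0 c + 1 := by
    rw [hy0def, Complex.norm_real, Real.norm_of_nonneg (by linarith [R0_pos c])]
  have hy00 : y0 ≠ 0 := norm_pos_iff.1 (by rw [hy0n]; linarith [R0_pos c])
  obtain ⟨F, P, B, hF, hFc, hFK, hvF, hyF, hP, hPe, hPB⟩ := good (isClosed_K c).isOpen_compl (isPreconnected_compl_K c)
    (x := v) (y := y0) hr.vK hy0
  obtain ⟨Q, hQ, hQe, hQi⟩ := exists_Q hr
  obtain ⟨BQ, hBQ⟩ := bound_Q hr hQ hQe hQi
  obtain ⟨η, hη, hwind⟩ := wind hr hQ hQe hQi hBQ hE.fix hbXh (4 * Real.pi + 2 * B)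
  obtain ⟨b2, hb2⟩ := surj_f c (-b)
  have hb2' : f c (-b2) = -b := by rw [f_neg, hb2]
  have hb2J : b2 ∈ J c := by
    rw [← f_mem_J_iff, hb2]
    exact neg_mem_J hE.memJ
  have hbb : b ≠ -b := fun h => hb0 (self_eq_neg.1 h)
  have hb2b : b2 ≠ b := fun h => hbb (by rw [← hb2, h, hE.fix])
  have hb2b' : b2 ≠ -b := fun h => hbb (by
    rw [← hb2, h, f_neg, hE.fix])
  have hb2X : b2 ∉ Xh := fun h => hnb (hb2 ▸ hr.maps _ h)
  have hb2X' : -b2 ∉ Xh := fun h => hnb (hb2' ▸ hr.maps _ h)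
  have hb2R : b2 ∉ R := fun h => hb2b (hE.RK ⟨h, J_sub_K c hb2J⟩)
  have hb2R' : -b2 ∉ R := fun h => hb2b' (by
    have h1 : -b2 = b := hE.RK ⟨h, J_sub_K c (neg_mem_J hb2J)⟩
    rw [← h1, neg_neg])
  -- the radius
  have hXhcl : IsClosed Xh := hr.comp.isClosed
  obtain ⟨δ1, hδ1, hδ1b⟩ := Metric.isOpen_iff.1
    ((hXhcl.union (hXhcl.preimage continuous_neg)).union ((hE.clR.union (hE.clR.preimage continuous_neg)).union
      (isClosed_singleton (x := b) |>.union (isClosed_singleton (x := -b))))).isOpen_compl b2 (by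
      rintro ((h | h) | (h | h) | (h | h))
      · exact hb2X h
      · exact hb2X' h
      · exact hb2R h
      · exact hb2R' h
      · exact hb2b h
      · exact hb2b' h)
  obtain ⟨δ2, hδ2, hδ2b⟩ := Metric.continuousAt_iff.1 ((continuous_f c).continuousAt (x := b2)) η hη
  obtain ⟨δ, hδ, hδl1, hδl2⟩ : ∃ δ : ℝ, 0 < δ ∧ 2 * δ ≤ δ1 ∧ δ ≤ δ2 :=
    ⟨min (δ1 / 2) δ2, lt_min (by positivity) hδ2, by linarith [min_le_left (δ1 / 2) δ2], min_le_right _ _⟩
  have hfar : ∀ y ∈ Xh, 2 * δ ≤ ‖y - b2‖ ∧ 2 * δ ≤ ‖y + b2‖ := by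
    intro y hy
    constructor
    · by_contra hcon
      push Not at hcon
      exact hδ1b (mem_ball.2 (by rw [dist_eq_norm]; linarith)) (Or.inl (Or.inl hy))
    · by_contra hcon
      push Not at hcon
      refine hδ1b (show -y ∈ ball b2 δ1 from mem_ball.2 ?_) (Or.inl (Or.inr (show - -y ∈ Xh by rwa [neg_neg])))
      rw [dist_eq_norm, show -y - b2 = -(y + b2) by ring, norm_neg]
      linarith
  refine dec_of_cut hE hb2J hδ (fun z hz => ?_) fun m => ?_
  · have h1 : z ∈ ball b2 δ1 := ball_subset_ball (by linarith) hz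
    exact ⟨fun h => hδ1b h1 (Or.inr (Or.inl (Or.inl h))), fun h => hδ1b h1 (Or.inr (Or.inl (Or.inr h)))⟩
  -- the thin neighbourhood
  have hKV : Xh ⊆ {z : ℂ | ‖(f c)^[m + 1] z‖ < R0 c} ∩ Fᶜ := by
    intro z hz
    have hzK := hr.subK hz
    refine ⟨?_, fun h => hFK h hzK⟩
    by_contra hcon
    have h1 : R0 c ≤ ‖(f c)^[m + 1] z‖ := not_lt.1 hcon
    have h2 := norm_f_ge h1
    have h3 := mem_K_iff.1 hzK (m + 2)
    rw [Function.iterate_succ_apply'] at h3
    linarith [R0_pos c]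
  have hVo : IsOpen ({z : ℂ | ‖(f c)^[m + 1] z‖ < R0 c} ∩ Fᶜ) :=
    (isOpen_lt ((continuous_f c).iterate (m + 1)).norm continuous_const).inter hF.isClosed.isOpen_compl
  obtain ⟨ρ0, hρ0, hρ0V⟩ := hr.comp.exists_thickening_subset_open hVo hKV
  obtain ⟨ρ, hρ, hρl0, hρη, hρδ⟩ : ∃ ρ : ℝ, 0 < ρ ∧ ρ ≤ ρ0 ∧ ρ ≤ η ∧ ρ ≤ δ :=
    ⟨min ρ0 (min η δ), lt_min hρ0 (lt_min hη hδ), min_le_left _ _, (min_le_right _ _).trans (min_le_left _ _),
      (min_le_right _ _).trans (min_le_right _ _)⟩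
  have hthV : thickening ρ Xh ⊆ {z : ℂ | ‖(f c)^[m + 1] z‖ < R0 c} ∩ Fᶜ := (thickening_mono hρl0 Xh).trans hρ0V
  have hthnear : ∀ z ∈ thickening ρ Xh, ∃ y ∈ Xh, ‖z - y‖ < ρ := by
    intro z hz
    obtain ⟨y, hy, hzy⟩ := mem_thickening_iff.1 hz
    exact ⟨y, hy, by rwa [← dist_eq_norm]⟩
  have hthB : thickening ρ Xh ⊆ Bn c (m + 1) := by
    intro z hz
    have h1 : ‖(f c)^[m + 1] z‖ < R0 c := (hthV hz).1
    exact h1.le
  have hthfar : ∀ z ∈ thickening ρ Xh, δ ≤ ‖z - b2‖ ∧ δ ≤ ‖z + b2‖ := by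
    intro z hz
    obtain ⟨y, hy, hzy⟩ := hthnear z hz
    obtain ⟨h1, h2⟩ := hfar y hy
    have h3 := norm_sub_le (z - b2) (z - y)
    have h4 := norm_sub_le (z + b2) (z - y)
    rw [show z - b2 - (z - y) = y - b2 by ring] at h3
    rw [show z + b2 - (z - y) = y + b2 by ring] at h4
    constructor <;> linarith
  have hsegX : ∀ s ∈ Ioc (0 : ℝ) 1, a + s * (v - a) ∉ Xh := fun s hs h => hr.seg s hs (hr.maps _ h)
  obtain ⟨U, hU, hXU, hU0, hthin⟩ := thin hr.comp hr.conn hr.compl hr.aX hsegX (U0 := thickening ρ Xh)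
    isOpen_thickening (self_subset_thickening hρ Xh)
  -- the end points
  have hcX : c ∈ Xh := hr.cX
  have hfcX : f c c ∈ Xh := hr.maps _ hcX
  obtain ⟨r, hr0, hrU⟩ := Metric.isOpen_iff.1 hU (f c c) (hXU hfcX)
  have hav : a ≠ v := fun h => hr.vK (h ▸ hr.subK hr.aX)
  have hO : IsOpen ((U ∩ f c ⁻¹' (U ∩ ball (f c c) (r / 2))) ∩ (K c)ᶜ) :=
    (hU.inter ((hU.inter isOpen_ball).preimage (continuous_f c))).inter (isClosed_K c).isOpen_compl
  have hOn : ((U ∩ f c ⁻¹' (U ∩ ball (f c c) (r / 2))) ∩ (K c)ᶜ).Nonempty := by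
    have h1 : c ∈ closure (K c)ᶜ := (mem_J_iff.1 (c_mem_J h0J)).2
    exact mem_closure_iff.1 h1 _ (hU.inter ((hU.inter isOpen_ball).preimage (continuous_f c)))
      ⟨hXU hcX, hXU hfcX, mem_ball_self (by positivity)⟩
  obtain ⟨x1, hx1, hx1s⟩ := exists_not_segment hav hO hOn
  obtain ⟨x', hx', hx's, hfx's⟩ : ∃ x' ∈ (U ∩ f c ⁻¹' (U ∩ ball (f c c) (r / 2))) ∩ (K c)ᶜ,
      x' ∉ segment ℝ a v ∧ f c x' ∉ segment ℝ a v := by
    have hsc : IsClosed (segment ℝ a v) := by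
      rw [segment_eq_image_lineMap]
      exact (isCompact_Icc.image (by fun_prop)).isClosed
    have hO2 : IsOpen (((U ∩ f c ⁻¹' (U ∩ ball (f c c) (r / 2))) ∩ (K c)ᶜ) ∩ (segment ℝ a v)ᶜ) :=
      hO.inter hsc.isOpen_compl
    obtain ⟨w, ⟨x', hx', rfl⟩, hw⟩ := exists_not_segment hav (isOpenMap_f c _ hO2) ⟨_, x1, ⟨hx1, hx1s⟩, rfl⟩
    exact ⟨x', hx'.1, hx'.2, hw⟩
  obtain ⟨⟨hx'U, hfx'U, hfx'b⟩, hx'K⟩ := hx'
  have hfx'K : f c x' ∉ K c := fun h => hx'K (f_mem_K_iff.1 h)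
  obtain ⟨L, hL, hLc, hLU, hLX, hLs, hx0L, hx'L⟩ := hthin (f c x') hfx'U x' hx'U (fun h => hfx'K (hr.subK h))
    (fun h => hx'K (hr.subK h)) hfx's hx's
  have hLth : ∀ z ∈ L, z ∈ thickening ρ Xh := fun z hz => hU0 (hLU hz)
  have hLR0 : ∀ z ∈ L, ‖z‖ ≤ R0 c := fun z hz => Bn_anti' c (Nat.zero_le (m + 1)) (hthB (hLth z hz))
  -- the closed connected unbounded set
  have hsegc : IsCompact (segment ℝ a v) := by
    rw [segment_eq_image_lineMap]
    exact isCompact_Icc.image (by fun_prop)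
  have hTinf : IsClosed ((fun t : ℝ => (t : ℂ)) '' Ici (R0 c + 1)) :=
    Complex.isometry_ofReal.isClosedEmbedding.isClosedMap _ isClosed_Ici
  have hTcl : IsClosed (((Xh ∪ segment ℝ a v) ∪ F) ∪ (fun t : ℝ => (t : ℂ)) '' Ici (R0 c + 1)) :=
    ((hXhcl.union hsegc.isClosed).union hF.isClosed).union hTinf
  have hTconn : IsPreconnected (((Xh ∪ segment ℝ a v) ∪ F) ∪ (fun t : ℝ => (t : ℂ)) '' Ici (R0 c + 1)) := by
    refine ((hr.conn.union a hr.aX (left_mem_segment ℝ a v) (convex_segment a v).isPreconnected).union v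
      (Or.inr (right_mem_segment ℝ a v)) hvF hFc).union y0 (Or.inr hyF) ⟨R0 c + 1, mem_Ici.2 le_rfl, rfl⟩
      (isPreconnected_Ici.image _ Complex.continuous_ofReal.continuousOn)
  have hTunb : ¬ IsBounded (((Xh ∪ segment ℝ a v) ∪ F) ∪ (fun t : ℝ => (t : ℂ)) '' Ici (R0 c + 1)) := by
    intro hb
    obtain ⟨B', hB'⟩ := hb.exists_norm_le
    have h1 := hB' ((|B'| + R0 c + 2 : ℝ) : ℂ) (Or.inr ⟨_, mem_Ici.2 (by linarith [abs_nonneg B']), rfl⟩)
    rw [Complex.norm_real, Real.norm_of_nonneg (by linarith [abs_nonneg B', R0_pos c])] at h1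
    linarith [le_abs_self B', R0_pos c]
  have hLT : Disjoint L (((Xh ∪ segment ℝ a v) ∪ F) ∪ (fun t : ℝ => (t : ℂ)) '' Ici (R0 c + 1)) := by
    rw [disjoint_left]
    rintro z hz (((h | h) | h) | ⟨t, ht, rfl⟩)
    · exact disjoint_left.1 hLX hz h
    · exact disjoint_left.1 hLs hz h
    · exact (hthV (hLth z hz)).2 h
    · have h1 := hLR0 _ hz
      rw [Complex.norm_real] at h1
      have h2 := le_abs_self t
      rw [Real.norm_eq_abs] at h1
      linarith [mem_Ici.1 ht]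
  have horb : ∀ k, (f c)^[k] c ∈ Xh := by
    intro k
    induction k with
    | zero => exact hcX
    | succ k ih =>
      rw [Function.iterate_succ_apply']
      exact hr.maps _ ih
  obtain ⟨g, b1, hg0, hgc, hgf, hgm, hb1, hb1J, hglim⟩ := chain2 hTcl hTconn hTunb
    (fun k => Or.inl (Or.inl (Or.inl (horb k)))) hL hLc ⟨x', hx'L, subset_closure hx'K⟩ hLT (x0 := f c x') (q0 := x')
    hx0L hx'L rfl
  obtain rfl : b1 = b := huniq b1 b hb1J hE.memJ hb1 hE.fix
  -- the logarithm on `L`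
  have hzne : ∀ z ∈ L, z ∉ Xh ∧ z ∉ segment ℝ a v ∧ z ∉ F := fun z hz =>
    ⟨fun h => disjoint_left.1 hLX hz h, fun h => disjoint_left.1 hLs hz h, (hthV (hLth z hz)).2⟩
  have hslit : ∀ z ∈ L, 1 - z / y0 ∈ Complex.slitPlane := by
    intro z hz
    have h1 : 1 - z / y0 = 1 + -(z / y0) := by ring
    rw [h1]
    apply Complex.mem_slitPlane_of_norm_lt_one
    rw [norm_neg, norm_div, hy0n, div_lt_one (by linarith [R0_pos c])]
    linarith [hLR0 z hz]
  have hchain := hwind L g (f c x') x' (fun z => Complex.log ((z - a) / (z - v)) + P z + Complex.log (1 - z / y0) +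
    Complex.log (-y0)) hLc hx0L hx'L rfl hg0 hgc hgf hgm (fun z hz => (hzne z hz).1) (fun z hz => by
      obtain ⟨y, hy, hzy⟩ := hthnear z (hLth z hz)
      exact ⟨y, hy, hzy.trans_le hρη⟩) (by
      refine ((((good_segment a v).mono fun z hz => (hzne z hz).2.1).add (hP.mono fun z hz => (hzne z hz).2.2)).add
        ?_).add continuousOn_const
      exact ContinuousOn.clog (by fun_prop) hslit) (fun z hz => by
      obtain ⟨h1, h2, h3⟩ := hzne z hz
      have hza : z - a ≠ 0 := fun h => h1 (by rw [sub_eq_zero.1 h]; exact hr.aX)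
      have hzv : z - v ≠ 0 := fun h => h2 (by rw [sub_eq_zero.1 h]; exact right_mem_segment ℝ a v)
      have hzy : z - y0 ≠ 0 := fun h => h3 (by rw [sub_eq_zero.1 h]; exact hyF)
      have h4 : 1 - z / y0 ≠ 0 := Complex.slitPlane_ne_zero (hslit z hz)
      rw [Complex.exp_add, Complex.exp_add, Complex.exp_add, Complex.exp_log (div_ne_zero hza hzv), hPe z h3,
        Complex.exp_log h4, Complex.exp_log (neg_ne_zero.2 hy00)]
      field_simp
      ring) (fun z hz => by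
      have h1 : ∀ w : ℂ, |(Complex.log w).im| ≤ Real.pi := fun w => by
        rw [Complex.log_im]
        exact Complex.abs_arg_le_pi w
      have h2 := h1 ((z - a) / (z - v))
      have h3 := h1 ((f c x' - a) / (f c x' - v))
      have h4 := h1 (1 - z / y0)
      have h5 := h1 (1 - f c x' / y0)
      have h6 := hPB z (hzne z hz).2.2
      have h7 := hPB (f c x') (hzne _ hx0L).2.2
      simp only [Complex.sub_im, Complex.add_im]
      rw [abs_le] at h2 h3 h4 h5 h6 h7 ⊢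
      constructor <;> linarith [h2.1, h2.2, h3.1, h3.2, h4.1, h4.2, h5.1, h5.2, h6.1, h6.2, h7.1, h7.2])
  -- the chain as a closed connected set
  have hconv : Conv c L (fun n => g n '' L) b1 := by
    refine ⟨?_, fun n => hL.image_of_continuousOn (hgc n), fun n => hLc.image _ (hgc n), fun n => ⟨g n x', ⟨x', hx'L, rfl⟩,
      f c x', hx0L, hgm n⟩, ?_, hb1, hb1J, ?_⟩
    · ext z
      constructor
      · rintro ⟨y, hy, rfl⟩
        rw [hg0 y hy]
        exact hy
      · intro hz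
        exact ⟨z, hz, hg0 z hz⟩
    · rintro n _ ⟨x, hx, rfl⟩
      exact ⟨x, hx, (hgf n x hx).symm⟩
    · intro ε hε
      filter_upwards [hglim ε hε] with n hn
      rintro _ ⟨x, hx, rfl⟩
      exact hn x hx
  have hit : ∀ n, ∀ z ∈ L, (f c)^[n] (g n z) = z := by
    intro n
    induction n with
    | zero => exact fun z hz => hg0 z hz
    | succ n ih =>
      intro z hz
      rw [Function.iterate_succ_apply, hgf n z hz]
      exact ih z hz
  have hchB : ∀ n, ∀ z ∈ L, g n z ∈ Bn c (m + 1) := by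
    intro n z hz
    have h1 : g n z ∈ Bn c (m + 1 + n) := by
      show ‖(f c)^[m + 1 + n] (g n z)‖ ≤ R0 c
      rw [Function.iterate_add_apply, hit n z hz]
      exact hthB (hLth z hz)
    exact Bn_anti' c (Nat.le_add_right _ _) h1
  have hchfar : ∀ n, ∀ z ∈ L, δ ≤ ‖g n z - b2‖ ∧ δ ≤ ‖g n z + b2‖ := by
    intro n z hz
    rcases n with _ | n
    · rw [hg0 z hz]
      exact hthfar z (hLth z hz)
    · have h1 := hchain n z hz
      constructor
      · by_contra hcon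
        push Not at hcon
        have h2 := hδ2b (x := g (n + 1) z) (by rw [dist_eq_norm]; linarith)
        rw [hgf n z hz, hb2, dist_eq_norm, sub_neg_eq_add] at h2
        linarith
      · by_contra hcon
        push Not at hcon
        have h2 := hδ2b (x := -g (n + 1) z) (by
          rw [dist_eq_norm, show -g (n + 1) z - b2 = -(g (n + 1) z + b2) by ring, norm_neg]
          linarith)
        rw [f_neg, hgf n z hz, hb2, dist_eq_norm, sub_neg_eq_add] at h2
        linarith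
  have hD : closedBall (f c c) (r / 2) ⊆ U := (closedBall_subset_ball (by linarith)).trans hrU
  -- the set `P1`
  set P1 : Set ℂ := (Xh ∪ closedBall (f c c) (r / 2)) ∪ ((⋃ n, g n '' L) ∪ {b1}) with hP1
  have hP1cl : IsClosed P1 := (hXhcl.union isClosed_closedBall).union hconv.isClosed
  have hP1c : IsPreconnected P1 := by
    refine (hr.conn.union (f c c) hfcX (mem_closedBall_self (by positivity))
      (convex_closedBall _ _).isPreconnected).union (f c x') (Or.inr (ball_subset_closedBall hfx'b)) ?_ hconv.isPreconnected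
    exact Or.inl (mem_iUnion.2 ⟨0, f c x', hx0L, hg0 _ hx0L⟩)
  have h0P : (0 : ℂ) ∈ P1 := Or.inl (Or.inl (hXXh h0))
  have hbP : b1 ∈ P1 := Or.inr (Or.inr rfl)
  have hP1B : P1 ⊆ Bn c (m + 1) := by
    rintro z ((h | h) | h | h)
    · exact hthB (self_subset_thickening hρ Xh h)
    · exact hthB (hU0 (hD h))
    · obtain ⟨n, w, hw, rfl⟩ := mem_iUnion.1 h
      exact hchB n w hw
    · rw [mem_singleton_iff.1 h]
      have h1 : b1 ∈ K c := J_sub_K c hb1J
      rw [K_eq] at h1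
      exact mem_iInter.1 h1 (m + 1)
  have hP1far : ∀ z ∈ P1, δ ≤ ‖z - b2‖ ∧ δ ≤ ‖z + b2‖ := by
    rintro z ((h | h) | h | h)
    · exact hthfar z (self_subset_thickening hρ Xh h)
    · exact hthfar z (hU0 (hD h))
    · obtain ⟨n, w, hw, rfl⟩ := mem_iUnion.1 h
      exact hchfar n w hw
    · rw [mem_singleton_iff.1 h]
      constructor
      · by_contra hcon
        push Not at hcon
        exact hδ1b (mem_ball.2 (by rw [dist_eq_norm]; linarith)) (Or.inr (Or.inr (Or.inl rfl)))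
      · by_contra hcon
        push Not at hcon
        refine hδ1b (show -b1 ∈ ball b2 δ1 from mem_ball.2 ?_) (Or.inr (Or.inr (Or.inr rfl)))
        rw [dist_eq_norm, show -b1 - b2 = -(b1 + b2) by ring, norm_neg]
        linarith
  have hnP : IsClosed (-P1) := by
    have : IsClosed ((fun z : ℂ => -z) ⁻¹' P1) := hP1cl.preimage continuous_neg
    exact this
  have hnPc : IsPreconnected (-P1) := by rw [hneg]; exact hP1c.image _ continuous_neg.continuousOn
  refine ⟨P1 ∪ -P1, hP1cl.union hnP, hP1c.union 0 h0P (by rw [Set.mem_neg, neg_zero]; exact h0P) hnPc, Or.inl h0P,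
    Or.inl hbP, ?_, ?_, ?_⟩
  · rintro z (h | h)
    · exact Or.inr (by rw [Set.mem_neg, neg_neg]; exact h)
    · exact Or.inl h
  · rintro z (h | h)
    · exact Bn_anti' c (Nat.le_succ m) (hP1B h)
    · have h1 := neg_mem_Bn (hP1B h)
      rw [neg_neg] at h1
      exact Bn_anti' c (Nat.le_succ m) h1
  · rw [disjoint_left]
    rintro z hz (h | h)
    · have h1 := (hP1far z h).1
      rw [mem_ball, dist_eq_norm] at hz
      linarith
    · have h1 := (hP1far (-z) h).2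
      rw [mem_ball, dist_eq_norm] at hz
      rw [show -z + b2 = -(z - b2) by ring, norm_neg] at h1
      linarith

end Pool.Agent.Helper66.QJ
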